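import Pool.Agent.R362.NearDed
import Pool.Agent.Y772.DK.Cc
import Pool.Agent.Y772.DK.Dir
import Pool.Agent.Y772.DK.Main
import Pool.Agent.Y772.DK.Vm

/-! # A bound for the zeta functions on the line `Re s = 2`, uniform in the number field -/

set_option autoImplicit false

namespace Pool.Agent.K1H79.TOS

open NumberField Ideal Pool.Agent.Y773 Pool.Agent.Y772.DK Pool.Agent.R362.Near

theorem zeta_two : ∃ F0 : ℝ, 0 ≤ F0 ∧ ∀ (F : Type) [Field F] [NumberField F] (s : ℂ), s.re = 2 →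
    ‖LI (triv F) s‖ ≤ Real.exp (Module.finrank ℚ F * F0) := by
  classical
  have hsum : Summable (fun n : ℕ => (n : ℝ) ^ (-(2 : ℝ))) := Real.summable_nat_rpow.2 (by norm_num)
  refine ⟨∑' n : ℕ, (n : ℝ) ^ (-(2 : ℝ)), tsum_nonneg fun n => by positivity, ?_⟩
  intro F _ _ s hs
  have hs1 : 1 < s.re := by rw [hs]; norm_num
  rw [LI_eq_exp (triv F) triv_norm hs1, Complex.norm_exp]
  refine Real.exp_le_exp.2 ((Complex.re_le_norm _).trans ?_)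
  obtain ⟨g, hg⟩ : ∃ g : Ideal (𝓞 F) → ℝ, ∀ 𝔞, g 𝔞 = ‖ee (triv F) 𝔞‖ * nr F 2 𝔞 := ⟨_, fun _ => rfl⟩
  have hg0 : ∀ 𝔞, 0 ≤ g 𝔞 := fun 𝔞 => by
    rw [hg]; exact mul_nonneg (norm_nonneg _) (nr_nonneg F _ _)
  have hgs : Summable g := by
    refine Summable.of_nonneg_of_le hg0 (fun 𝔞 => ?_) (nr_summable F (σ := 2) (by norm_num))
    rw [hg]
    exact mul_le_of_le_one_left (nr_nonneg F _ _) (ee_le (triv F) triv_norm 𝔞)
  have h1 : ‖LA (ee (triv F)) s‖ ≤ ∑' 𝔞, g 𝔞 := by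
    refine tsum_of_norm_bounded hgs.hasSum fun 𝔞 => ?_
    by_cases h : 𝔞 = 0
    · rw [h, ee_zero, zero_mul, norm_zero]
      exact hg0 _
    · rw [norm_mul, Complex.norm_natCast_cpow_of_pos (absNorm_pos' h), Complex.neg_re, hs, hg]
      exact le_rfl
  refine h1.trans ?_
  have h2 := hgs.hasSum.tsum_fiberwise (fun 𝔞 : Ideal (𝓞 F) => absNorm 𝔞)
  rw [← tsum_mul_left]
  refine hasSum_le (fun n => ?_) h2 (hsum.mul_left _).hasSum
  have e1 : ∀ 𝔞 : ((fun 𝔞 : Ideal (𝓞 F) => absNorm 𝔞) ⁻¹' {n} : Set (Ideal (𝓞 F))),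
      g 𝔞.1 ≤ VM 𝔞.1 * ((Real.log n)⁻¹ * (n : ℝ) ^ (-(2 : ℝ))) := by
    rintro ⟨𝔞, h𝔞⟩
    have h𝔞' : absNorm 𝔞 = n := h𝔞
    have h3 := VM_nonneg 𝔞
    simp only
    rw [hg]
    by_cases h : 𝔞 = 0
    · rw [h, ee_zero, norm_zero, zero_mul]
      rw [h] at h3
      have : 0 ≤ Real.log n := Real.log_natCast_nonneg _
      positivity
    · have h4 : ‖Pool.Agent.Y772.DK.ee (triv F) 𝔞‖ ≤ VM 𝔞 * (Real.log n)⁻¹ := by
        unfold Pool.Agent.Y772.DK.ee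
        rw [norm_mul, Complex.norm_real, Real.norm_of_nonneg
          (div_nonneg (VM_nonneg _) (Real.log_natCast_nonneg _)), h𝔞', div_eq_mul_inv]
        refine mul_le_of_le_one_right ?_ (triv_norm 𝔞)
        have : 0 ≤ Real.log n := Real.log_natCast_nonneg _
        positivity
      have h5 : nr F 2 𝔞 = (n : ℝ) ^ (-(2 : ℝ)) := by unfold nr; rw [h𝔞']
      rw [h5, ← mul_assoc]
      exact mul_le_mul_of_nonneg_right h4 (by positivity)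
  have hfin : Finite ((fun 𝔞 : Ideal (𝓞 F) => absNorm 𝔞) ⁻¹' {n} : Set (Ideal (𝓞 F))) :=
    NN_finite n
  have : Fintype ((fun 𝔞 : Ideal (𝓞 F) => absNorm 𝔞) ⁻¹' {n} : Set (Ideal (𝓞 F))) := Fintype.ofFinite _
  rw [tsum_fintype]
  refine (Finset.sum_le_sum fun 𝔞 _ => e1 𝔞).trans ?_
  rw [← Finset.sum_mul]
  have e2 : ∑ 𝔞 : ((fun 𝔞 : Ideal (𝓞 F) => absNorm 𝔞) ⁻¹' {n} : Set (Ideal (𝓞 F))), VM 𝔞.1 =
      ∑ᶠ 𝔞 ∈ NN F n, VM 𝔞 := by
    rw [← finsum_eq_sum_of_fintype]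
    exact finsum_set_coe_eq_finsum_mem (f := fun 𝔞 : Ideal (𝓞 F) => VM 𝔞) (NN F n)
  rw [e2]
  have h6 := sum_VM_le (K := F) n
  have h7 : 0 ≤ (Real.log n)⁻¹ := inv_nonneg.2 (Real.log_natCast_nonneg _)
  have h8 : (0 : ℝ) ≤ (n : ℝ) ^ (-(2 : ℝ)) := by positivity
  have h9 : ArithmeticFunction.vonMangoldt n * (Real.log n)⁻¹ ≤ 1 := by
    rw [← div_eq_mul_inv]
    exact div_le_one_of_le₀ ArithmeticFunction.vonMangoldt_le_log (Real.log_natCast_nonneg _)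
  calc _ ≤ (Module.finrank ℚ F * ArithmeticFunction.vonMangoldt n) *
        ((Real.log n)⁻¹ * (n : ℝ) ^ (-(2 : ℝ))) := mul_le_mul_of_nonneg_right h6 (by positivity)
    _ = Module.finrank ℚ F * (ArithmeticFunction.vonMangoldt n * (Real.log n)⁻¹) *
        (n : ℝ) ^ (-(2 : ℝ)) := by ring
    _ ≤ Module.finrank ℚ F * 1 * (n : ℝ) ^ (-(2 : ℝ)) := by gcongr
    _ = _ := by rw [mul_one]

end Pool.Agent.K1H79.TOS
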