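import Pool.Agent.K1H79.TOS.Gam
import Pool.Agent.K1H79.TOS.Zet
import Pool.Agent.R362.NearOrd
import Pool.Agent.R362.HkFe

/-! # Uniform bounds for the Dedekind zeta functions in the strip `0 < Re s ≤ 2` -/

set_option autoImplicit false

namespace Pool.Agent.K1H79.TOS

open NumberField Complex Pool.Agent.Y773 Pool.Agent.R362.Near Pool.Agent.R362.HL
open Pool.Agent.Y773.G (ex)

theorem xi_bound : ∃ F0 : ℝ, 0 ≤ F0 ∧ ∀ (F : Type) [Field F] [NumberField F] (X : ℂ → ℂ),
    IsXi F X → ∀ s : ℂ, -1 ≤ s.re → s.re ≤ 2 →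
    ‖X s‖ ≤ 16 * (((discr F).natAbs : ℕ) : ℝ) * Real.exp (Module.finrank ℚ F * F0) * ‖s + 2‖ ^ 2 := by
  obtain ⟨F0, hF00, hF0⟩ := zeta_two
  refine ⟨F0, hF00, fun F _ _ X h s hs1 hs2 => ?_⟩
  set R : ℝ := (((discr F).natAbs : ℕ) : ℝ) with hR
  set E : ℝ := Real.exp (Module.finrank ℚ F * F0) with hE
  have hR1 : 1 ≤ R := h.one_le
  have hR0 : 0 < R := by linarith
  have hE0 : 0 < E := Real.exp_pos _
  -- the line `Re s = 2`
  have h2 : ∀ z : ℂ, z.re = 2 → ‖X z‖ ≤ R * E * ‖z + 2‖ ^ 2 := by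
    intro z hz
    rw [h.eq z (by rw [hz]; norm_num), pow_one, ← hR]
    have e1 : ‖z * (z - 1)‖ ≤ ‖z + 2‖ ^ 2 := by
      rw [norm_mul, sq]
      have q1 : ‖z‖ ≤ ‖z + 2‖ := by
        rw [Complex.norm_def, Complex.norm_def]
        refine Real.sqrt_le_sqrt ?_
        rw [Complex.normSq_apply, Complex.normSq_apply]
        simp only [Complex.add_re, Complex.add_im, Complex.re_ofNat, Complex.im_ofNat, hz]
        nlinarith
      have q2 : ‖z - 1‖ ≤ ‖z + 2‖ := by
        rw [Complex.norm_def, Complex.norm_def]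
        refine Real.sqrt_le_sqrt ?_
        rw [Complex.normSq_apply, Complex.normSq_apply]
        simp only [Complex.add_re, Complex.add_im, Complex.sub_re, Complex.sub_im, Complex.re_ofNat,
          Complex.im_ofNat, Complex.one_re, Complex.one_im, hz]
        nlinarith
      exact mul_le_mul q1 q2 (norm_nonneg _) (norm_nonneg _)
    have e2 : ‖(R : ℂ) ^ (z / 2)‖ = R := by
      rw [Complex.norm_cpow_eq_rpow_re_of_pos hR0]
      have : (z / 2 : ℂ).re = 1 := by
        have e : (z / 2 : ℂ) = ((1 / 2 : ℝ) : ℂ) * z := by push_cast; ring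
        rw [e, Complex.re_ofReal_mul, hz]; norm_num
      rw [this, Real.rpow_one]
    have e3 : ‖∏ φ : F →+* ℂ, Complex.Gammaℝ (z + ex (fun _ : InfinitePlace F => 0) φ)‖ ≤ 1 := by
      rw [norm_prod]
      refine Finset.prod_le_one (fun _ _ => norm_nonneg _) fun φ _ => gammaR_le ?_
      have : ex (fun _ : InfinitePlace F => 0) φ = 0 ∨ ex (fun _ : InfinitePlace F => 0) φ = 1 := by
        unfold ex
        split_ifs
        · exact Or.inl rfl
        · exact Or.inl rfl
        · exact Or.inr rfl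
      rcases this with h3 | h3
      · left; rw [h3]; simpa using hz
      · right; rw [h3]; simp [hz]; norm_num
    have e4 := hF0 F z hz
    rw [norm_mul, norm_mul, norm_mul ((R : ℂ) ^ (z / 2)), e2]
    calc ‖z * (z - 1)‖ * (R * ‖∏ φ : F →+* ℂ, Complex.Gammaℝ (z + ex (fun _ : InfinitePlace F => 0) φ)‖) *
          ‖LI (triv F) z‖ ≤ ‖z + 2‖ ^ 2 * (R * 1) * E := by gcongr
      _ = _ := by ring
  -- growth
  obtain ⟨C, hC0, hC⟩ := h.strip (-1) 2
  have hne : ∀ z : ℂ, -1 ≤ z.re → 1 ≤ ‖z + 2‖ := by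
    intro z hz
    have := Complex.re_le_norm (z + 2)
    simp only [Complex.add_re, Complex.re_ofNat] at this
    linarith
  have hfin := PhragmenLindelof.vertical_strip (f := fun z => X z / (z + 2) ^ 2) (a := -1) (b := 2)
    (C := 16 * R * E) (z := s) ?_ ?_ ?_ ?_ hs1 hs2
  · rw [norm_div, norm_pow, div_le_iff₀ (by have := hne s hs1; positivity)] at hfin
    exact hfin
  · refine DifferentiableOn.diffContOnCl ?_
    have hcl : closure (Complex.re ⁻¹' Set.Ioo (-1) 2) ⊆ {z : ℂ | -1 ≤ z.re} := by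
      refine closure_minimal (fun z hz => hz.1.le) ?_
      exact isClosed_le continuous_const Complex.continuous_re
    intro z hz
    have hz1 := hcl hz
    refine DifferentiableAt.differentiableWithinAt ?_
    refine (h.diff z).div (by fun_prop) ?_
    have := hne z hz1
    intro h0
    rw [pow_eq_zero_iff (by norm_num)] at h0
    rw [h0, norm_zero] at this
    norm_num at this
  · refine ⟨0, by positivity, 0, ?_⟩
    refine Asymptotics.IsBigO.of_bound (16 * C) ?_
    rw [Filter.eventually_inf_principal]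
    refine Filter.Eventually.of_forall fun z hz => ?_
    have h3 := hC z hz.1.le hz.2.le
    have h4 := hne z hz.1.le
    have h5 : 1 + ‖z‖ ≤ 4 * ‖z + 2‖ := by
      have : ‖z‖ ≤ ‖z + 2‖ + ‖(2 : ℂ)‖ := by
        calc ‖z‖ = ‖(z + 2) - 2‖ := by ring_nf
          _ ≤ _ := norm_sub_le _ _
      have h6 : ‖(2 : ℂ)‖ = 2 := by simp
      linarith
    simp only [zero_mul, Real.exp_zero, norm_one, mul_one]
    rw [norm_div, norm_pow, div_le_iff₀ (by positivity)]
    calc ‖X z‖ ≤ C * (1 + ‖z‖) ^ 2 := h3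
      _ ≤ C * (4 * ‖z + 2‖) ^ 2 := by gcongr
      _ = 16 * C * ‖z + 2‖ ^ 2 := by ring
  · intro z hz
    obtain ⟨w, hw, hfe⟩ := h.fe
    have h3 := hfe z
    have h4 : ‖X z‖ = ‖X (1 - (starRingEnd ℂ) z)‖ := by
      rw [h3, norm_mul, hw, one_mul, RCLike.norm_conj]
    have h5 := h2 (1 - (starRingEnd ℂ) z) (by simp [hz]; norm_num)
    have h6 := hne z hz.ge
    rw [norm_div, norm_pow, div_le_iff₀ (by positivity), h4]
    refine h5.trans ?_
    have h7 : ‖1 - (starRingEnd ℂ) z + 2‖ ^ 2 ≤ 16 * ‖z + 2‖ ^ 2 := by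
      rw [← Complex.normSq_eq_norm_sq, ← Complex.normSq_eq_norm_sq, Complex.normSq_apply,
        Complex.normSq_apply]
      simp only [Complex.add_re, Complex.add_im, Complex.sub_re, Complex.sub_im, Complex.re_ofNat,
          Complex.im_ofNat, Complex.one_re, Complex.one_im, Complex.conj_re, Complex.conj_im, hz]
      nlinarith [sq_nonneg z.im]
    calc R * E * ‖1 - (starRingEnd ℂ) z + 2‖ ^ 2 ≤ R * E * (16 * ‖z + 2‖ ^ 2) := by gcongr
      _ = _ := by ring
  · intro z hz
    have h5 := h2 z hz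
    have h6 := hne z (by rw [hz]; norm_num)
    rw [norm_div, norm_pow, div_le_iff₀ (by positivity)]
    refine h5.trans ?_
    have : 0 ≤ R * E * ‖z + 2‖ ^ 2 := by positivity
    nlinarith

/-- the zeta function times `s - 1` -/
theorem zeta_data (d : ℕ) : ∃ K : ℝ, 1 ≤ K ∧ ∀ (F : Type) [Field F] [NumberField F],
    Module.finrank ℚ F ≤ d → ∃ Y : ℂ → ℂ, (∀ s : ℂ, 0 < s.re → DifferentiableAt ℂ Y s) ∧
      (∀ s : ℂ, 1 < s.re → Y s = (s - 1) * LI (triv F) s) ∧
      ∀ δ : ℝ, 0 < δ → ∀ s : ℂ, δ ≤ s.re → s.re ≤ 2 →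
        ‖Y s‖ ≤ K / δ * (((discr F).natAbs : ℕ) : ℝ) * Real.exp ((2 * d + 2) * |s.im|) := by
  obtain ⟨F0, hF00, hF0⟩ := xi_bound
  refine ⟨256 * Real.exp (d * F0) * 20 ^ d, ?_, ?_⟩
  · have h1 : 1 ≤ Real.exp (d * F0) := Real.one_le_exp (by positivity)
    have h2 : (1 : ℝ) ≤ 20 ^ d := one_le_pow₀ (by norm_num)
    nlinarith
  intro F _ _ hd
  obtain ⟨X, hX⟩ := exists_xi F
  have h : IsXi F X := hX
  set R : ℝ := (((discr F).natAbs : ℕ) : ℝ) with hR
  have hR1 : 1 ≤ R := h.one_le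
  have hR0 : 0 < R := by linarith
  have hRc : (R : ℂ) ≠ 0 := by exact_mod_cast hR0.ne'
  have hex : ∀ φ : F →+* ℂ, ex (fun _ : InfinitePlace F => 0) φ = 0 ∨
      ex (fun _ : InfinitePlace F => 0) φ = 1 := by
    intro φ
    unfold ex
    split_ifs
    · exact Or.inl rfl
    · exact Or.inl rfl
    · exact Or.inr rfl
  have hex2 : ∀ (φ : F →+* ℂ) (s : ℂ), (s + ex (fun _ : InfinitePlace F => 0) φ).im = s.im ∧
      s.re ≤ (s + ex (fun _ : InfinitePlace F => 0) φ).re ∧
      (s + ex (fun _ : InfinitePlace F => 0) φ).re ≤ s.re + 1 := by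
    intro φ s
    rcases hex φ with h1 | h1 <;> rw [h1] <;> simp
  refine ⟨fun s => X s * s⁻¹ * ((R : ℂ) ^ (-(s / 2)) *
    ∏ φ : F →+* ℂ, (Complex.Gammaℝ (s + ex (fun _ : InfinitePlace F => 0) φ))⁻¹), ?_, ?_, ?_⟩
  · intro s hs
    have hs0 : s ≠ 0 := by rintro rfl; simp at hs
    have h3 : DifferentiableAt ℂ (fun s : ℂ => (R : ℂ) ^ (-(s / 2))) s :=
      DifferentiableAt.const_cpow (by fun_prop) (Or.inl hRc)
    have h4 : DifferentiableAt ℂ (fun s : ℂ =>
        ∏ φ : F →+* ℂ, (Complex.Gammaℝ (s + ex (fun _ : InfinitePlace F => 0) φ))⁻¹) s := by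
      refine DifferentiableAt.fun_finsetProd fun φ _ => ?_
      exact (Complex.differentiable_Gammaℝ_inv.comp
        (differentiable_id.add_const ((ex (fun _ : InfinitePlace F => 0) φ : ℕ) : ℂ))) s
    exact ((h.diff s).mul (differentiableAt_inv hs0)).mul (h3.mul h4)
  · intro s hs
    have hs0 : s ≠ 0 := by rintro rfl; norm_num at hs
    have h1 := h.eq s hs
    rw [pow_one, ← hR] at h1
    simp only
    rw [h1, Complex.cpow_neg]
    have h3 : (R : ℂ) ^ (s / 2) ≠ 0 := by
      rw [Ne, Complex.cpow_eq_zero_iff]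
      exact fun h4 => hRc h4.1
    have h5 : ∀ φ : F →+* ℂ, Complex.Gammaℝ (s + ex (fun _ : InfinitePlace F => 0) φ) ≠ 0 := by
      intro φ
      refine Complex.Gammaℝ_ne_zero_of_re_pos ?_
      have := (hex2 φ s).2.1
      linarith
    rw [Finset.prod_inv_distrib]
    have h6 : ∏ φ : F →+* ℂ, Complex.Gammaℝ (s + ex (fun _ : InfinitePlace F => 0) φ) ≠ 0 :=
      Finset.prod_ne_zero_iff.2 fun φ _ => h5 φ
    field_simp
  · intro δ hδ s hs1 hs2
    have hsre : 0 < s.re := lt_of_lt_of_le hδ hs1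
    simp only
    rw [norm_mul, norm_mul, norm_mul, norm_inv]
    have g1 := hF0 F X h s (by linarith) hs2
    have g2 : ‖s‖⁻¹ ≤ δ⁻¹ := by
      apply inv_anti₀ hδ
      exact hs1.trans (Complex.re_le_norm s)
    have g3 : ‖(R : ℂ) ^ (-(s / 2))‖ ≤ 1 := by
      rw [Complex.norm_cpow_eq_rpow_re_of_pos hR0]
      refine Real.rpow_le_one_of_one_le_of_nonpos hR1 ?_
      have e : (-(s / 2) : ℂ) = ((-(1 / 2) : ℝ) : ℂ) * s := by push_cast; ring
      rw [e, Complex.re_ofReal_mul]
      nlinarith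
    have hc : Fintype.card (F →+* ℂ) = Module.finrank ℚ F := NumberField.Embeddings.card F ℂ
    have g4 : ‖∏ φ : F →+* ℂ, (Complex.Gammaℝ (s + ex (fun _ : InfinitePlace F => 0) φ))⁻¹‖ ≤
        (20 * Real.exp (2 * |s.im|)) ^ d := by
      rw [norm_prod]
      calc ∏ φ : F →+* ℂ, ‖(Complex.Gammaℝ (s + ex (fun _ : InfinitePlace F => 0) φ))⁻¹‖ ≤
            ∏ φ : F →+* ℂ, (20 * Real.exp (2 * |s.im|)) := by
            refine Finset.prod_le_prod (fun _ _ => norm_nonneg _) fun φ _ => ?_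
            obtain ⟨e1, e2, e3⟩ := hex2 φ s
            have := inv_gammaR (s := s + ex (fun _ : InfinitePlace F => 0) φ) (by linarith) (by linarith)
            rwa [e1] at this
        _ = (20 * Real.exp (2 * |s.im|)) ^ (Module.finrank ℚ F) := by
            rw [Finset.prod_const, Finset.card_univ, hc]
        _ ≤ _ := by
            refine pow_le_pow_right₀ ?_ hd
            have := Real.one_le_exp (show 0 ≤ 2 * |s.im| by positivity)
            linarith
    have g5 : ‖s + 2‖ ^ 2 ≤ 16 * Real.exp (2 * |s.im|) := by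
      have q1 : ‖s + 2‖ ≤ 4 + |s.im| := by
        have := Complex.norm_le_abs_re_add_abs_im (s + 2)
        simp only [Complex.add_re, Complex.add_im, Complex.re_ofNat, Complex.im_ofNat, add_zero] at this
        rw [abs_of_nonneg (by linarith : (0 : ℝ) ≤ s.re + 2)] at this
        linarith
      have q2 : 4 + |s.im| ≤ 4 * Real.exp |s.im| := by
        have := Real.add_one_le_exp |s.im|
        have := abs_nonneg s.im
        linarith
      calc ‖s + 2‖ ^ 2 ≤ (4 * Real.exp |s.im|) ^ 2 := by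
            gcongr; exact q1.trans q2
        _ = 16 * (Real.exp |s.im| * Real.exp |s.im|) := by ring
        _ = _ := by rw [← Real.exp_add]; congr 2; ring
    have g6 : Real.exp (Module.finrank ℚ F * F0) ≤ Real.exp (d * F0) := by
      refine Real.exp_le_exp.2 ?_
      have : (Module.finrank ℚ F : ℝ) ≤ d := by exact_mod_cast hd
      gcongr
    calc ‖X s‖ * ‖s‖⁻¹ * (‖(R : ℂ) ^ (-(s / 2))‖ *
          ‖∏ φ : F →+* ℂ, (Complex.Gammaℝ (s + ex (fun _ : InfinitePlace F => 0) φ))⁻¹‖) ≤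
          (16 * R * Real.exp (d * F0) * (16 * Real.exp (2 * |s.im|))) * δ⁻¹ *
            (1 * (20 * Real.exp (2 * |s.im|)) ^ d) := by
          gcongr
          refine g1.trans ?_
          gcongr
      _ = 256 * Real.exp (d * F0) * 20 ^ d / δ * R * (Real.exp (2 * |s.im|) *
            (Real.exp (2 * |s.im|)) ^ d) := by
          rw [mul_pow]
          ring
      _ = _ := by
          rw [← Real.exp_nat_mul, ← Real.exp_add]
          congr 2
          ring

end Pool.Agent.K1H79.TOS
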