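import Pool.Agent.K1H79.TOS.Many2
import Pool.Agent.K1H79.TOS.Strip

/-! # The number of the primes at which a combination does not vanish -/

set_option autoImplicit false
set_option linter.unusedSectionVars false
set_option linter.unusedVariables false

namespace Pool.Agent.K1H79.TOS

open NumberField Complex Set
open Pool.Agent.Y773 Pool.Agent.R362.Near Pool.Agent.R362.HL
open ArithmeticFunction (vonMangoldt)

theorem many_core (d k W : ℕ) : ∃ M1 M2 : ℝ, 0 < M1 ∧ 0 < M2 ∧ ∃ E : ℕ,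
    ∀ (ι : Type) [Fintype ι] (F : ι → Type) [∀ i, Field (F i)] [∀ i, NumberField (F i)]
    (a : ι → ℤ), Fintype.card ι ≤ k → (∀ i, Module.finrank ℚ (F i) ≤ d) → (∀ i, |a i| ≤ W) →
    ∑ i, a i ≠ 0 → ∀ D X : ℝ, 1 ≤ D → 1 < X → (∀ i, (((discr (F i)).natAbs : ℕ) : ℝ) ≤ D) →
    ∀ B : Finset ℕ, (∀ p : ℕ, p.Prime → (p : ℝ) ≤ X → p ∉ B → ∑ i, a i * (dg (F i) p : ℤ) = 0) →
    X ^ (1 / 32 : ℝ) ≤ D ^ E * (M1 * B.card + M2) := by
  classical
  obtain ⟨K, hK, hdata⟩ := zeta_data d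
  obtain ⟨c, hc0, hc1, hc⟩ := res_lower (K := K) (κ := 2 * d + 2) hK (by positivity) d
  obtain ⟨κ, hκ⟩ : ∃ κ : ℝ, κ = 2 * d + 2 := ⟨_, rfl⟩
  have hκ0 : 0 ≤ κ := by rw [hκ]; positivity
  rw [← hκ] at hc
  have hB := BB_one hK hκ0
  have hJ := J_nonneg (k * (κ + 1))
  have hpi := Real.pi_gt_three
  obtain ⟨S1, hS1⟩ : ∃ S1 : ℝ, S1 = ∑' n : ℕ, vonMangoldt n * (n : ℝ) ^ (-(5 / 4) : ℝ) := ⟨_, rfl⟩
  obtain ⟨S2, hS2⟩ : ∃ S2 : ℝ, S2 = ∑' n : ℕ, if n.Prime then 0 else vonMangoldt n * (n : ℝ) ^ (-(3 / 4) : ℝ) :=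
    ⟨_, rfl⟩
  have hS10 : 0 ≤ S1 := by
    rw [hS1]
    exact tsum_nonneg fun n => mul_nonneg ArithmeticFunction.vonMangoldt_nonneg (by positivity)
  have hS20 : 0 ≤ S2 := by
    rw [hS2]
    refine tsum_nonneg fun n => ?_
    split_ifs
    · exact le_rfl
    · exact mul_nonneg ArithmeticFunction.vonMangoldt_nonneg (by positivity)
  obtain ⟨V, hV⟩ : ∃ V : ℝ, V = (Real.exp 1 * BB K κ) ^ k * (Real.exp 1 * J (k * (κ + 1))) * (c⁻¹) ^ k := ⟨_, rfl⟩
  have hV0 : 0 ≤ V := by rw [hV]; positivity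
  refine ⟨V * (2 * (k * W * d)) + 1, V * (k * W * d * (S2 + S1) + 4 * k * W) + 1, by positivity,
    by positivity, k + 2 * d * k, ?_⟩
  intro ι _ F _ _ a hk hd hW ha D X hD hX hF B hBp
  have hD0 : 0 < D := by linarith
  have hX0 : 0 < X := by linarith
  choose Y hY1 hY2 hY3 using fun i => hdata (F i) (hd i)
  have hY : ∀ i, IsY K κ (F i) (Y i) := fun i => ⟨hY1 i, hY2 i, by rw [hκ]; exact hY3 i⟩
  obtain ⟨l, hl⟩ : ∃ l : ℝ, l = Real.log X / 8 := ⟨_, rfl⟩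
  have hlX : 0 < Real.log X := Real.log_pos hX
  have hl0 : 0 < l := by rw [hl]; positivity
  obtain ⟨T, hT, hmain⟩ := explicit a hK hκ0 hD hY hF hk hW hl0.le
  obtain ⟨U, hU⟩ : ∃ U : ℝ, U = (Real.exp 1 * (BB K κ * D)) ^ k * (Real.exp 1 * J (k * (κ + 1))) := ⟨_, rfl⟩
  have hU0 : 0 ≤ U := by rw [hU]; positivity
  rw [← hU] at hmain
  have hZ := fun l => ZZ_le hK hκ0 hD hY hF hk l
  rw [← hU] at hZ
  -- the sum
  obtain ⟨g, hg⟩ : ∃ g : ℕ → ℝ, g = fun n => k * W * d * U * Real.exp (-(l / 4)) *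
      ((if n ∈ B then 2 else 0) + (if n.Prime then 0 else vonMangoldt n * (n : ℝ) ^ (-(3 / 4) : ℝ)) +
        vonMangoldt n * (n : ℝ) ^ (-(5 / 4) : ℝ)) := ⟨_, rfl⟩
  have hgs : HasSum g (k * W * d * U * Real.exp (-(l / 4)) * (2 * B.card + S2 + S1)) := by
    rw [hg]
    refine HasSum.mul_left _ ((HasSum.add ?_ ?_).add ?_)
    · have h1 : HasSum (fun n : ℕ => if n ∈ B then (2 : ℝ) else 0) (∑ n ∈ B, if n ∈ B then (2 : ℝ) else 0) :=
        hasSum_sum_of_ne_finset_zero (fun n hn => if_neg hn)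
      rw [Finset.sum_congr rfl (g := fun _ => (2 : ℝ)) (fun n hn => if_pos hn), Finset.sum_const,
        nsmul_eq_mul, mul_comm] at h1
      exact h1
    · rw [hS2]; exact sum_two.hasSum
    · rw [hS1]; exact sum_one.hasSum
  have hterm : ∀ n : ℕ, ‖co a F n * ((n : ℂ)⁻¹ * ZZ Y (l - Real.log n))‖ ≤ g n := by
    intro n
    have hΛ : 0 ≤ vonMangoldt n := ArithmeticFunction.vonMangoldt_nonneg
    have hc := co_le a F hk hW hd n
    have hr1 : 0 ≤ (if n ∈ B then (2 : ℝ) else 0) := by split_ifs <;> norm_num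
    have hr2 : 0 ≤ (if n.Prime then (0 : ℝ) else vonMangoldt n * (n : ℝ) ^ (-(3 / 4) : ℝ)) := by
      split_ifs
      · exact le_rfl
      · positivity
    have hr3 : 0 ≤ vonMangoldt n * (n : ℝ) ^ (-(5 / 4) : ℝ) := by positivity
    have hconst : 0 ≤ k * W * d * U * Real.exp (-(l / 4)) := by positivity
    rcases Nat.eq_zero_or_pos n with h0 | h0
    · rw [h0]
      rw [h0] at hc
      simp only [ArithmeticFunction.map_zero, mul_zero] at hc
      have h3 : co a F 0 = 0 := norm_le_zero_iff.1 hc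
      rw [h3, zero_mul, norm_zero, ← h0, hg]
      exact mul_nonneg hconst (by positivity)
    have hnr : (0 : ℝ) < n := by exact_mod_cast h0
    have hn1 : (1 : ℝ) ≤ n := by exact_mod_cast h0
    have hinv : ‖(n : ℂ)⁻¹‖ = (n : ℝ)⁻¹ := by rw [norm_inv, Complex.norm_natCast]
    have hen : Real.exp (Real.log n) = n := Real.exp_log hnr
    -- the two bounds
    have hb1 : ‖co a F n * ((n : ℂ)⁻¹ * ZZ Y (l - Real.log n))‖ ≤
        k * W * d * U * Real.exp (-(l / 4)) * (vonMangoldt n * (n : ℝ) ^ (-(3 / 4) : ℝ)) := by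
      rw [norm_mul, norm_mul, hinv]
      have e1 : (n : ℝ)⁻¹ * Real.exp (-((l - Real.log n) / 4)) = Real.exp (-(l / 4)) * (n : ℝ) ^ (-(3 / 4) : ℝ) := by
        rw [Real.rpow_def_of_pos hnr, ← Real.exp_add]
        have : (n : ℝ)⁻¹ = Real.exp (-Real.log n) := by rw [Real.exp_neg, hen]
        rw [this, ← Real.exp_add]
        congr 1
        ring
      calc ‖co a F n‖ * ((n : ℝ)⁻¹ * ‖ZZ Y (l - Real.log n)‖) ≤ (k * W * d * vonMangoldt n) *
            ((n : ℝ)⁻¹ * (U * Real.exp (-((l - Real.log n) / 4)))) := by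
            gcongr
            exact (hZ _).2
        _ = (k * W * d * vonMangoldt n) * (U * ((n : ℝ)⁻¹ * Real.exp (-((l - Real.log n) / 4)))) := by ring
        _ = _ := by rw [e1]; ring
    have hb2 : X < n → ‖co a F n * ((n : ℂ)⁻¹ * ZZ Y (l - Real.log n))‖ ≤
        k * W * d * U * Real.exp (-(l / 4)) * (vonMangoldt n * (n : ℝ) ^ (-(5 / 4) : ℝ)) := by
      intro hXn
      rw [norm_mul, norm_mul, hinv]
      have hlog : 8 * l ≤ Real.log n := by
        rw [hl]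
        have := Real.log_le_log hX0 hXn.le
        linarith
      have e1 : (n : ℝ)⁻¹ * Real.exp ((l - Real.log n) / 2) ≤ Real.exp (-(l / 4)) * (n : ℝ) ^ (-(5 / 4) : ℝ) := by
        rw [Real.rpow_def_of_pos hnr, ← Real.exp_add]
        have : (n : ℝ)⁻¹ = Real.exp (-Real.log n) := by rw [Real.exp_neg, hen]
        rw [this, ← Real.exp_add]
        refine Real.exp_le_exp.2 ?_
        linarith
      calc ‖co a F n‖ * ((n : ℝ)⁻¹ * ‖ZZ Y (l - Real.log n)‖) ≤ (k * W * d * vonMangoldt n) *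
            ((n : ℝ)⁻¹ * (U * Real.exp ((l - Real.log n) / 2))) := by
            gcongr
            exact (hZ _).1
        _ = (k * W * d * vonMangoldt n * U) * ((n : ℝ)⁻¹ * Real.exp ((l - Real.log n) / 2)) := by ring
        _ ≤ (k * W * d * vonMangoldt n * U) * (Real.exp (-(l / 4)) * (n : ℝ) ^ (-(5 / 4) : ℝ)) := by gcongr
        _ = _ := by ring
    rw [hg]
    simp only
    by_cases hp : n.Prime
    · rw [if_pos hp]
      by_cases hnX : X < n
      · refine (hb2 hnX).trans (mul_le_mul_of_nonneg_left ?_ hconst)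
        linarith
      · push Not at hnX
        by_cases hnB : n ∈ B
        · rw [if_pos hnB]
          refine hb1.trans (mul_le_mul_of_nonneg_left ?_ hconst)
          have h4 : vonMangoldt n * (n : ℝ) ^ (-(3 / 4) : ℝ) ≤ 2 := by
            have h5 := (ArithmeticFunction.vonMangoldt_le_log (n := n)).trans
              (log_le n (ε := 3 / 4) (by norm_num))
            calc vonMangoldt n * (n : ℝ) ^ (-(3 / 4) : ℝ) ≤ (n : ℝ) ^ (3 / 4 : ℝ) / (3 / 4) *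
                  (n : ℝ) ^ (-(3 / 4) : ℝ) := by gcongr
              _ = (4 / 3) * ((n : ℝ) ^ (3 / 4 : ℝ) * (n : ℝ) ^ (-(3 / 4) : ℝ)) := by ring
              _ = 4 / 3 := by
                  rw [← Real.rpow_add hnr]
                  norm_num
              _ ≤ 2 := by norm_num
          linarith
        · rw [co_prime a F hp, hBp n hp hnX hnB]
          simp only [Int.cast_zero, zero_mul, norm_zero]
          exact mul_nonneg hconst (by positivity)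
    · rw [if_neg hp] at hr2 ⊢
      refine hb1.trans (mul_le_mul_of_nonneg_left ?_ hconst)
      linarith
  have hTn : ‖T‖ ≤ k * W * d * U * Real.exp (-(l / 4)) * (2 * B.card + S2 + S1) := by
    rw [← hT.tsum_eq]
    exact tsum_of_norm_bounded hgs hterm
  -- the lower bound
  have hlow : (c * (D ^ (2 * d))⁻¹) ^ k ≤ ‖(∑ i, (a i : ℂ))‖ * ∏ i, ‖Y i 1‖ := by
    have h1 : 1 ≤ ‖(∑ i, (a i : ℂ))‖ := by
      have e : (∑ i, (a i : ℂ)) = ((∑ i, a i : ℤ) : ℂ) := by push_cast; rfl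
      rw [e, Complex.norm_intCast]
      exact_mod_cast Int.one_le_abs ha
    have hx0 : 0 < c * (D ^ (2 * d))⁻¹ := by positivity
    have hx1 : c * (D ^ (2 * d))⁻¹ ≤ 1 := by
      have : (D ^ (2 * d))⁻¹ ≤ 1 := inv_le_one_of_one_le₀ (one_le_pow₀ hD)
      calc c * (D ^ (2 * d))⁻¹ ≤ 1 * 1 := by gcongr
        _ = 1 := one_mul 1
    have h2 : ∀ i, c * (D ^ (2 * d))⁻¹ ≤ ‖Y i 1‖ := by
      intro i
      refine le_trans ?_ (hc (F i) (hd i) (Y i) (hY i))
      have h3 := hF i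
      have h4 : (0 : ℝ) < ((discr (F i)).natAbs : ℕ) := by
        exact_mod_cast Nat.pos_of_ne_zero (Int.natAbs_ne_zero.2 (discr_ne_zero (F i)))
      gcongr
    calc (c * (D ^ (2 * d))⁻¹) ^ k ≤ (c * (D ^ (2 * d))⁻¹) ^ Fintype.card ι :=
          pow_le_pow_of_le_one hx0.le hx1 hk
      _ = ∏ _i : ι, (c * (D ^ (2 * d))⁻¹) := by rw [Finset.prod_const, Finset.card_univ]
      _ ≤ ∏ i, ‖Y i 1‖ := Finset.prod_le_prod (fun _ _ => hx0.le) fun i _ => h2 i
      _ ≤ _ := le_mul_of_one_le_left (Finset.prod_nonneg fun _ _ => norm_nonneg _) h1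
  have hfin : (c * (D ^ (2 * d))⁻¹) ^ k ≤ U * Real.exp (-(l / 4)) *
      (k * W * d * (2 * B.card + S2 + S1) + 4 * k * W) := by
    have h1 : (c * (D ^ (2 * d))⁻¹) ^ k ≤ 2 * Real.pi * (‖(∑ i, (a i : ℂ))‖ * ∏ i, ‖Y i 1‖) := by
      refine hlow.trans (le_mul_of_one_le_left ?_ (by linarith))
      exact mul_nonneg (norm_nonneg _) (Finset.prod_nonneg fun _ _ => norm_nonneg _)
    linarith
  -- the powers
  have hXe : X ^ (1 / 32 : ℝ) = Real.exp (l / 4) := by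
    rw [Real.rpow_def_of_pos hX0, hl]
    congr 1
    ring
  have he : Real.exp (l / 4) * Real.exp (-(l / 4)) = 1 := by
    rw [← Real.exp_add, add_neg_cancel, Real.exp_zero]
  have hUV : U * (c⁻¹ * D ^ (2 * d)) ^ k = D ^ (k + 2 * d * k) * V := by
    rw [hU, hV, ← mul_assoc (Real.exp 1) (BB K κ) D, mul_pow (Real.exp 1 * BB K κ) D k, mul_pow c⁻¹,
      ← pow_mul D, pow_add]
    ring
  have hcD : (c⁻¹ * D ^ (2 * d)) ^ k * (c * (D ^ (2 * d))⁻¹) ^ k = 1 := by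
    rw [← mul_pow]
    have : c⁻¹ * D ^ (2 * d) * (c * (D ^ (2 * d))⁻¹) = 1 := by field_simp
    rw [this, one_pow]
  have hDE : 0 ≤ D ^ (k + 2 * d * k) := by positivity
  rw [hXe]
  calc Real.exp (l / 4) = Real.exp (l / 4) * ((c⁻¹ * D ^ (2 * d)) ^ k * (c * (D ^ (2 * d))⁻¹) ^ k) := by
        rw [hcD, mul_one]
    _ ≤ Real.exp (l / 4) * ((c⁻¹ * D ^ (2 * d)) ^ k * (U * Real.exp (-(l / 4)) *
      (k * W * d * (2 * B.card + S2 + S1) + 4 * k * W))) := by gcongr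
    _ = (Real.exp (l / 4) * Real.exp (-(l / 4))) * (U * (c⁻¹ * D ^ (2 * d)) ^ k) *
      (k * W * d * (2 * B.card + S2 + S1) + 4 * k * W) := by ring
    _ = D ^ (k + 2 * d * k) * (V * (k * W * d * (2 * B.card + S2 + S1) + 4 * k * W)) := by
        rw [he, hUV]; ring
    _ ≤ _ := by
        refine mul_le_mul_of_nonneg_left ?_ hDE
        have : (0 : ℝ) ≤ B.card := Nat.cast_nonneg _
        nlinarith

/-- **Many primes.** -/
theorem many_rel (d k W : ℕ) : ∃ A : ℝ, 1 ≤ A ∧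
    ∀ (ι : Type) [Fintype ι] (F : ι → Type) [∀ i, Field (F i)] [∀ i, NumberField (F i)]
    (a : ι → ℤ), Fintype.card ι ≤ k → (∀ i, Module.finrank ℚ (F i) ≤ d) → (∀ i, |a i| ≤ W) →
    ∑ i, a i ≠ 0 → ∀ D X : ℝ, 1 ≤ D → (∀ i, (((discr (F i)).natAbs : ℕ) : ℝ) ≤ D) →
    1 < X → A * (1 + Real.log D) ≤ Real.log X →
    ∀ B : Finset ℕ, (∀ p : ℕ, p.Prime → (p : ℝ) ≤ X → p ∉ B → ∑ i, a i * (dg (F i) p : ℤ) = 0) →
    X ^ (1 / 64 : ℝ) ≤ B.card := by
  obtain ⟨M1, M2, hM1, hM2, E, h⟩ := many_core d k W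
  obtain ⟨Q, hQ⟩ : ∃ Q : ℝ, Q = M1 + M2 + 1 := ⟨_, rfl⟩
  obtain ⟨Q', hQ'⟩ : ∃ Q' : ℝ, Q' = Real.log ((M1 + M2 + 1) / min 1 M1) := ⟨_, rfl⟩
  refine ⟨64 * (E + |Q'|) + 1, by have := abs_nonneg Q'; nlinarith [Nat.cast_nonneg (α := ℝ) E], ?_⟩
  intro ι _ F _ _ a hk hd hW ha D X hD hF hX hXA B hBp
  have hX0 : 0 < X := by linarith
  have hD0 : 0 < D := by linarith
  have h1 := h ι F a hk hd hW ha D X hD hX hF B hBp
  have hlD : 0 ≤ Real.log D := Real.log_nonneg hD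
  have hE0 : (0 : ℝ) ≤ E := Nat.cast_nonneg _
  have hQ'0 := abs_nonneg Q'
  have hX64 : 1 ≤ X ^ (1 / 64 : ℝ) := Real.one_le_rpow hX.le (by norm_num)
  have hmin : 0 < min 1 M1 := lt_min one_pos hM1
  have h2 : D ^ E * ((M1 + M2 + 1) / min 1 M1) ≤ X ^ (1 / 64 : ℝ) := by
    have h3 : 0 < (M1 + M2 + 1) / min 1 M1 := by positivity
    rw [← Real.log_le_log_iff (by positivity) (by positivity), Real.log_mul (by positivity) h3.ne',
      Real.log_pow, Real.log_rpow hX0, ← hQ']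
    have h4 := le_abs_self Q'
    nlinarith
  have h5 : X ^ (1 / 32 : ℝ) = X ^ (1 / 64 : ℝ) * X ^ (1 / 64 : ℝ) := by
    rw [← Real.rpow_add hX0]
    norm_num
  by_contra hcon
  push Not at hcon
  have h6 : M1 * B.card + M2 < (M1 + M2 + 1) * X ^ (1 / 64 : ℝ) := by nlinarith
  have h7 : (M1 + M2 + 1) ≤ (M1 + M2 + 1) / min 1 M1 := by
    rw [le_div_iff₀ hmin]
    have : min 1 M1 ≤ 1 := min_le_left _ _
    nlinarith
  have hDE : 0 < D ^ E := by positivity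
  have h8 : D ^ E * (M1 * B.card + M2) < X ^ (1 / 64 : ℝ) * X ^ (1 / 64 : ℝ) := by
    calc D ^ E * (M1 * B.card + M2) < D ^ E * ((M1 + M2 + 1) * X ^ (1 / 64 : ℝ)) := by gcongr
      _ = (D ^ E * (M1 + M2 + 1)) * X ^ (1 / 64 : ℝ) := by ring
      _ ≤ (D ^ E * ((M1 + M2 + 1) / min 1 M1)) * X ^ (1 / 64 : ℝ) := by gcongr
      _ ≤ _ := by gcongr
  rw [← h5] at h8
  linarith

end Pool.Agent.K1H79.TOS
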