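import Pool.Agent.K1H79.TOS.Clos

/-! # Square discriminants: no element of the Galois group permutes the embeddings cyclically -/

set_option autoImplicit false
set_option linter.unusedSectionVars false
set_option linter.unusedVariables false

namespace Pool.Agent.K1H79.TOS

open NumberField

section

theorem sign_cycle {S : Type} [Fintype S] [DecidableEq S] (hS : Even (Fintype.card S)) (h2 : 1 < Fintype.card S)
    (π : Equiv.Perm S) (hπ : ∀ a b : S, ∃ k : ℤ, b = (π ^ k) a) : Equiv.Perm.sign π = -1 := by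
  have hnt : Nontrivial S := Fintype.one_lt_card_iff_nontrivial.1 h2
  have hmove : ∀ a, π a ≠ a := by
    intro a ha
    obtain ⟨b, hb⟩ := exists_ne a
    obtain ⟨k, hk⟩ := hπ a b
    apply hb
    rw [hk]
    exact Equiv.Perm.zpow_apply_eq_self_of_apply_eq_self ha k
  have hc : π.IsCycle := by
    obtain ⟨a, -⟩ := exists_pair_ne S
    refine ⟨a, hmove a, fun b _ => ?_⟩
    obtain ⟨k, hk⟩ := hπ a b
    exact ⟨k, hk.symm⟩
  have hsupp : π.support = Finset.univ := by
    ext a
    simp [hmove a]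
  rw [hc.sign, hsupp, Finset.card_univ, hS.neg_one_pow]

variable {L N : Type} [Field L] [NumberField L] [Field N] [NumberField N] [Algebra L N] [IsGalois ℚ N]

theorem no_cycle (h2 : 1 < Module.finrank ℚ L) (heven : Even (Module.finrank ℚ L)) (hsq : IsSquare (discr L)) (σ : Gal(N/ℚ)) :
    ∃ a b : Gal(N/ℚ) ⧸ HH L N, ∀ k : ℤ, b ≠ σ ^ k • a := by
  classical
  by_contra hcon
  push Not at hcon
  let S := Gal(N/ℚ) ⧸ HH L N
  have : Fintype S := Fintype.ofFinite _
  have hcard : Fintype.card S = Module.finrank ℚ L := by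
    rw [← Nat.card_eq_fintype_card]
    exact card_quot
  obtain ⟨e0⟩ : Nonempty (Module.Free.ChooseBasisIndex ℤ (𝓞 L) ≃ S) := by
    refine ⟨Fintype.equivOfCardEq ?_⟩
    rw [hcard, ← Module.finrank_eq_card_chooseBasisIndex, RingOfIntegers.rank]
  obtain ⟨b, hb⟩ : ∃ b : Module.Basis S ℚ L, b = (integralBasis L).reindex e0 := ⟨_, rfl⟩
  obtain ⟨A, hA⟩ : ∃ A : Matrix S S N, ∀ i a, A i a = (Quotient.out a : Gal(N/ℚ)) (algebraMap L N (b i)) :=
    ⟨Matrix.of fun i a => (Quotient.out a : Gal(N/ℚ)) (algebraMap L N (b i)), fun _ _ => rfl⟩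
  obtain ⟨j0⟩ : Nonempty (N →+* ℂ) := inferInstance
  obtain ⟨j, hj⟩ : ∃ j : N →ₐ[ℚ] ℂ, ∀ x, j x = j0 x := ⟨j0.toRatAlgHom, fun _ => rfl⟩
  -- the embeddings
  have hmk : ∀ a : S, ((Quotient.out a : Gal(N/ℚ)) : S) = a := fun a => Quotient.out_eq a
  have hbij : Function.Bijective (fun a : S => j.comp (emb L (Quotient.out a : Gal(N/ℚ)))) := by
    rw [Fintype.bijective_iff_injective_and_card]
    refine ⟨fun a a' haa' => ?_, ?_⟩
    · rw [← hmk a, ← hmk a', QuotientGroup.eq, mem_HH]
      intro x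
      have h1 : j ((Quotient.out a : Gal(N/ℚ)) (algebraMap L N x)) =
          j ((Quotient.out a' : Gal(N/ℚ)) (algebraMap L N x)) := congrArg (fun f : L →ₐ[ℚ] ℂ => f x) haa'
      have h2 := j.injective h1
      rw [AlgEquiv.mul_apply, ← h2, ← AlgEquiv.mul_apply, inv_mul_cancel]
      rfl
    · rw [hcard, AlgHom.card]
  let e : S ≃ (L →ₐ[ℚ] ℂ) := Equiv.ofBijective _ hbij
  have h3 := Algebra.discr_eq_det_embeddingsMatrixReindex_pow_two ℚ ℂ (⇑b) e
  have h4 : Algebra.embeddingsMatrixReindex ℚ ℂ b e = j.toRingHom.mapMatrix A := by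
    ext i a
    rw [RingHom.mapMatrix_apply, Matrix.map_apply, hA]
    rfl
  have h5 : Algebra.discr ℚ b = (discr L : ℚ) := by
    rw [hb, Module.Basis.coe_reindex, Algebra.discr_reindex, coe_discr]
  rw [h4, h5, ← RingHom.map_det] at h3
  have h6 : A.det ^ 2 = (discr L : N) := by
    apply j.injective
    rw [map_pow, map_intCast]
    have : (algebraMap ℚ ℂ) ((discr L : ℤ) : ℚ) = ((discr L : ℤ) : ℂ) := by simp
    rw [this] at h3
    exact h3.symm
  obtain ⟨s, hs⟩ := hsq
  rw [hs] at h6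
  have h7 : σ A.det = A.det := by
    have h8 : (A.det - s) * (A.det + s) = 0 := by
      push_cast at h6
      linear_combination h6
    rcases mul_eq_zero.1 h8 with h9 | h9
    · rw [sub_eq_zero.1 h9, map_intCast]
    · rw [eq_neg_of_add_eq_zero_left h9, map_neg, map_intCast]
  -- the permutation
  obtain ⟨π, hπ⟩ : ∃ π : Equiv.Perm S, ∀ a, π a = σ • a := ⟨MulAction.toPerm σ, fun _ => rfl⟩
  have hπz : ∀ (k : ℤ) (a : S), (π ^ k) a = σ ^ k • a := by
    have hπe : π = MulAction.toPermHom Gal(N/ℚ) S σ := Equiv.ext fun a => hπ a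
    intro k a
    rw [hπe, ← map_zpow]
    rfl
  have hsign := sign_cycle (by rw [hcard]; exact heven) (by rw [hcard]; exact h2) π (fun a b => by
    obtain ⟨k, hk⟩ := hcon a b
    exact ⟨k, by rw [hπz]; exact hk⟩)
  have h10 : σ.toRingEquiv.toRingHom.mapMatrix A = A.submatrix id π := by
    ext i a
    rw [RingHom.mapMatrix_apply, Matrix.map_apply, Matrix.submatrix_apply, hA, hA, id, hπ]
    show σ ((Quotient.out a : Gal(N/ℚ)) (algebraMap L N (b i))) = _
    have h11 : ((σ * (Quotient.out a : Gal(N/ℚ)) : Gal(N/ℚ)) : S) = ((Quotient.out (σ • a) : Gal(N/ℚ)) : S) := by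
      rw [hmk (σ • a)]
      conv_rhs => rw [← hmk a]
      rfl
    rw [QuotientGroup.eq, mem_HH] at h11
    have h12 := h11 (b i)
    have h13 := congrArg (fun z => (σ * (Quotient.out a : Gal(N/ℚ))) z) h12
    rw [← AlgEquiv.mul_apply, mul_inv_cancel_left] at h13
    rw [h13]
    rfl
  have h14 : σ A.det = -A.det := by
    have h15 := RingHom.map_det σ.toRingEquiv.toRingHom A
    rw [h10, Matrix.det_permute', hsign] at h15
    have h16 : σ.toRingEquiv.toRingHom A.det = σ A.det := rfl
    rw [h16] at h15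
    rw [h15]
    push_cast
    ring
  have h17 : A.det = 0 := by
    rw [h7] at h14
    have : (2 : N) * A.det = 0 := by linear_combination h14
    rcases mul_eq_zero.1 this with h | h
    · exact absurd h two_ne_zero
    · exact h
  rw [h17] at h6
  apply discr_ne_zero L
  rw [hs]
  have h18 : ((s * s : ℤ) : N) = 0 := by rw [← h6]; ring
  exact_mod_cast h18

end

end Pool.Agent.K1H79.TOS
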