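import Pool.Agent.K1H79.TOS.Prim
import Pool.Agent.K1H79.TOS.Sq
import Pool.Agent.K1H79.TOS.Final2

/-! # The final statement -/

set_option autoImplicit false

namespace Pool.Agent.K1H79.TOS

open NumberField

theorem isg_bot (L : Type) [Field L] [NumberField L] : IsGaloisGroup (⊥ : Subgroup Gal(L/ℚ)) L L where
  faithful := ⟨fun {u v} _ => Subsingleton.elim u v⟩
  commutes := by
    refine ⟨fun g x y => ?_⟩
    have hg : g = 1 := Subsingleton.elim _ _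
    rw [hg, one_smul, one_smul]
  isInvariant := ⟨fun a _ => ⟨a, rfl⟩⟩

theorem all (n l : ℕ) (hn : 2 ≤ n) (hl : 1 ≤ l) : ∃ δ C : ℝ, 0 < δ ∧ 0 < C ∧
    (∀ (L N : Type) [Field L] [NumberField L] [Field N] [NumberField N] [Algebra L N] [IsGalois ℚ N]
      [IsNormalClosure ℚ L N], Module.finrank ℚ L = n →
      (∀ M : Subgroup Gal(N/ℚ), M.Normal → M ≠ ⊥ → ∃ g : Gal(N/ℚ), ∀ x ∈ M,
        ∃ φ : L →ₐ[ℚ] N, ∃ y ∈ M, ∀ k : ℤ, ∃ v : L, y (φ v) ≠ ((g * x) ^ k) (φ v)) →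
      (Nat.card {c : ClassGroup (𝓞 L) // c ^ l = 1} : ℝ) ≤ C * |(discr L : ℝ)| ^ (1 / 2 - δ)) ∧
    (∀ (L : Type) [Field L] [NumberField L] [IsGalois ℚ L], Module.finrank ℚ L = n →
      (∀ z ∈ Subgroup.center Gal(L/ℚ), (orderOf z).Prime →
        ∃ x : Gal(L/ℚ), orderOf x = orderOf z ∧ x ∉ Subgroup.zpowers z) →
      (Nat.card {c : ClassGroup (𝓞 L) // c ^ l = 1} : ℝ) ≤ C * |(discr L : ℝ)| ^ (1 / 2 - δ)) ∧
    (∀ (L N : Type) [Field L] [NumberField L] [Field N] [NumberField N] [Algebra L N] [IsGalois ℚ N]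
      [IsNormalClosure ℚ L N], Module.finrank ℚ L = n →
      (∀ E : IntermediateField ℚ L, E = ⊥ ∨ E = ⊤) →
      (∀ σ : Gal(N/ℚ), ∃ φ ψ : L →ₐ[ℚ] N, ∀ k : ℤ, ∃ v : L, ψ v ≠ (σ ^ k) (φ v)) →
      (Nat.card {c : ClassGroup (𝓞 L) // c ^ l = 1} : ℝ) ≤ C * |(discr L : ℝ)| ^ (1 / 2 - δ)) ∧
    (∀ (L : Type) [Field L] [NumberField L], Module.finrank ℚ L = n → Even n →
      (∀ E : IntermediateField ℚ L, E = ⊥ ∨ E = ⊤) → IsSquare (discr L) →
      (Nat.card {c : ClassGroup (𝓞 L) // c ^ l = 1} : ℝ) ≤ C * |(discr L : ℝ)| ^ (1 / 2 - δ)) := by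
  have hfac : 2 ≤ n.factorial := hn.trans (Nat.self_le_factorial n)
  obtain ⟨δ, C, hδ, hC, h⟩ := final2 n l n.factorial hn hl hfac
  refine ⟨δ, C, hδ, hC, ?_, ?_, ?_, ?_⟩
  · intro L N _ _ _ _ _ _ _ hL hcond
    exact h N (HH L N) (by rw [← hL]; exact card_gal) core_bot (star_of_emb hcond) L hL
  · intro L _ _ _ hL hcond
    have := isg_bot L
    refine h L ⊥ ?_ ?_ (star_bot hcond) L hL
    · rw [IsGaloisGroup.card_eq_finrank Gal(L/ℚ) ℚ L, hL]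
      exact Nat.self_le_factorial n
    · exact Subgroup.normalCore_eq_self ⊥
  · intro L N _ _ _ _ _ _ _ hL hprim hcyc
    exact h N (HH L N) (by rw [← hL]; exact card_gal) core_bot (star_prim hprim (cyc_of_emb hcyc)) L hL
  · intro L _ _ hL hev hprim hsq
    obtain ⟨N, i1, i2, i3, i4, i5⟩ := exists_nc L
    refine h N (HH L N) (by rw [← hL]; exact card_gal) core_bot (star_prim hprim ?_) L hL
    exact no_cycle (by omega) (by rw [hL]; exact hev) hsq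

end Pool.Agent.K1H79.TOS
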