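import Pool.Agent.K1H79.TOS.Scale3
import Pool.Agent.K1H79.TOR.Final
import Pool.Agent.K1H79.TOS.Many3

/-! # The power saving for torsion in the class groups of number fields, with a small subfield -/

set_option autoImplicit false

namespace Pool.Agent.K1H79.TOS

open NumberField Pool.Agent.TH847.LS Pool.Agent.TH847.LG
open Pool.Agent.K1H79.TOR (Sm gap omega_le)

/-- the main theorem -/
theorem final3 (n l m : ℕ) (Q : ℝ) (hn2 : 2 ≤ n) (hl : 1 ≤ l) (hm2 : 2 ≤ m) (hQ : 0 ≤ Q) :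
    ∃ δ η C : ℝ, 0 < δ ∧ 0 < η ∧ 0 < C ∧
    ∀ (N : Type) [Field N] [NumberField N] [IsGalois ℚ N] (H : Subgroup Gal(N/ℚ)),
      Nat.card Gal(N/ℚ) ≤ m → H.normalCore = ⊥ → ∀ V : Subgroup Gal(N/ℚ), StarV V H →
      ∀ (L : Type) [Field L] [NumberField L] [Algebra L N] [IsGaloisGroup H L N],
        Module.finrank ℚ L = n → Sm (Q * |(discr L : ℝ)| ^ η) V →
        (Nat.card {c : ClassGroup (𝓞 L) // c ^ l = 1} : ℝ) ≤ C * |(discr L : ℝ)| ^ (1 / 2 - δ) := by
  obtain ⟨A, hA1, hA⟩ := many_rel m m m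
  have hA' : ManyR m A := hA
  have hnr : (2 : ℝ) ≤ n := by exact_mod_cast hn2
  have hmr : (2 : ℝ) ≤ m := by exact_mod_cast hm2
  have hlr : (1 : ℝ) ≤ l := by exact_mod_cast hl
  -- the parameters
  obtain ⟨c, hc⟩ : ∃ c : ℝ, c = 3 * A * m ^ 2 := ⟨_, rfl⟩
  have hc1 : 1 ≤ c := by rw [hc]; nlinarith [mul_nonneg (by linarith : (0:ℝ) ≤ A) (sq_nonneg (m:ℝ))]
  obtain ⟨b, hb⟩ : ∃ b : ℝ, b = l * (1 + c) + 2 * m + 1 := ⟨_, rfl⟩
  have hb5 : 5 ≤ b := by
    rw [hb]
    have : 0 ≤ (l : ℝ) * (1 + c) := by positivity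
    linarith
  obtain ⟨M, hM⟩ : ∃ M : ℕ, M = 2 ^ m := ⟨_, rfl⟩
  obtain ⟨η, hη⟩ : ∃ η : ℝ, η = 1 / (4 * n ^ 2 * b ^ (M + 1)) := ⟨_, rfl⟩
  have hb0 : 0 < b := by linarith
  have hη0 : 0 < η := by rw [hη]; positivity
  obtain ⟨κ, hκ⟩ : ∃ κ : ℝ, κ = η * c / 128 := ⟨_, rfl⟩
  have hκ0 : 0 < κ := by rw [hκ]; positivity
  obtain ⟨C1, hC10, hC1⟩ := Pool.Agent.Y159.PT.W_bound n hn2 κ hκ0
  -- large discriminants
  obtain ⟨D0, hD0⟩ : ∃ D0 : ℝ, ∀ D : ℝ, D0 ≤ D → 150 + (m : ℝ) ^ 2 + Q ≤ D ^ η ∧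
      (2 : ℝ) ^ (2 * n ^ 2) ≤ D ∧ Real.log D / Real.log 2 ≤ 1 / 2 * D ^ (2 * κ) := by
    have e1 : ∀ᶠ D : ℝ in Filter.atTop, 150 + (m : ℝ) ^ 2 + Q ≤ D ^ η :=
      (tendsto_rpow_atTop hη0).eventually_ge_atTop _
    have e2 : ∀ᶠ D : ℝ in Filter.atTop, (2 : ℝ) ^ (2 * n ^ 2) ≤ D := Filter.eventually_ge_atTop _
    have hl2 : 0 < Real.log 2 := Real.log_pos (by norm_num)
    have e3 : ∀ᶠ D : ℝ in Filter.atTop, Real.log D / Real.log 2 ≤ 1 / 2 * D ^ (2 * κ) := by
      have h1 := (isLittleO_log_rpow_atTop (show 0 < 2 * κ by positivity)).def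
        (show 0 < Real.log 2 / 2 by positivity)
      filter_upwards [h1, Filter.eventually_ge_atTop 1] with D h2 h3
      rw [Real.norm_of_nonneg (Real.log_nonneg h3), Real.norm_of_nonneg (by positivity)] at h2
      rw [div_le_iff₀ hl2]
      linarith
    obtain ⟨D0, hD0⟩ := Filter.eventually_atTop.1 (e1.and (e2.and e3))
    exact ⟨D0, hD0⟩
  obtain ⟨D1, hD1⟩ : ∃ D1 : ℝ, D1 = max 1 D0 := ⟨_, rfl⟩
  have hD11 : 1 ≤ D1 := by rw [hD1]; exact le_max_left _ _
  refine ⟨κ, η, 2 * (n + 1) * C1 * D1 ^ (2 * κ), hκ0, hη0, by positivity, ?_⟩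
  intro N _ _ _ H hmG hH V hS L _ _ _ _ hn hV
  have hmGr : (Nat.card Gal(N/ℚ) : ℝ) ≤ m := by exact_mod_cast hmG
  obtain ⟨D, hD⟩ : ∃ D : ℝ, D = |(discr L : ℝ)| := ⟨_, rfl⟩
  have hDn : ((discr L).natAbs : ℝ) = D := by
    rw [hD, Nat.cast_natAbs]
    push_cast
    rfl
  have hDz : (discr L).natAbs ≠ 0 := Int.natAbs_ne_zero.2 (discr_ne_zero L)
  have hD_1 : 1 ≤ D := by
    rw [← hDn]
    exact_mod_cast Nat.one_le_iff_ne_zero.2 hDz
  have hD_0 : 0 < D := by linarith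
  rw [← hD] at hV ⊢
  obtain ⟨K, hK, hW⟩ := hC1 L hn
  rw [hDn] at hW
  set W := ∑ J ∈ FI L K, (1 + Real.log ((K : ℝ) / Ideal.absNorm J)) ^ n with hWd
  set T : ℝ := (Nat.card {c : ClassGroup (𝓞 L) // c ^ l = 1} : ℝ) with hT
  have hT0 : 0 ≤ T := Nat.cast_nonneg _
  have hDpow : 1 ≤ D1 ^ (2 * κ) := Real.one_le_rpow hD11 (by positivity)
  have hDk : 0 < D ^ (1 / 2 - κ) := Real.rpow_pos_of_pos hD_0 _
  rcases lt_or_ge D D1 with hlt | hge
  · -- small discriminants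
    have h1 : T ≤ W := by
      have h2 := class_le_n hn K hK
      refine le_trans ?_ h2
      rw [hT]
      exact_mod_cast Nat.card_le_card_of_injective _ Subtype.val_injective
    have h3 : D ^ (1 / 2 + κ) ≤ D1 ^ (2 * κ) * D ^ (1 / 2 - κ) := by
      have e : D ^ (1 / 2 + κ) = D ^ (2 * κ) * D ^ (1 / 2 - κ) := by
        rw [← Real.rpow_add hD_0]
        congr 1
        ring
      rw [e]
      gcongr
    have h4 : (1 : ℝ) ≤ 2 * (n + 1) := by linarith
    calc T ≤ C1 * D ^ (1 / 2 + κ) := h1.trans hW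
      _ ≤ C1 * (D1 ^ (2 * κ) * D ^ (1 / 2 - κ)) := by gcongr
      _ ≤ 2 * (n + 1) * (C1 * (D1 ^ (2 * κ) * D ^ (1 / 2 - κ))) :=
          le_mul_of_one_le_left (by positivity) h4
      _ = _ := by ring
  · -- large discriminants
    obtain ⟨g1, g2, g3⟩ := hD0 D ((le_max_right _ _).trans (by rw [← hD1]; exact hge))
    -- the scales
    obtain ⟨S, hS'⟩ : ∃ S : ℕ → ℝ, S = fun j => D ^ (η * b ^ j) := ⟨_, rfl⟩
    have hmono : Monotone S := by
      intro i j hij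
      rw [hS']
      refine Real.rpow_le_rpow_of_exponent_le hD_1 ?_
      have : b ^ i ≤ b ^ j := pow_le_pow_right₀ (by linarith) hij
      gcongr
    obtain ⟨j, hjM, hgap⟩ := gap (L := N) (M := M) (by
      rw [hM]; exact Nat.pow_le_pow_right (by norm_num) hmG) S hmono
    obtain ⟨t, ht⟩ : ∃ t : ℝ, t = S j := ⟨_, rfl⟩
    have ht' : S (j + 1) = t ^ b := by
      rw [ht, hS']
      show D ^ (η * b ^ (j + 1)) = (D ^ (η * b ^ j)) ^ b
      rw [← Real.rpow_mul hD_0.le, pow_succ, mul_assoc]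
    rw [ht', ← ht] at hgap
    have htη : D ^ η ≤ t := by
      rw [ht, hS']
      refine Real.rpow_le_rpow_of_exponent_le hD_1 ?_
      have : 1 ≤ b ^ j := one_le_pow₀ (by linarith)
      nlinarith
    have htQ : 150 + (m : ℝ) ^ 2 + Q ≤ t := g1.trans htη
    have ht150 : 150 + (m : ℝ) ^ 2 ≤ t := by linarith
    have hm4 : (4 : ℝ) ≤ (m : ℝ) ^ 2 := by nlinarith
    have ht1 : 1 ≤ t := by linarith
    have ht0 : 0 < t := by linarith
    have hnt : (m : ℝ) + 1 ≤ t := by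
      have : (m : ℝ) ≤ (m : ℝ) ^ 2 := by nlinarith
      linarith
    have hntsq : (m : ℝ) ^ 2 + t ≤ t ^ 2 := by
      have h1 : (m : ℝ) ^ 2 ≤ t := by linarith
      have h2 : 2 * t ≤ t * t := by gcongr; linarith
      rw [sq t]
      linarith
    have hlt1 : 1 ≤ Real.log t := by
      rw [Real.le_log_iff_exp_le ht0]
      have := Real.exp_one_lt_d9
      linarith
    obtain ⟨X, hX⟩ : ∃ X : ℝ, X = t ^ c := ⟨_, rfl⟩
    have hX1 : 1 < X := by rw [hX]; exact Real.one_lt_rpow (by linarith) (by linarith)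
    have hX0 : 0 < X := by linarith
    have htsq : t ^ (2 : ℝ) ≤ t ^ b := Real.rpow_le_rpow_of_exponent_le ht1 (by linarith)
    rw [Real.rpow_two] at htsq
    have hsc := scale3 hA1 hA' hmG hH hS L hn hl (t := t) (t' := t ^ b) (X := X) ht1 ?_ ?_ ?_ hgap ?_ hX1
      ?_ ?_ K hK
    rotate_left
    · refine hV.mono ?_
      have hQt : Q ≤ t := by nlinarith
      calc Q * D ^ η ≤ t * t := by gcongr
        _ = t ^ 2 := (sq t).symm
        _ ≤ t ^ b := htsq
    · calc ((Nat.card Gal(N/ℚ) : ℕ) + 1) * t ≤ t * t := by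
            gcongr
            linarith
        _ = t ^ 2 := (sq t).symm
        _ ≤ t ^ b := htsq
    · calc ((Nat.card Gal(N/ℚ) : ℝ) ^ 2 + t) ^ Nat.card Gal(N/ℚ) ≤ ((m : ℝ) ^ 2 + t) ^ Nat.card Gal(N/ℚ) := by
            gcongr
        _ ≤ ((m : ℝ) ^ 2 + t) ^ m := pow_le_pow_right₀ (by linarith) hmG
        _ ≤ (t ^ 2) ^ m := by
            gcongr
        _ = t ^ ((2 * m : ℕ) : ℝ) := by rw [Real.rpow_natCast, pow_mul]
        _ ≤ t ^ b := by
            refine Real.rpow_le_rpow_of_exponent_le ht1 ?_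
            rw [hb]
            push_cast
            have : 0 ≤ (l : ℝ) * (1 + c) := by positivity
            linarith
    · rw [← hD]
      have h5 : t ^ b ≤ D ^ (1 / (4 * (n : ℝ) ^ 2)) := by
        rw [← ht', hS']
        refine Real.rpow_le_rpow_of_exponent_le hD_1 ?_
        have h6 : b ^ (j + 1) ≤ b ^ (M + 1) := pow_le_pow_right₀ (by linarith) (by omega)
        rw [hη]
        rw [one_div_mul_eq_div, div_le_div_iff₀ (by positivity) (by positivity), one_mul]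
        nlinarith [mul_le_mul_of_nonneg_left h6 (show (0 : ℝ) ≤ 4 * n ^ 2 by positivity)]
      have h7 : (1 : ℝ) ≤ 2 * t ^ b := by nlinarith
      calc (2 * t ^ b) ^ (n * (n - 1)) ≤ (2 * t ^ b) ^ (n ^ 2) := by
            refine pow_le_pow_right₀ h7 ?_
            rw [sq]
            exact Nat.mul_le_mul le_rfl (Nat.sub_le _ _)
        _ ≤ (2 * D ^ (1 / (4 * (n : ℝ) ^ 2))) ^ (n ^ 2) := by gcongr
        _ = 2 ^ (n ^ 2) * D ^ (1 / 4 : ℝ) := by
            rw [mul_pow, ← Real.rpow_natCast (D ^ _), ← Real.rpow_mul hD_0.le]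
            congr 2
            push_cast
            field_simp
        _ < D := by
            have h8 : (2 : ℝ) ^ (n ^ 2) ≤ D ^ (1 / 2 : ℝ) := by
              rw [← Real.sqrt_eq_rpow]
              refine Real.le_sqrt_of_sq_le ?_
              rw [← pow_mul, mul_comm]
              exact g2
            have hD1' : 1 < D := by
              have : (1 : ℝ) < 2 ^ (2 * n ^ 2) := one_lt_pow₀ (by norm_num) (by positivity)
              linarith
            calc (2 : ℝ) ^ (n ^ 2) * D ^ (1 / 4 : ℝ) ≤ D ^ (1 / 2 : ℝ) * D ^ (1 / 4 : ℝ) := by gcongr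
              _ = D ^ (3 / 4 : ℝ) := by rw [← Real.rpow_add hD_0]; norm_num
              _ < D ^ (1 : ℝ) := Real.rpow_lt_rpow_of_exponent_lt hD1' (by norm_num)
              _ = D := Real.rpow_one D
    · rw [hX, Real.log_rpow ht0, hc, Real.log_mul (by norm_num) ht0.ne']
      have hl2 : Real.log 2 ≤ Real.log t := Real.log_le_log (by norm_num) (by linarith)
      have h9 : 1 + (m : ℝ) ^ 2 * (Real.log 2 + Real.log t) ≤ 3 * (m : ℝ) ^ 2 * Real.log t := by
        nlinarith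
      calc A * (1 + (m : ℝ) ^ 2 * (Real.log 2 + Real.log t)) ≤ A * (3 * (m : ℝ) ^ 2 * Real.log t) := by
            gcongr
        _ = _ := by ring
    · rw [hX]
      have h10 : 150 * t ^ c ≤ t ^ (1 + c) := by
        rw [Real.rpow_add ht0, Real.rpow_one]
        gcongr
        linarith
      calc (150 * t ^ c) ^ l ≤ (t ^ (1 + c)) ^ l := by gcongr
        _ = t ^ ((1 + c) * (l : ℝ)) := by
            rw [← Real.rpow_natCast, ← Real.rpow_mul ht0.le]
        _ ≤ t ^ b := by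
            refine Real.rpow_le_rpow_of_exponent_le ht1 ?_
            rw [hb]
            nlinarith
    -- conclusion
    have h11 : D ^ (2 * κ) ≤ X ^ (1 / 64 : ℝ) := by
      rw [hX, ← Real.rpow_mul ht0.le]
      calc D ^ (2 * κ) = (D ^ η) ^ (c * (1 / 64)) := by
            rw [← Real.rpow_mul hD_0.le]
            congr 1
            rw [hκ]
            ring
        _ ≤ t ^ (c * (1 / 64)) := by
            refine Real.rpow_le_rpow (by positivity) htη (by positivity)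
    have h12 := omega_le hDz
    rw [hDn] at h12
    have h13 : 1 / 2 * D ^ (2 * κ) ≤ X ^ (1 / 64 : ℝ) - (discr L).natAbs.primeFactors.card := by
      linarith
    have h14 : 1 / 2 * D ^ (2 * κ) * T ≤ (n + 1) * (C1 * D ^ (1 / 2 + κ)) := by
      calc 1 / 2 * D ^ (2 * κ) * T ≤
            (X ^ (1 / 64 : ℝ) - (discr L).natAbs.primeFactors.card) * T := by gcongr
        _ ≤ (n + 1) * W := hsc
        _ ≤ _ := by gcongr
    have h15 : D ^ (1 / 2 + κ) = D ^ (2 * κ) * D ^ (1 / 2 - κ) := by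
      rw [← Real.rpow_add hD_0]
      congr 1
      ring
    rw [h15] at h14
    have h16 : 0 < D ^ (2 * κ) := Real.rpow_pos_of_pos hD_0 _
    have h17 : T ≤ 2 * (n + 1) * C1 * D ^ (1 / 2 - κ) := by
      have h18 : D ^ (2 * κ) * T ≤ D ^ (2 * κ) * (2 * (n + 1) * C1 * D ^ (1 / 2 - κ)) := by
        linarith
      exact le_of_mul_le_mul_left h18 h16
    refine h17.trans ?_
    calc 2 * (n + 1) * C1 * D ^ (1 / 2 - κ) ≤ 2 * (n + 1) * C1 * D ^ (1 / 2 - κ) * D1 ^ (2 * κ) :=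
          le_mul_of_one_le_right (by positivity) hDpow
      _ = _ := by ring

end Pool.Agent.K1H79.TOS
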