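import Pool.Agent.K1H79.TOS.Clos

/-! # Subfields of small discriminant have small generators -/

set_option autoImplicit false
set_option linter.unusedSectionVars false
set_option linter.unusedVariables false

namespace Pool.Agent.K1H79.TOS

open NumberField NumberField.mixedEmbedding NumberField.InfinitePlace MeasureTheory ENNReal
open Pool.Agent.K1H79.TOR (Sm)

theorem minkowski_le (F : Type) [Field F] [NumberField F] {m : ℕ} (hm : Module.finrank ℚ F ≤ m) :
    minkowskiBound F ↑1 < ((NNReal.sqrt ‖discr F‖₊ * 2 ^ m + 1 : NNReal) : ℝ≥0∞) := by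
  have h : NNReal.sqrt ‖discr F‖₊ * 2 ^ m < NNReal.sqrt ‖discr F‖₊ * 2 ^ m + 1 := by
    exact lt_add_of_pos_right _ one_pos
  refine lt_of_le_of_lt ?_ (ENNReal.coe_lt_coe.mpr h)
  rw [minkowskiBound, volume_fundamentalDomain_fractionalIdealLatticeBasis,
    Units.val_one, FractionalIdeal.absNorm_one, Rat.cast_one,
    ENNReal.ofReal_one, one_mul, mixedEmbedding.finrank, volume_fundamentalDomain_latticeBasis,
    ENNReal.coe_mul, ENNReal.coe_pow, ENNReal.coe_ofNat]
  have h1 : (2 : ℝ≥0∞)⁻¹ ^ nrComplexPlaces F * (NNReal.sqrt ‖discr F‖₊ : ℝ≥0∞) ≤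
      (NNReal.sqrt ‖discr F‖₊ : ℝ≥0∞) := by
    calc (2 : ℝ≥0∞)⁻¹ ^ nrComplexPlaces F * (NNReal.sqrt ‖discr F‖₊ : ℝ≥0∞) ≤
          1 * (NNReal.sqrt ‖discr F‖₊ : ℝ≥0∞) := by
          gcongr
          exact pow_le_one₀ (by positivity) (by simp)
      _ = _ := one_mul _
  have h2 : (2 : ℝ≥0∞) ^ Module.finrank ℚ F ≤ 2 ^ m := pow_le_pow_right₀ (by norm_num) hm
  exact mul_le_mul' h1 h2

theorem small_gen (F : Type) [Field F] [NumberField F] {m : ℕ} (hm : Module.finrank ℚ F ≤ m) :
    ∃ a : 𝓞 F, IntermediateField.adjoin ℚ {(a : F)} = ⊤ ∧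
      ∀ w : InfinitePlace F, w (a : F) ≤ 2 ^ (m + 2) * √|(discr F : ℝ)| := by
  obtain ⟨B, hB⟩ : ∃ B : NNReal, B = NNReal.sqrt ‖discr F‖₊ * 2 ^ m + 1 := ⟨_, rfl⟩
  have hBr : (B : ℝ) = √|(discr F : ℝ)| * 2 ^ m + 1 := by
    rw [hB]
    push_cast
    congr 2
  have h1 := minkowski_le F hm
  rw [← hB] at h1
  have hD : 1 ≤ √|(discr F : ℝ)| := by
    rw [Real.one_le_sqrt]
    have : 1 ≤ |discr F| := Int.one_le_abs (discr_ne_zero F)
    exact_mod_cast this
  have h2 : (1 : ℝ) ≤ 2 ^ m := one_le_pow₀ (by norm_num)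
  have h3 : (1 : ℝ) ≤ √|(discr F : ℝ)| * 2 ^ m := one_le_mul_of_one_le_of_one_le hD h2
  obtain ⟨w₀⟩ : Nonempty (InfinitePlace F) := inferInstance
  rcases isReal_or_isComplex w₀ with hw | hw
  · obtain ⟨a, ha1, ha2⟩ := exists_primitive_element_lt_of_isReal F hw (B := B) (by
      refine h1.trans_le ?_
      rw [← one_mul (B : ℝ≥0∞)]
      gcongr
      · exact_mod_cast one_le_convexBodyLTFactor F
      · exact (one_mul _).symm.le)
    refine ⟨a, ha1, fun w => (ha2 w).le.trans ?_⟩
    rw [NNReal.coe_max, hBr, pow_add, NNReal.coe_one]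
    refine max_le ?_ ?_
    · nlinarith
    · nlinarith
  · obtain ⟨a, ha1, ha2⟩ := exists_primitive_element_lt_of_isComplex F hw (B := B) (by
      refine h1.trans_le ?_
      rw [← one_mul (B : ℝ≥0∞)]
      gcongr
      · exact_mod_cast one_le_convexBodyLT'Factor F
      · exact (one_mul _).symm.le)
    refine ⟨a, ha1, fun w => (ha2 w).le.trans ?_⟩
    rw [pow_add]
    refine (Real.sqrt_le_left (by positivity)).2 ?_
    rw [hBr]
    nlinarith

/-- a subfield of small discriminant -/
theorem sm_of_disc {N : Type} [Field N] [NumberField N] [IsGalois ℚ N] (k : Type) [Field k] [NumberField k]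
    [Algebra k N] {m : ℕ} (hm : Module.finrank ℚ N ≤ m) :
    Sm (2 ^ (m + 2) * √|(discr k : ℝ)|) (HH k N) := by
  have hk : Module.finrank ℚ k ≤ m := by
    have h1 := Module.finrank_mul_finrank ℚ k N
    have h2 : 0 < Module.finrank k N := Module.finrank_pos
    refine le_trans ?_ hm
    rw [← h1]
    exact Nat.le_mul_of_pos_right _ h2
  obtain ⟨a, ha1, ha2⟩ := small_gen k hk
  refine ⟨algebraMap (𝓞 k) (𝓞 N) a, fun g => ?_, fun φ => ?_⟩
  · rw [mem_HH]
    constructor
    · intro hg x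
      have h3 : IntermediateField.adjoin ℚ {(a : k)} ≤
          (IntermediateField.fixedField (Subgroup.zpowers g)).comap (IsScalarTower.toAlgHom ℚ k N) := by
        rw [IntermediateField.adjoin_simple_le_iff]
        show algebraMap k N (a : k) ∈ IntermediateField.fixedField (Subgroup.zpowers g)
        rw [IntermediateField.mem_fixedField_iff]
        intro f hf
        have h5 : f ∈ MulAction.stabilizer Gal(N/ℚ) (algebraMap (𝓞 k) (𝓞 N) a) :=
          (Subgroup.zpowers_le.2 hg) hf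
        exact congrArg (fun y : 𝓞 N => (y : N)) h5
      rw [ha1] at h3
      have h5 : algebraMap k N x ∈ IntermediateField.fixedField (Subgroup.zpowers g) :=
        h3 (IntermediateField.mem_top (x := x))
      rw [IntermediateField.mem_fixedField_iff] at h5
      exact h5 g (Subgroup.mem_zpowers g)
    · intro hg
      exact RingOfIntegers.ext (hg (a : k))
  · have h1 := ha2 (InfinitePlace.mk (φ.comp (algebraMap k N)))
    rw [InfinitePlace.apply] at h1
    exact h1

end Pool.Agent.K1H79.TOS
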