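import Pool.Agent.K1H79.TOS.Sq2
import Pool.Agent.K1H79.TOS.All
import Pool.Agent.K1H79.TOS.SmallGen
import Pool.Agent.K1H79.TOS.Final3

/-! # The final statement, with a small subfield -/

set_option autoImplicit false

namespace Pool.Agent.K1H79.TOS

open NumberField
open Pool.Agent.K1H79.TOR (Sm sm_top)

theorem HH_eq {N : Type} [Field N] [NumberField N] (k : IntermediateField ℚ N) :
    HH k N = k.fixingSubgroup := by
  ext σ
  rw [mem_HH, IntermediateField.mem_fixingSubgroup_iff]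
  exact ⟨fun h x hx => h ⟨x, hx⟩, fun h x => h x.1 x.2⟩

theorem sqrt_le_rpow {a D η : ℝ} (ha : 0 ≤ a) (hD : 1 ≤ D) (hη : 0 < η) (h : a ≤ D ^ η) : √a ≤ D ^ η := by
  have h1 : 1 ≤ D ^ η := Real.one_le_rpow hD hη.le
  refine Real.sqrt_le_iff.2 ⟨by linarith, ?_⟩
  nlinarith

theorem all2 (n l : ℕ) (hn : 2 ≤ n) (hl : 1 ≤ l) : ∃ δ η C : ℝ, 0 < δ ∧ 0 < η ∧ 0 < C ∧
    (∀ (L N : Type) [Field L] [NumberField L] [Field N] [NumberField N] [Algebra L N] [IsGalois ℚ N]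
      [IsNormalClosure ℚ L N] (k : IntermediateField ℚ N), Module.finrank ℚ L = n →
      |(discr k : ℝ)| ≤ |(discr L : ℝ)| ^ η →
      (∀ M : Subgroup Gal(N/ℚ), M.Normal → M ≠ ⊥ → M ≤ k.fixingSubgroup → ∃ g : Gal(N/ℚ), ∀ x ∈ M,
        ∃ φ : L →ₐ[ℚ] N, ∃ y ∈ M, ∀ k : ℤ, ∃ v : L, y (φ v) ≠ ((g * x) ^ k) (φ v)) →
      (Nat.card {c : ClassGroup (𝓞 L) // c ^ l = 1} : ℝ) ≤ C * |(discr L : ℝ)| ^ (1 / 2 - δ)) ∧
    (∀ (L : Type) [Field L] [NumberField L] [IsGalois ℚ L], Module.finrank ℚ L = n →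
      (∀ z ∈ Subgroup.center Gal(L/ℚ), (orderOf z).Prime →
        ∃ x : Gal(L/ℚ), orderOf x = orderOf z ∧ x ∉ Subgroup.zpowers z) →
      (Nat.card {c : ClassGroup (𝓞 L) // c ^ l = 1} : ℝ) ≤ C * |(discr L : ℝ)| ^ (1 / 2 - δ)) ∧
    (∀ (L N : Type) [Field L] [NumberField L] [Field N] [NumberField N] [Algebra L N] [IsGalois ℚ N]
      [IsNormalClosure ℚ L N], Module.finrank ℚ L = n →
      (∀ E : IntermediateField ℚ L, E = ⊥ ∨ E = ⊤) →
      (∀ σ : Gal(N/ℚ), ∃ φ ψ : L →ₐ[ℚ] N, ∀ k : ℤ, ∃ v : L, ψ v ≠ (σ ^ k) (φ v)) →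
      (Nat.card {c : ClassGroup (𝓞 L) // c ^ l = 1} : ℝ) ≤ C * |(discr L : ℝ)| ^ (1 / 2 - δ)) ∧
    (∀ (L : Type) [Field L] [NumberField L], Module.finrank ℚ L = n →
      (∀ E : IntermediateField ℚ L, E = ⊥ ∨ E = ⊤) → (Even n ∨ ¬ IsSquare (discr L)) →
      (∃ d f : ℤ, discr L = d * f ^ 2 ∧ |(d : ℝ)| ≤ |(discr L : ℝ)| ^ η) →
      (Nat.card {c : ClassGroup (𝓞 L) // c ^ l = 1} : ℝ) ≤ C * |(discr L : ℝ)| ^ (1 / 2 - δ)) := by
  have hfac : 2 ≤ n.factorial := hn.trans (Nat.self_le_factorial n)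
  obtain ⟨m, hm⟩ : ∃ m : ℕ, m = n.factorial := ⟨_, rfl⟩
  rw [← hm] at hfac
  obtain ⟨δ, η, C, hδ, hη, hC, h⟩ := final3 n l m (2 ^ (m + 2)) hn hl hfac (by positivity)
  have hQ1 : (1 : ℝ) ≤ 2 ^ (m + 2) := one_le_pow₀ (by norm_num)
  have hdisc : ∀ (L : Type) [Field L] [NumberField L], 1 ≤ |(discr L : ℝ)| := by
    intro L _ _
    have h1 : 1 ≤ |discr L| := Int.one_le_abs (discr_ne_zero L)
    exact_mod_cast h1
  refine ⟨δ, η, C, hδ, hη, hC, ?_, ?_, ?_, ?_⟩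
  · intro L N _ _ _ _ _ _ _ k hL hk hcond
    have hcardN : Nat.card Gal(N/ℚ) ≤ m := by
      rw [hm, ← hL]
      exact card_gal
    refine h N (HH L N) hcardN core_bot (HH k N) ?_ L hL ?_
    · intro M hM hM0 hMV
      obtain ⟨g, hg⟩ := hcond M hM hM0 (by rw [← HH_eq]; exact hMV)
      refine ⟨g, fun x hx => ?_⟩
      obtain ⟨φ, y, hy, hφ⟩ := hg x hx
      obtain ⟨r, hr⟩ := ext_emb φ
      refine ⟨(r : Gal(N/ℚ) ⧸ HH L N), y, hy, fun j hj => ?_⟩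
      obtain ⟨v, hv⟩ := hφ j
      apply hv
      have h1 : ((y * r : Gal(N/ℚ)) : Gal(N/ℚ) ⧸ HH L N) =
        (((g * x) ^ j * r : Gal(N/ℚ)) : Gal(N/ℚ) ⧸ HH L N) := hj
      rw [QuotientGroup.eq, mem_HH] at h1
      have h2 := h1 v
      have h3 : (y * r) (((y * r)⁻¹ * ((g * x) ^ j * r)) (algebraMap L N v)) = (y * r) (algebraMap L N v) := by
        rw [h2]
      rw [← AlgEquiv.mul_apply, mul_inv_cancel_left, AlgEquiv.mul_apply, AlgEquiv.mul_apply, ← hr] at h3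
      exact h3.symm
    · refine (sm_of_disc k (m := m) ?_).mono ?_
      · rw [← IsGaloisGroup.card_eq_finrank Gal(N/ℚ) ℚ N]
        exact hcardN
      · have h5 := sqrt_le_rpow (abs_nonneg _) (hdisc L) hη hk
        gcongr
  · intro L _ _ _ hL hcond
    have := isg_bot L
    refine h L ⊥ ?_ ?_ ⊤ ((star_bot hcond).starV ⊤) L hL (sm_top ?_)
    · rw [IsGaloisGroup.card_eq_finrank Gal(L/ℚ) ℚ L, hL, hm]
      exact Nat.self_le_factorial n
    · exact Subgroup.normalCore_eq_self ⊥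
    · positivity
  · intro L N _ _ _ _ _ _ _ hL hprim hcyc
    exact h N (HH L N) (by rw [hm, ← hL]; exact card_gal) core_bot ⊤
      ((star_prim hprim (cyc_of_emb hcyc)).starV ⊤) L hL (sm_top (by positivity))
  · intro L _ _ hL hprim hev hdf
    obtain ⟨d, f, hdf, hd⟩ := hdf
    obtain ⟨N, i1, i2, i3, i4, i5⟩ := exists_nc L
    obtain ⟨V, hV1, hV2⟩ := exists_V L N hdf
    refine h N (HH L N) (by rw [hm, ← hL]; exact card_gal) core_bot V ?_ L hL (hV1.mono ?_)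
    · refine starV_sgn (by omega) hprim ?_ hV2
      rcases hev with h1 | h1
      · exact Or.inl (by rw [hL]; exact h1)
      · exact Or.inr (exists_neg L N h1)
    · have h5 := sqrt_le_rpow (abs_nonneg _) (hdisc L) hη hd
      refine h5.trans (le_mul_of_one_le_left (by positivity) hQ1)

end Pool.Agent.K1H79.TOS
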