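import Pool.Agent.K1H79.TOS.Scale2

/-! # Normal closures -/

set_option autoImplicit false
set_option linter.unusedSectionVars false
set_option linter.unusedVariables false

namespace Pool.Agent.K1H79.TOS

open NumberField IntermediateField
open scoped Pointwise

section

variable (L N : Type) [Field L] [NumberField L] [Field N] [NumberField N] [Algebra L N]

/-- the subgroup of the Galois group fixing `L` -/
noncomputable def HH : Subgroup Gal(N/ℚ) :=
  (IsScalarTower.toAlgHom ℚ L N).fieldRange.fixingSubgroup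

variable {L N}

theorem mem_HH (σ : Gal(N/ℚ)) : σ ∈ HH L N ↔ ∀ x : L, σ (algebraMap L N x) = algebraMap L N x := by
  unfold HH
  rw [IntermediateField.mem_fixingSubgroup_iff]
  constructor
  · intro h x
    exact h _ ⟨x, rfl⟩
  · rintro h _ ⟨x, rfl⟩
    exact h x

instance isg [IsGalois ℚ N] : IsGaloisGroup (HH L N) L N where
  faithful := ⟨fun {u v} h => Subtype.ext (AlgEquiv.ext fun x => h x)⟩
  commutes := by
    refine ⟨fun g x y => ?_⟩
    rw [Algebra.smul_def, Algebra.smul_def]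
    have h1 : g • (algebraMap L N x * y) = g.1 (algebraMap L N x * y) := rfl
    have h2 : g • y = g.1 y := rfl
    rw [h1, h2, map_mul, (mem_HH g.1).1 g.2]
  isInvariant := by
    refine ⟨fun a ha => ?_⟩
    have h1 : a ∈ IntermediateField.fixedField (HH L N) := by
      rw [IntermediateField.mem_fixedField_iff]
      intro f hf
      exact ha ⟨f, hf⟩
    unfold HH at h1
    rw [IsGalois.fixedField_fixingSubgroup] at h1
    obtain ⟨b, hb⟩ := h1
    exact ⟨b, hb⟩

/-- embeddings extend -/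
theorem ext_emb [IsGalois ℚ N] (φ : L →ₐ[ℚ] N) : ∃ r : Gal(N/ℚ), ∀ x : L, φ x = r (algebraMap L N x) :=
  ⟨AlgEquiv.ofBijective (φ.liftNormal N) (AlgHom.normal_bijective ℚ N N _), fun x =>
    (φ.liftNormal_commutes N x).symm⟩

/-- the embedding given by an element of the Galois group -/
noncomputable def emb (L : Type) [Field L] [NumberField L] [Algebra L N] (r : Gal(N/ℚ)) : L →ₐ[ℚ] N :=
  (r : N →ₐ[ℚ] N).comp (IsScalarTower.toAlgHom ℚ L N)

theorem emb_apply (r : Gal(N/ℚ)) (x : L) : emb L r x = r (algebraMap L N x) := rfl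

theorem core_bot [IsGalois ℚ N] [IsNormalClosure ℚ L N] : (HH L N).normalCore = ⊥ := by
  rw [eq_bot_iff]
  intro σ hσ
  have h1 : ∀ g : Gal(N/ℚ), g * σ * g⁻¹ ∈ HH L N := hσ
  have h2 : normalClosure ℚ L N ≤ IntermediateField.fixedField (Subgroup.zpowers σ) := by
    rw [normalClosure_le_iff]
    rintro φ _ ⟨x, rfl⟩
    obtain ⟨r, hr⟩ := ext_emb φ
    rw [IntermediateField.mem_fixedField_iff]
    intro f hf
    obtain ⟨k, rfl⟩ := Subgroup.mem_zpowers_iff.1 hf
    have h3 : r⁻¹ * σ ^ k * r ∈ HH L N := by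
      have h4 := h1 r⁻¹
      rw [inv_inv] at h4
      have h5 := (HH L N).zpow_mem h4 k
      have h6 : (r⁻¹ * σ * r) ^ k = r⁻¹ * σ ^ k * r := by
        have := conj_zpow (i := k) (a := r⁻¹) (b := σ)
        rwa [inv_inv] at this
      rwa [h6] at h5
    have h7 := (mem_HH _).1 h3 x
    have h8 : (σ ^ k) (r (algebraMap L N x)) = r (algebraMap L N x) := by
      have h9 := congrArg (fun z => r z) h7
      have h10 : r ((r⁻¹ * σ ^ k * r) (algebraMap L N x)) = (σ ^ k) (r (algebraMap L N x)) := by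
        rw [← AlgEquiv.mul_apply, ← mul_assoc, ← mul_assoc, mul_inv_cancel, one_mul, AlgEquiv.mul_apply]
      rw [h10] at h9
      exact h9
    have h11 : φ.toRingHom x = r (algebraMap L N x) := hr x
    rw [h11]
    exact h8
  have h12 : normalClosure ℚ L N = ⊤ :=
    (Algebra.IsAlgebraic.isNormalClosure_iff.1 (inferInstance : IsNormalClosure ℚ L N)).2
  rw [h12] at h2
  rw [Subgroup.mem_bot]
  refine AlgEquiv.ext fun x => ?_
  have h13 : x ∈ IntermediateField.fixedField (Subgroup.zpowers σ) := h2 IntermediateField.mem_top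
  rw [IntermediateField.mem_fixedField_iff] at h13
  exact h13 σ (Subgroup.mem_zpowers σ)

theorem card_quot [IsGalois ℚ N] : Nat.card (Gal(N/ℚ) ⧸ HH L N) = Module.finrank ℚ L := by
  have e1 := Module.finrank_mul_finrank ℚ L N
  have e2 : Module.finrank L N = Nat.card (HH L N) := (IsGaloisGroup.card_eq_finrank (HH L N) L N).symm
  have e3 : Module.finrank ℚ N = Nat.card Gal(N/ℚ) := (IsGaloisGroup.card_eq_finrank _ ℚ N).symm
  have e4 := Subgroup.card_eq_card_quotient_mul_card_subgroup (HH L N)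
  rw [e2, e3, e4] at e1
  exact (Nat.eq_of_mul_eq_mul_right Nat.card_pos e1).symm

theorem card_gal [IsGalois ℚ N] [IsNormalClosure ℚ L N] :
    Nat.card Gal(N/ℚ) ≤ (Module.finrank ℚ L).factorial := by
  rw [← card_quot (L := L) (N := N), ← Nat.card_perm]
  refine Nat.card_le_card_of_injective (MulAction.toPermHom Gal(N/ℚ) (Gal(N/ℚ) ⧸ HH L N)) ?_
  rw [← MonoidHom.ker_eq_bot_iff, ← Subgroup.normalCore_eq_ker]
  exact core_bot

/-- the condition in terms of the embeddings of `L` -/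
theorem star_of_emb [IsGalois ℚ N] (h : ∀ M : Subgroup Gal(N/ℚ), M.Normal → M ≠ ⊥ → ∃ g : Gal(N/ℚ), ∀ x ∈ M,
    ∃ φ : L →ₐ[ℚ] N, ∃ y ∈ M, ∀ k : ℤ, ∃ v : L, y (φ v) ≠ ((g * x) ^ k) (φ v)) : Star (HH L N) := by
  intro M hM hM0
  obtain ⟨g, hg⟩ := h M hM hM0
  refine ⟨g, fun x hx => ?_⟩
  obtain ⟨φ, y, hy, hφ⟩ := hg x hx
  obtain ⟨r, hr⟩ := ext_emb φ
  refine ⟨(r : Gal(N/ℚ) ⧸ HH L N), y, hy, fun k hk => ?_⟩
  obtain ⟨v, hv⟩ := hφ k
  apply hv
  have h1 : ((y * r : Gal(N/ℚ)) : Gal(N/ℚ) ⧸ HH L N) = (((g * x) ^ k * r : Gal(N/ℚ)) : Gal(N/ℚ) ⧸ HH L N) := hk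
  rw [QuotientGroup.eq, mem_HH] at h1
  have h2 := h1 v
  have h3 : (y * r) (((y * r)⁻¹ * ((g * x) ^ k * r)) (algebraMap L N v)) = (y * r) (algebraMap L N v) := by
    rw [h2]
  rw [← AlgEquiv.mul_apply, mul_inv_cancel_left, AlgEquiv.mul_apply, AlgEquiv.mul_apply, ← hr] at h3
  exact h3.symm

end

end Pool.Agent.K1H79.TOS
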