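import Mathlib

/-! # Möbius inversion in cyclic groups -/

set_option autoImplicit false

namespace Pool.Agent.K1H79.TOS

open ArithmeticFunction

theorem sum_mu (n : ℕ) (_ : n ≠ 0) : ∑ e ∈ n.divisors, moebius e = if n = 1 then 1 else 0 := by
  have h : (moebius * (zeta : ArithmeticFunction ℤ)) n = (1 : ArithmeticFunction ℤ) n := by
    rw [moebius_mul_coe_zeta]
  rw [coe_mul_zeta_apply, one_apply] at h
  exact h

theorem mob {Γ : Type*} [Group Γ] [Finite Γ] (x y : Γ) (h : Subgroup.zpowers y ≠ Subgroup.zpowers x)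
    [∀ e : ℕ, Decidable (y ∈ Subgroup.zpowers (x ^ e))] :
    ∑ e ∈ (orderOf x).divisors, moebius e * (if y ∈ Subgroup.zpowers (x ^ e) then 1 else 0) = 0 := by
  have hm : 0 < orderOf x := orderOf_pos x
  by_cases hy : y ∈ Subgroup.zpowers x
  · obtain ⟨j, hj'⟩ : y ∈ Submonoid.powers x := (mem_powers_iff_mem_zpowers).2 hy
    have hj : x ^ j = y := hj'
    have hiff : ∀ e ∈ (orderOf x).divisors, (y ∈ Subgroup.zpowers (x ^ e) ↔ e ∣ j) := by
      intro e he
      rw [Nat.mem_divisors] at he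
      constructor
      · intro h1
        rw [← mem_powers_iff_mem_zpowers] at h1
        obtain ⟨i, hi'⟩ := h1
        have hi : (x ^ e) ^ i = y := hi'
        have h2 : x ^ (e * i) = x ^ j := by
          rw [pow_mul, hj]
          exact hi
        rw [pow_eq_pow_iff_modEq] at h2
        have h3 := h2.dvd_iff he.1
        exact h3.1 (Dvd.intro i rfl)
      · rintro ⟨i, rfl⟩
        rw [← hj, pow_mul]
        exact Subgroup.npow_mem_zpowers _ _
    have h1 : ∑ e ∈ (orderOf x).divisors, moebius e * (if y ∈ Subgroup.zpowers (x ^ e) then 1 else 0) =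
        ∑ e ∈ (orderOf x).divisors, if e ∣ j then moebius e else 0 := by
      refine Finset.sum_congr rfl fun e he => ?_
      by_cases h2 : e ∣ j
      · rw [if_pos ((hiff e he).2 h2), if_pos h2, mul_one]
      · rw [if_neg (fun h3 => h2 ((hiff e he).1 h3)), if_neg h2, mul_zero]
    rw [h1, ← Finset.sum_filter]
    have h2 : (orderOf x).divisors.filter (fun e => e ∣ j) = (Nat.gcd (orderOf x) j).divisors := by
      ext e
      rw [Finset.mem_filter, Nat.mem_divisors, Nat.mem_divisors]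
      constructor
      · rintro ⟨⟨h3, h4⟩, h5⟩
        exact ⟨Nat.dvd_gcd h3 h5, fun h6 => h4 (Nat.eq_zero_of_gcd_eq_zero_left h6)⟩
      · rintro ⟨h3, h4⟩
        exact ⟨⟨h3.trans (Nat.gcd_dvd_left _ _), hm.ne'⟩, h3.trans (Nat.gcd_dvd_right _ _)⟩
    rw [h2, sum_mu _ (fun h6 => hm.ne' (Nat.eq_zero_of_gcd_eq_zero_left h6)), if_neg]
    intro h3
    apply h
    refine Subgroup.eq_of_le_of_card_ge (Subgroup.zpowers_le.2 hy) ?_
    rw [Nat.card_zpowers, Nat.card_zpowers, ← hj]
    have h4 : orderOf (x ^ j) = orderOf x := Nat.Coprime.orderOf_pow h3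
    rw [h4]
  · refine Finset.sum_eq_zero fun e _ => ?_
    rw [if_neg, mul_zero]
    intro h1
    apply hy
    have h2 : Subgroup.zpowers (x ^ e) ≤ Subgroup.zpowers x :=
      Subgroup.zpowers_le.2 (Subgroup.npow_mem_zpowers _ _)
    exact h2 h1

theorem tot {m : ℕ} (hm : 0 < m) : ∑ e ∈ m.divisors, moebius e * ((m / e : ℕ) : ℤ) ≠ 0 := by
  have h := (sum_eq_iff_sum_mul_moebius_eq (R := ℤ) (f := fun i => (Nat.totient i : ℤ))
    (g := fun i => (i : ℤ))).1 (fun n hn => by
      rw [← Nat.cast_sum, Nat.sum_totient]) m hm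
  rw [← Nat.map_div_right_divisors] at h
  rw [Finset.sum_map] at h
  have h' : ∑ e ∈ m.divisors, moebius e * ((m / e : ℕ) : ℤ) = (Nat.totient m : ℤ) := h
  rw [h']
  exact_mod_cast (Nat.totient_pos.2 hm).ne'

/-- a generator of a cyclic group above a given generator of the image -/
theorem lift_gen {G Γ : Type*} [Group G] [Finite G] [Group Γ] [Finite Γ] (q : G →* Γ) (σ : G) (x : Γ)
    (h : Subgroup.zpowers (q σ) = Subgroup.zpowers x) :
    ∃ τ : G, Subgroup.zpowers τ = Subgroup.zpowers σ ∧ q τ = x := by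
  have hx : x ∈ Subgroup.zpowers (q σ) := by rw [h]; exact Subgroup.mem_zpowers x
  obtain ⟨j, hj'⟩ : x ∈ Submonoid.powers (q σ) := (mem_powers_iff_mem_zpowers).2 hx
  have hj : (q σ) ^ j = x := hj'
  have hd : orderOf (q σ) ∣ orderOf σ := orderOf_map_dvd q σ
  have hpos : 0 < orderOf (q σ) := orderOf_pos _
  have hpos2 : 0 < orderOf σ := orderOf_pos _
  have hcop : Nat.Coprime j (orderOf (q σ)) := by
    have h1 : orderOf x = orderOf (q σ) := by
      rw [← Nat.card_zpowers, ← Nat.card_zpowers, h]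
    rw [← hj, orderOf_pow] at h1
    have h2 : Nat.gcd (orderOf (q σ)) j ∣ orderOf (q σ) := Nat.gcd_dvd_left _ _
    have h3 := Nat.div_mul_cancel h2
    rw [h1] at h3
    have h4 : Nat.gcd (orderOf (q σ)) j = 1 := by
      have : orderOf (q σ) * Nat.gcd (orderOf (q σ)) j = orderOf (q σ) * 1 := by rw [h3, mul_one]
      exact Nat.eq_of_mul_eq_mul_left hpos this
    exact (Nat.coprime_iff_gcd_eq_one.2 h4).symm
  have : NeZero (orderOf σ) := ⟨hpos2.ne'⟩
  obtain ⟨v, hv⟩ := ZMod.unitsMap_surjective hd (ZMod.unitOfCoprime j hcop)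
  obtain ⟨i, hi⟩ : ∃ i : ℕ, i = (v : ZMod (orderOf σ)).val := ⟨_, rfl⟩
  have hic : Nat.Coprime i (orderOf σ) := by rw [hi]; exact ZMod.val_coe_unit_coprime v
  have hij : i ≡ j [MOD orderOf (q σ)] := by
    have h1 := congrArg (fun u : (ZMod (orderOf (q σ)))ˣ => (u : ZMod (orderOf (q σ)))) hv
    simp only [ZMod.coe_unitOfCoprime, ZMod.unitsMap_val] at h1
    rw [← ZMod.natCast_eq_natCast_iff, ← h1, hi, ZMod.natCast_val]
  refine ⟨σ ^ i, ?_, ?_⟩
  · refine Subgroup.eq_of_le_of_card_ge (Subgroup.zpowers_le.2 (Subgroup.npow_mem_zpowers _ _)) ?_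
    rw [Nat.card_zpowers, Nat.card_zpowers]
    have h4 : orderOf (σ ^ i) = orderOf σ := Nat.Coprime.orderOf_pow hic.symm
    rw [h4]
  · rw [map_pow, ← hj, pow_eq_pow_iff_modEq]
    exact hij

end Pool.Agent.K1H79.TOS
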