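import Pool.Agent.K1H79.TOS.Deg
import Pool.Agent.K1H79.TOS.Mob
import Pool.Agent.K1H79.TOR.Ht

/-! # The combination of the numbers of primes of degree one attached to a coset -/

set_option autoImplicit false
set_option linter.unusedSectionVars false
set_option linter.unusedVariables false

namespace Pool.Agent.K1H79.TOS

open NumberField Pointwise Ideal
open ArithmeticFunction (moebius)
open Pool.Agent.K1H79.TOR (span_prime span_ne_bot mem_of_over Sm)

variable {N : Type} [Field N] [NumberField N] [IsGalois ℚ N]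

/-- the subgroup `⟨g ^ e⟩ M` -/
def Ue (M : Subgroup Gal(N/ℚ)) [M.Normal] (g : Gal(N/ℚ)) (e : ℕ) : Subgroup Gal(N/ℚ) :=
  (Subgroup.zpowers ((QuotientGroup.mk' M g) ^ e)).comap (QuotientGroup.mk' M)

theorem le_Ue (M : Subgroup Gal(N/ℚ)) [M.Normal] (g : Gal(N/ℚ)) (e : ℕ) : M ≤ Ue M g e := by
  intro x hx
  unfold Ue
  rw [Subgroup.mem_comap]
  have : QuotientGroup.mk' M x = 1 := by
    rw [← MonoidHom.mem_ker, QuotientGroup.ker_mk']
    exact hx
  rw [this]
  exact Subgroup.one_mem _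

/-- its fixed field -/
noncomputable abbrev Fe (M : Subgroup Gal(N/ℚ)) [M.Normal] (g : Gal(N/ℚ)) (e : ℕ) : IntermediateField ℚ N :=
  FixedPoints.intermediateField (Ue M g e)

theorem card_Ue (M : Subgroup Gal(N/ℚ)) [M.Normal] (g : Gal(N/ℚ)) {e : ℕ}
    (he : e ∈ (orderOf (QuotientGroup.mk' M g)).divisors) :
    Nat.card (Ue M g e) = Nat.card M * (orderOf (QuotientGroup.mk' M g) / e) := by
  have hm : 0 < orderOf (QuotientGroup.mk' M g) := orderOf_pos _
  rw [Nat.mem_divisors] at he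
  have he0 : e ≠ 0 := by
    rintro rfl
    exact he.2 (zero_dvd_iff.1 he.1)
  have h1 : Nat.card (Subgroup.zpowers ((QuotientGroup.mk' M g) ^ e)) = orderOf (QuotientGroup.mk' M g) / e := by
    rw [Nat.card_zpowers, orderOf_pow_of_dvd he0 he.1]
  have h2 := Subgroup.index_comap_of_surjective (Subgroup.zpowers ((QuotientGroup.mk' M g) ^ e))
    (QuotientGroup.mk'_surjective M)
  have h3 := Subgroup.card_mul_index (Ue M g e)
  have h4 := Subgroup.card_mul_index (Subgroup.zpowers ((QuotientGroup.mk' M g) ^ e))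
  have h5 := Subgroup.card_eq_card_quotient_mul_card_subgroup M
  rw [h1] at h4
  have h6 : (Ue M g e).index = (Subgroup.zpowers ((QuotientGroup.mk' M g) ^ e)).index := h2
  have h7 : 0 < (Ue M g e).index := Nat.pos_of_ne_zero Subgroup.index_ne_zero_of_finite
  refine Nat.eq_of_mul_eq_mul_right h7 ?_
  rw [h3, h5, ← h4, h6]
  ring

theorem comb {p : ℕ} (hp : p.Prime) (hu : Unr N p) (M : Subgroup Gal(N/ℚ)) [M.Normal] (g : Gal(N/ℚ))
    (hall : ∀ P : Ideal (𝓞 N), P.IsPrime → P.LiesOver (Ideal.span {(p : ℤ)}) → ∀ σ : Gal(N/ℚ),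
      MulAction.stabilizer Gal(N/ℚ) P = Subgroup.zpowers σ →
      Subgroup.zpowers (QuotientGroup.mk' M σ) ≠ Subgroup.zpowers (QuotientGroup.mk' M g)) :
    ∑ e : (orderOf (QuotientGroup.mk' M g)).divisors,
      (moebius e.1 * ((orderOf (QuotientGroup.mk' M g) / e.1 : ℕ) : ℤ)) * (dg (Fe M g e.1) p : ℤ) = 0 := by
  classical
  have hm := span_prime hp
  obtain ⟨S, hS⟩ : ∃ S : Finset (Ideal (𝓞 N)), ∀ P, P ∈ S ↔ P ∈ primesOver (Ideal.span {(p : ℤ)}) (𝓞 N) :=
    ⟨(IsDedekindDomain.primesOver_finite (Ideal.span {(p : ℤ)}) (𝓞 N)).toFinset,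
      fun P => Set.Finite.mem_toFinset _⟩
  have hM : (0 : ℤ) < (Nat.card M : ℤ) := by exact_mod_cast Nat.card_pos
  have key : (Nat.card M : ℤ) * ∑ e : (orderOf (QuotientGroup.mk' M g)).divisors,
      (moebius e.1 * ((orderOf (QuotientGroup.mk' M g) / e.1 : ℕ) : ℤ)) * (dg (Fe M g e.1) p : ℤ) = 0 := by
    rw [Finset.mul_sum]
    have h1 : ∀ e : (orderOf (QuotientGroup.mk' M g)).divisors,
        (Nat.card M : ℤ) * ((moebius e.1 * ((orderOf (QuotientGroup.mk' M g) / e.1 : ℕ) : ℤ)) *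
          (dg (Fe M g e.1) p : ℤ)) = ∑ P ∈ S, (Nat.card (MulAction.stabilizer Gal(N/ℚ) P) : ℤ) *
            (moebius e.1 * (if MulAction.stabilizer Gal(N/ℚ) P ≤ Ue M g e.1 then 1 else 0)) := by
      rintro ⟨e, he⟩
      simp only
      have h2 := dg_mul hp hu (Ue M g e) (Fe M g e) S hS
      rw [card_Ue M g he] at h2
      have h3 : (dg (Fe M g e) p : ℤ) * ((Nat.card M : ℤ) * ((orderOf (QuotientGroup.mk' M g) / e : ℕ) : ℤ)) =
          ∑ P ∈ S, (if MulAction.stabilizer Gal(N/ℚ) P ≤ Ue M g e then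
            (Nat.card (MulAction.stabilizer Gal(N/ℚ) P) : ℤ) else 0) := by
        have h4 := congrArg (fun n : ℕ => (n : ℤ)) h2
        push_cast at h4
        push_cast
        exact h4
      calc _ = moebius e * ((dg (Fe M g e) p : ℤ) * ((Nat.card M : ℤ) *
            ((orderOf (QuotientGroup.mk' M g) / e : ℕ) : ℤ))) := by ring
        _ = _ := by
          rw [h3, Finset.mul_sum]
          refine Finset.sum_congr rfl fun P _ => ?_
          split_ifs <;> ring
    rw [Finset.sum_congr rfl (fun e _ => h1 e), Finset.sum_comm]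
    refine Finset.sum_eq_zero fun P hP => ?_
    rw [← Finset.mul_sum]
    rw [hS] at hP
    obtain ⟨h3, h4⟩ := hP
    obtain ⟨σ, hσ⟩ := stab_cyc hp hu P
    have h5 := mob (QuotientGroup.mk' M g) (QuotientGroup.mk' M σ) (hall P h3 h4 σ hσ)
    have h6 : ∑ e : (orderOf (QuotientGroup.mk' M g)).divisors,
        moebius e.1 * (if MulAction.stabilizer Gal(N/ℚ) P ≤ Ue M g e.1 then 1 else 0) =
        ∑ e ∈ (orderOf (QuotientGroup.mk' M g)).divisors, moebius e *
          (if QuotientGroup.mk' M σ ∈ Subgroup.zpowers ((QuotientGroup.mk' M g) ^ e) then 1 else 0) := by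
      rw [Finset.sum_coe_sort (orderOf (QuotientGroup.mk' M g)).divisors (fun e => moebius e *
        (if MulAction.stabilizer Gal(N/ℚ) P ≤ Ue M g e then 1 else 0))]
      refine Finset.sum_congr rfl fun e _ => ?_
      congr 1
      have h7 : MulAction.stabilizer Gal(N/ℚ) P ≤ Ue M g e ↔
          QuotientGroup.mk' M σ ∈ Subgroup.zpowers ((QuotientGroup.mk' M g) ^ e) := by
        rw [hσ, Subgroup.zpowers_le]
        unfold Ue
        rw [Subgroup.mem_comap]
      simp only [h7]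
    rw [h6, h5, mul_zero]
  rcases mul_eq_zero.1 key with h | h
  · exact absurd h hM.ne'
  · exact h

end Pool.Agent.K1H79.TOS
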