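import Pool.Agent.K1H79.TOS.Scale2

/-! # Groups which satisfy the condition -/

set_option autoImplicit false
set_option linter.unusedSectionVars false
set_option linter.unusedVariables false

namespace Pool.Agent.K1H79.TOS

section

variable {G : Type} [Group G]

theorem cyc_unique [Finite G] {τ z x : G} (hz : z ∈ Subgroup.zpowers τ) (hx : x ∈ Subgroup.zpowers τ)
    (h : orderOf x = orderOf z) : x ∈ Subgroup.zpowers z := by
  obtain ⟨i, hi'⟩ : z ∈ Submonoid.powers τ := (mem_powers_iff_mem_zpowers).2 hz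
  obtain ⟨j, hj'⟩ : x ∈ Submonoid.powers τ := (mem_powers_iff_mem_zpowers).2 hx
  have hi : τ ^ i = z := hi'
  have hj : τ ^ j = x := hj'
  have hm : 0 < orderOf τ := orderOf_pos τ
  rw [← hi, ← hj, orderOf_pow, orderOf_pow] at h
  have h1 : (orderOf τ).gcd i ∣ orderOf τ := Nat.gcd_dvd_left _ _
  have h2 : (orderOf τ).gcd j ∣ orderOf τ := Nat.gcd_dvd_left _ _
  have h3 : (orderOf τ).gcd j = (orderOf τ).gcd i := by
    have e1 := Nat.div_mul_cancel h1
    have e2 := Nat.div_mul_cancel h2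
    rw [h] at e2
    have hpos : 0 < orderOf τ / (orderOf τ).gcd i := Nat.div_pos (Nat.le_of_dvd hm h1)
      (Nat.gcd_pos_of_pos_left _ hm)
    exact Nat.eq_of_mul_eq_mul_left hpos (e2.trans e1.symm)
  have h4 : (orderOf τ).gcd i ∣ j := by
    rw [← h3]
    exact Nat.gcd_dvd_right _ _
  have h5 : Int.gcd (orderOf τ : ℤ) (i : ℤ) ∣ j := by
    rwa [Int.gcd_natCast_natCast]
  rw [Int.gcd_dvd_iff] at h5
  obtain ⟨u, v, huv⟩ := h5
  refine Subgroup.mem_zpowers_iff.2 ⟨v, ?_⟩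
  rw [← hi, ← hj, ← zpow_natCast τ j, huv, zpow_add, zpow_mul, zpow_natCast, pow_orderOf_eq_one, one_zpow,
    one_mul, zpow_mul, zpow_natCast]

/-- the condition for the trivial subgroup -/
theorem star_bot [Finite G] (hG : ∀ z ∈ Subgroup.center G, (orderOf z).Prime →
    ∃ x : G, orderOf x = orderOf z ∧ x ∉ Subgroup.zpowers z) : Star (⊥ : Subgroup G) := by
  intro M hMn hM
  -- it is enough that `M` is not contained in the cyclic groups
  suffices h : ∃ g : G, ∀ x ∈ M, ¬ M ≤ Subgroup.zpowers (g * x) by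
    obtain ⟨g, hg⟩ := h
    refine ⟨g, fun x hx => ?_⟩
    obtain ⟨y, hy, hy2⟩ := SetLike.not_le_iff_exists.1 (hg x hx)
    refine ⟨((1 : G) : G ⧸ (⊥ : Subgroup G)), y, hy, fun k hk => hy2 ?_⟩
    have h1 : ((y * 1 : G) : G ⧸ (⊥ : Subgroup G)) = (((g * x) ^ k * 1 : G) : G ⧸ (⊥ : Subgroup G)) := hk
    rw [mul_one, mul_one, QuotientGroup.eq, Subgroup.mem_bot, inv_mul_eq_one] at h1
    exact Subgroup.mem_zpowers_iff.2 ⟨k, h1.symm⟩
  by_cases hc : IsCyclic M
  swap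
  · refine ⟨1, fun x hx hle => hc ?_⟩
    exact isCyclic_of_injective (Subgroup.inclusion hle) (Subgroup.inclusion_injective hle)
  obtain ⟨⟨r, hrR⟩, hr⟩ := hc.exists_generator
  have hRr : M = Subgroup.zpowers r := by
    apply le_antisymm
    · intro x hx
      obtain ⟨k, hk⟩ := Subgroup.mem_zpowers_iff.1 (hr ⟨x, hx⟩)
      exact Subgroup.mem_zpowers_iff.2 ⟨k, congrArg Subtype.val hk⟩
    · exact Subgroup.zpowers_le.2 hrR
  have hr1 : r ≠ 1 := by
    rintro rfl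
    apply hM
    rw [hRr, Subgroup.zpowers_one_eq_bot]
  have hord : orderOf r ≠ 1 := by rwa [Ne, orderOf_eq_one_iff]
  obtain ⟨p, hp, hpd⟩ := Nat.exists_prime_and_dvd hord
  obtain ⟨m, hm⟩ := hpd
  have hpos : 0 < orderOf r := orderOf_pos r
  obtain ⟨z, hz⟩ : ∃ z : G, z = r ^ m := ⟨_, rfl⟩
  have hzo : orderOf z = p := by
    have hm0 : m ≠ 0 := by
      rintro rfl
      rw [mul_zero] at hm
      omega
    rw [hz, orderOf_pow' _ hm0, hm, Nat.gcd_mul_left_left, Nat.mul_div_cancel _ (Nat.pos_of_ne_zero hm0)]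
  have hzM : z ∈ M := by
    rw [hz]
    exact M.pow_mem hrR m
  by_cases hzc : z ∈ Subgroup.center G
  · obtain ⟨x₀, hx1, hx2⟩ := hG z hzc (by rw [hzo]; exact hp)
    refine ⟨x₀, fun x hx hle => hx2 ?_⟩
    have h1 : x₀ ∈ Subgroup.zpowers (x₀ * x) := by
      have h2 := Subgroup.mul_mem _ (Subgroup.mem_zpowers (x₀ * x)) (Subgroup.inv_mem _ (hle hx))
      rwa [mul_inv_cancel_right] at h2
    exact cyc_unique (hle hzM) h1 hx1
  · rw [Subgroup.mem_center_iff] at hzc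
    push Not at hzc
    obtain ⟨g, hg⟩ := hzc
    refine ⟨g, fun x hx hle => hg ?_⟩
    obtain ⟨k, hk⟩ := Subgroup.mem_zpowers_iff.1 (hle hzM)
    have h1 : Commute (g * x) z := by
      rw [← hk]
      exact (Commute.refl (g * x)).zpow_right k
    have h2 : Commute x z := by
      rw [hRr] at hx
      obtain ⟨i, hi⟩ := Subgroup.mem_zpowers_iff.1 hx
      rw [← hi, hz]
      exact ((Commute.refl r).zpow_left i).pow_right m
    have h3 : Commute (g * x * x⁻¹) z := h1.mul_left h2.inv_left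
    rw [mul_inv_cancel_right] at h3
    exact h3.eq

/-- the condition for the maximal subgroups -/
theorem star_max {H : Subgroup G} (hmax : ∀ M : Subgroup G, M.Normal → M ≠ ⊥ → M ⊔ H = ⊤)
    (hcyc : ∀ σ : G, ∃ a b : G ⧸ H, ∀ k : ℤ, b ≠ σ ^ k • a) : Star H := by
  intro M hMn hM
  refine ⟨1, fun x hx => ?_⟩
  rw [one_mul]
  obtain ⟨a, b, hab⟩ := hcyc x
  refine ⟨a, ?_⟩
  obtain ⟨r, hr⟩ : ∃ r : G, (r : G ⧸ H) = a := ⟨Quotient.out a, Quotient.out_eq a⟩
  obtain ⟨s, hs⟩ : ∃ s : G, (s : G ⧸ H) = b := ⟨Quotient.out b, Quotient.out_eq b⟩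
  have h1 : r⁻¹ * s ∈ M ⊔ H := by rw [hmax M hMn hM]; trivial
  obtain ⟨y, hy, h, hh, hyh⟩ := Subgroup.mem_sup_of_normal_left.1 h1
  have h2 : (r * y * r⁻¹) • a = b := by
    rw [← hr, ← hs]
    have h3 : (r * y * r⁻¹) • (r : G ⧸ H) = ((r * y * r⁻¹ * r : G) : G ⧸ H) := rfl
    rw [h3, inv_mul_cancel_right, QuotientGroup.eq]
    have h4 : (r * y)⁻¹ * s = h := by
      have : s = r * (y * h) := by rw [hyh, mul_inv_cancel_left]
      rw [this]
      group
    rw [h4]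
    exact hh
  refine ⟨r * y * r⁻¹, hMn.conj_mem y hy r, fun k => ?_⟩
  rw [h2]
  exact hab k

end

end Pool.Agent.K1H79.TOS
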