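import Pool.Agent.TH949.LT.Cross

/-! # Shifting the line of integration across a simple pole -/

set_option autoImplicit false

namespace Pool.Agent.K1H79.TOS

open Complex MeasureTheory Set Filter Topology
open Pool.Agent.TH942.SL (V shift line_int decay_int line_cont)
open Pool.Agent.TH949.LT (norm_exp_sq E_int E_pos E_neg)

theorem exp_aux {κ : ℝ} (y : ℝ) : Real.exp (κ * |y| - y ^ 2) ≤
    Real.exp ((κ + 2) ^ 2 / 4) * (1 + |y|) ^ (-2 : ℝ) := by
  have h0 : 0 ≤ |y| := abs_nonneg y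
  have h1 : (1 + |y|) ^ 2 ≤ Real.exp (2 * |y|) := by
    have h2 : 1 + |y| ≤ Real.exp |y| := by linarith [Real.add_one_le_exp |y|]
    calc (1 + |y|) ^ 2 ≤ (Real.exp |y|) ^ 2 := pow_le_pow_left₀ (by linarith) h2 2
      _ = _ := by rw [← Real.exp_nat_mul]; norm_num
  rw [Real.rpow_neg (by linarith), ← div_eq_mul_inv, le_div_iff₀ (by positivity)]
  have e : (1 + |y|) ^ (2 : ℝ) = (1 + |y|) ^ 2 := by
    rw [← Real.rpow_natCast]
    norm_num
  rw [e]
  calc Real.exp (κ * |y| - y ^ 2) * (1 + |y|) ^ 2 ≤ Real.exp (κ * |y| - y ^ 2) * Real.exp (2 * |y|) :=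
        mul_le_mul_of_nonneg_left h1 (Real.exp_pos _).le
    _ = Real.exp ((κ + 2) * |y| - y ^ 2) := by rw [← Real.exp_add]; congr 1; ring
    _ ≤ _ := by
        refine Real.exp_le_exp.2 ?_
        rw [← sq_abs y]
        nlinarith [sq_nonneg (|y| - (κ + 2) / 2)]

/-- the Gaussian integral with an exponential factor -/
noncomputable def J (κ : ℝ) : ℝ := ∫ v : ℝ, Real.exp (κ * |v| - v ^ 2)

theorem J_int (κ : ℝ) : Integrable fun v : ℝ => Real.exp (κ * |v| - v ^ 2) := by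
  refine ((decay_int (p := 2) (by norm_num)).const_mul (Real.exp ((κ + 2) ^ 2 / 4))).mono'
    (by fun_prop) (Eventually.of_forall fun v => ?_)
  rw [Real.norm_of_nonneg (Real.exp_pos _).le]
  exact exp_aux v

theorem J_nonneg (κ : ℝ) : 0 ≤ J κ := integral_nonneg fun _ => (Real.exp_pos _).le

theorem slope_bound {a' a b κ : ℝ} (ha' : a' < a) (ha : a < 0) (hb : 0 < b) {H : ℂ → ℂ}
    (hH : ∀ w : ℂ, a' < w.re → DifferentiableAt ℂ H w) {C : ℝ} (hκ : 0 ≤ κ)
    (hbd : ∀ w : ℂ, a ≤ w.re → w.re ≤ b → ‖H w‖ ≤ C * Real.exp (κ * |w.im|)) :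
    (∀ w : ℂ, a' < w.re → DifferentiableAt ℂ (dslope H 0) w) ∧
    ∃ B : ℝ, ∀ w : ℂ, a ≤ w.re → w.re ≤ b →
      ‖dslope H 0 w * cexp (w ^ 2)‖ ≤ B * (1 + |w.im|) ^ (-2 : ℝ) := by
  have hU : IsOpen {w : ℂ | a' < w.re} := isOpen_lt continuous_const Complex.continuous_re
  have h0U : (0 : ℂ) ∈ {w : ℂ | a' < w.re} := by
    show a' < (0 : ℂ).re
    rw [Complex.zero_re]; linarith
  have hd : DifferentiableOn ℂ (dslope H 0) {w : ℂ | a' < w.re} :=
    (Complex.differentiableOn_dslope (hU.mem_nhds h0U)).2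
      fun w hw => (hH w hw).differentiableWithinAt
  refine ⟨fun w hw => hd.differentiableAt (hU.mem_nhds hw), ?_⟩
  have hcomp : IsCompact ((Icc a b) ×ℂ (Icc (-1 : ℝ) 1)) :=
    isCompact_Icc.reProdIm isCompact_Icc
  have hcont : ContinuousOn (fun w : ℂ => dslope H 0 w * cexp (w ^ 2)) ((Icc a b) ×ℂ (Icc (-1 : ℝ) 1)) := by
    refine ContinuousOn.mul (hd.continuousOn.mono fun w hw => ?_) (by fun_prop)
    rw [Complex.mem_reProdIm] at hw
    exact lt_of_lt_of_le ha' hw.1.1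
  obtain ⟨B1, hB1⟩ := hcomp.exists_bound_of_continuousOn hcont
  have hC0 : 0 ≤ C := by
    have := (norm_nonneg _).trans (hbd 0 (by simpa using ha.le) (by simpa using hb.le))
    simpa using this
  have hB10 : 0 ≤ B1 := by
    refine (norm_nonneg _).trans (hB1 0 ?_)
    rw [Complex.mem_reProdIm]
    simp only [Complex.zero_re, Complex.zero_im, mem_Icc]
    exact ⟨⟨ha.le, hb.le⟩, by norm_num, by norm_num⟩
  set m : ℝ := a ^ 2 + b ^ 2 with hm
  refine ⟨4 * B1 + 2 * C * Real.exp m * Real.exp ((κ + 2) ^ 2 / 4), fun w h1 h2 => ?_⟩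
  have hp : 0 < (1 + |w.im|) ^ (-2 : ℝ) := by positivity
  rcases le_or_gt |w.im| 1 with h3 | h3
  · have h4 := hB1 w (by
      rw [Complex.mem_reProdIm]
      exact ⟨⟨h1, h2⟩, abs_le.1 h3⟩)
    have h5 : (1 / 4 : ℝ) ≤ (1 + |w.im|) ^ (-2 : ℝ) := by
      have h6 : (2 : ℝ) ^ (-2 : ℝ) ≤ (1 + |w.im|) ^ (-2 : ℝ) :=
        Real.rpow_le_rpow_of_nonpos (by positivity) (by linarith) (by norm_num)
      have h7 : (2 : ℝ) ^ (-2 : ℝ) = 1 / 4 := by
        rw [Real.rpow_neg (by norm_num)]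
        norm_num
      rw [h7] at h6
      exact h6
    have h8 : 0 ≤ 2 * C * Real.exp m * Real.exp ((κ + 2) ^ 2 / 4) := by positivity
    nlinarith
  · have hw : w ≠ 0 := by
      intro h
      rw [h] at h3
      norm_num at h3
    have hw1 : 1 ≤ ‖w‖ := h3.le.trans (Complex.abs_im_le_norm w)
    rw [dslope_of_ne _ hw, slope_def_field, sub_zero, norm_mul, norm_div, norm_exp_sq]
    have h4 : ‖H w - H 0‖ ≤ 2 * C * Real.exp (κ * |w.im|) := by
      have h5 := hbd w h1 h2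
      have h6 := hbd 0 (by simpa using ha.le) (by simpa using hb.le)
      have h7 : C * Real.exp (κ * |(0 : ℂ).im|) ≤ C * Real.exp (κ * |w.im|) := by
        refine mul_le_mul_of_nonneg_left (Real.exp_le_exp.2 ?_) hC0
        simp only [Complex.zero_im, abs_zero, mul_zero]
        positivity
      calc _ ≤ ‖H w‖ + ‖H 0‖ := norm_sub_le _ _
        _ ≤ _ := by linarith
    have h5 : ‖H w - H 0‖ / ‖w‖ ≤ 2 * C * Real.exp (κ * |w.im|) :=
      (div_le_self (norm_nonneg _) hw1).trans h4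
    have h6 : Real.exp (w.re ^ 2 - w.im ^ 2) ≤ Real.exp m * Real.exp (- w.im ^ 2) := by
      rw [← Real.exp_add]
      refine Real.exp_le_exp.2 ?_
      have : w.re ^ 2 ≤ m := by
        rw [hm]
        rcases le_total 0 w.re with h | h <;> nlinarith
      linarith
    calc _ ≤ 2 * C * Real.exp (κ * |w.im|) * (Real.exp m * Real.exp (- w.im ^ 2)) :=
          mul_le_mul h5 h6 (Real.exp_pos _).le (by positivity)
      _ = 2 * C * Real.exp m * Real.exp (κ * |w.im| - w.im ^ 2) := by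
          have e : Real.exp (κ * |w.im| - w.im ^ 2) = Real.exp (κ * |w.im|) * Real.exp (- w.im ^ 2) := by
            rw [← Real.exp_add, sub_eq_add_neg]
          rw [e]
          ring
      _ ≤ 2 * C * Real.exp m * (Real.exp ((κ + 2) ^ 2 / 4) * (1 + |w.im|) ^ (-2 : ℝ)) :=
          mul_le_mul_of_nonneg_left (exp_aux _) (by positivity)
      _ = 2 * C * Real.exp m * Real.exp ((κ + 2) ^ 2 / 4) * (1 + |w.im|) ^ (-2 : ℝ) := by ring
      _ ≤ _ := by
          refine mul_le_mul_of_nonneg_right ?_ hp.le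
          linarith

theorem cross {a' a b κ : ℝ} (ha' : a' < a) (ha : a < 0) (hb : 0 < b) {H : ℂ → ℂ}
    (hH : ∀ w : ℂ, a' < w.re → DifferentiableAt ℂ H w) {C : ℝ} (hκ : 0 ≤ κ)
    (hbd : ∀ w : ℂ, a ≤ w.re → w.re ≤ b → ‖H w‖ ≤ C * Real.exp (κ * |w.im|)) :
    (∫ v : ℝ, H (b + v * I) * (cexp ((b + v * I) ^ 2) / (b + v * I))) -
      ∫ v : ℝ, H (a + v * I) * (cexp ((a + v * I) ^ 2) / (a + v * I)) = 2 * Real.pi * H 0 := by
  obtain ⟨hd, B, hB⟩ := slope_bound ha' ha hb hH hκ hbd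
  have hab : a ≤ b := by linarith
  set g : ℂ → ℂ := fun w => dslope H 0 w * cexp (w ^ 2) with hg
  have hgd : ∀ w : ℂ, a' < w.re → DifferentiableAt ℂ g w := fun w hw => (hd w hw).mul (by fun_prop)
  have h1 := shift (H := g) (a := a) (b := b) (p := 2) (B := B) (by norm_num) hab
    (fun s hs _ => hgd s (lt_of_lt_of_le ha' hs)) hB
  unfold V at h1
  have hpi : (((2 * Real.pi)⁻¹ : ℝ) : ℂ) ≠ 0 := by
    have := Real.pi_pos
    exact_mod_cast (by positivity : (2 * Real.pi)⁻¹ ≠ 0)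
  have h2 := mul_left_cancel₀ hpi h1
  have hline : ∀ c : ℝ, c ≠ 0 → a ≤ c → c ≤ b →
      ∫ v : ℝ, H (c + v * I) * (cexp ((c + v * I) ^ 2) / (c + v * I)) =
      (∫ v : ℝ, g (c + v * I)) + H 0 * ∫ v : ℝ, cexp ((c + v * I) ^ 2) / (c + v * I) := by
    intro c hc hc1 hc2
    rw [← integral_const_mul, ← integral_add]
    · congr 1
      ext v
      have hne : (c : ℂ) + v * I ≠ 0 := by
        intro h
        have := congrArg Complex.re h
        simp at this
        exact hc this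
      simp only [hg]
      rw [dslope_of_ne _ hne, slope_def_field, sub_zero]
      field_simp
      ring
    · exact line_int (p := 2) (B := B) (by norm_num)
        (fun s hs => (hgd s (by rw [hs]; linarith)).continuousAt)
        (fun s hs => hB s (by rw [hs]; exact hc1) (by rw [hs]; exact hc2))
    · exact (E_int hc).const_mul _
  rw [hline b hb.ne' hab le_rfl, hline a ha.ne le_rfl hab, h2, E_pos hb, E_neg ha]
  ring

/-- a shift without a pole -/
theorem shift_exp {a' a b κ : ℝ} (ha' : a' < a) (hab : a ≤ b) {H : ℂ → ℂ}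
    (hH : ∀ w : ℂ, a' < w.re → DifferentiableAt ℂ H w) {C : ℝ} (hC : 0 ≤ C)
    (hbd : ∀ w : ℂ, a ≤ w.re → w.re ≤ b → ‖H w‖ ≤ C * Real.exp (κ * |w.im|)) :
    ∫ v : ℝ, H (b + v * I) * cexp ((b + v * I) ^ 2) =
      ∫ v : ℝ, H (a + v * I) * cexp ((a + v * I) ^ 2) := by
  have h1 := shift (H := fun w => H w * cexp (w ^ 2)) (a := a) (b := b) (p := 2)
    (B := C * Real.exp (a ^ 2 + b ^ 2) * Real.exp ((κ + 2) ^ 2 / 4)) (by norm_num) hab
    (fun s hs _ => (hH s (lt_of_lt_of_le ha' hs)).mul (by fun_prop)) (fun w h1 h2 => by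
      rw [norm_mul, norm_exp_sq]
      have h6 : Real.exp (w.re ^ 2 - w.im ^ 2) ≤ Real.exp (a ^ 2 + b ^ 2) * Real.exp (- w.im ^ 2) := by
        rw [← Real.exp_add]
        refine Real.exp_le_exp.2 ?_
        have : w.re ^ 2 ≤ a ^ 2 + b ^ 2 := by
          rcases le_total 0 w.re with h | h <;> nlinarith
        linarith
      calc _ ≤ (C * Real.exp (κ * |w.im|)) * (Real.exp (a ^ 2 + b ^ 2) * Real.exp (- w.im ^ 2)) :=
            mul_le_mul (hbd w h1 h2) h6 (Real.exp_pos _).le (by positivity)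
        _ = C * Real.exp (a ^ 2 + b ^ 2) * Real.exp (κ * |w.im| - w.im ^ 2) := by
            have e : Real.exp (κ * |w.im| - w.im ^ 2) = Real.exp (κ * |w.im|) * Real.exp (- w.im ^ 2) := by
              rw [← Real.exp_add, sub_eq_add_neg]
            rw [e]
            ring
        _ ≤ C * Real.exp (a ^ 2 + b ^ 2) * (Real.exp ((κ + 2) ^ 2 / 4) * (1 + |w.im|) ^ (-2 : ℝ)) :=
            mul_le_mul_of_nonneg_left (exp_aux _) (by positivity)
        _ = _ := by ring)
  unfold V at h1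
  have hpi : (((2 * Real.pi)⁻¹ : ℝ) : ℂ) ≠ 0 := by
    have := Real.pi_pos
    exact_mod_cast (by positivity : (2 * Real.pi)⁻¹ ≠ 0)
  exact (mul_left_cancel₀ hpi h1).symm

/-- a bound for the integral along a line -/
theorem line_le {c κ C : ℝ} {H : ℂ → ℂ}
    (hbd : ∀ w : ℂ, w.re = c → ‖H w‖ ≤ C * Real.exp (κ * |w.im|)) :
    ‖∫ v : ℝ, H (c + v * I) * cexp ((c + v * I) ^ 2)‖ ≤ C * (Real.exp (c ^ 2) * J κ) := by
  have h1 : ∀ v : ℝ, ‖H (c + v * I) * cexp ((c + v * I) ^ 2)‖ ≤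
      C * Real.exp (c ^ 2) * Real.exp (κ * |v| - v ^ 2) := by
    intro v
    rw [norm_mul, norm_exp_sq]
    have h2 := hbd (c + v * I) (by simp)
    have e1 : ((c : ℂ) + v * I).im = v := by simp
    have e2 : ((c : ℂ) + v * I).re = c := by simp
    rw [e1] at h2
    rw [e1, e2]
    calc _ ≤ C * Real.exp (κ * |v|) * Real.exp (c ^ 2 - v ^ 2) :=
          mul_le_mul_of_nonneg_right h2 (Real.exp_pos _).le
      _ = C * (Real.exp (κ * |v|) * Real.exp (c ^ 2 - v ^ 2)) := by ring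
      _ = C * (Real.exp (c ^ 2) * Real.exp (κ * |v| - v ^ 2)) := by
          rw [← Real.exp_add, ← Real.exp_add]
          congr 2
          ring
      _ = _ := by ring
  refine (norm_integral_le_of_norm_le ((J_int κ).const_mul _) (Eventually.of_forall h1)).trans ?_
  rw [integral_const_mul]
  unfold J
  rw [mul_assoc]

end Pool.Agent.K1H79.TOS
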