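import Mathlib

/-! # Sums over the prime powers -/

set_option autoImplicit false

namespace Pool.Agent.K1H79.TOS

open ArithmeticFunction

theorem log_le (n : ℕ) {ε : ℝ} (hε : 0 < ε) : Real.log n ≤ (n : ℝ) ^ ε / ε :=
  Real.log_le_rpow_div (Nat.cast_nonneg n) hε

theorem sum_log {a : ℝ} (ha : 1 < a) : Summable fun n : ℕ => Real.log n * (n : ℝ) ^ (-a) := by
  have h1 : Summable fun n : ℕ => (2 / (a - 1)) * (n : ℝ) ^ (-((a + 1) / 2)) :=
    (Real.summable_nat_rpow.2 (by linarith)).mul_left _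
  refine Summable.of_nonneg_of_le (fun n => mul_nonneg (Real.log_natCast_nonneg n) (by positivity))
    (fun n => ?_) h1
  by_cases hn : n = 0
  · rw [hn]
    simp only [Nat.cast_zero, Real.log_zero, zero_mul]
    have : 0 < a - 1 := by linarith
    positivity
  · have hn0 : (0 : ℝ) < n := by exact_mod_cast Nat.pos_of_ne_zero hn
    have ha0 : 0 < a - 1 := by linarith
    have h2 := log_le n (ε := (a - 1) / 2) (by linarith)
    calc Real.log n * (n : ℝ) ^ (-a) ≤ (n : ℝ) ^ ((a - 1) / 2) / ((a - 1) / 2) * (n : ℝ) ^ (-a) := by gcongr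
      _ = (2 / (a - 1)) * ((n : ℝ) ^ ((a - 1) / 2) * (n : ℝ) ^ (-a)) := by field_simp
      _ = _ := by
          rw [← Real.rpow_add hn0]
          congr 2
          ring

theorem sum_one : Summable fun n : ℕ => vonMangoldt n * (n : ℝ) ^ (-(5 / 4) : ℝ) := by
  refine Summable.of_nonneg_of_le (fun n => mul_nonneg vonMangoldt_nonneg (by positivity))
    (fun n => ?_) (sum_log (a := 5 / 4) (by norm_num))
  exact mul_le_mul_of_nonneg_right vonMangoldt_le_log (by positivity)

/-- the powers of the primes with exponent at least two -/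
theorem sum_two : Summable fun n : ℕ => if n.Prime then 0 else vonMangoldt n * (n : ℝ) ^ (-(3 / 4) : ℝ) := by
  classical
  obtain ⟨f, hf⟩ : ∃ f : ℕ → ℝ, f = fun n : ℕ => if n.Prime then 0 else vonMangoldt n * (n : ℝ) ^ (-(3 / 4) : ℝ) :=
    ⟨_, rfl⟩
  rw [← hf]
  have hf0 : ∀ n, 0 ≤ f n := by
    intro n
    rw [hf]
    simp only
    split_ifs
    · exact le_rfl
    · exact mul_nonneg vonMangoldt_nonneg (by positivity)
  obtain ⟨T, hT⟩ : ∃ T : Set ℕ, T = {n | IsPrimePow n ∧ ¬ n.Prime} := ⟨_, rfl⟩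
  obtain ⟨ρ, hρ⟩ : ∃ ρ : ℝ, ρ = (2 : ℝ) ^ (-(3 / 4) : ℝ) := ⟨_, rfl⟩
  have hρ0 : 0 < ρ := by rw [hρ]; positivity
  have hρ1 : ρ < 1 := by rw [hρ]; exact Real.rpow_lt_one_of_one_lt_of_neg (by norm_num) (by norm_num)
  have hsupp : Function.support f ⊆ T := by
    intro n hn
    rw [Function.mem_support] at hn
    rw [hT]
    rw [hf] at hn
    simp only at hn
    by_cases hp : n.Prime
    · rw [if_pos hp] at hn
      exact absurd rfl hn
    · rw [if_neg hp] at hn
      refine ⟨?_, hp⟩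
      rw [← vonMangoldt_ne_zero_iff]
      intro h
      rw [h, zero_mul] at hn
      exact hn rfl
  have hF : Summable fun x : ℕ × ℕ => (Real.log x.1 * (x.1 : ℝ) ^ (-(3 / 2) : ℝ)) * (ρ ^ x.2 * (ρ ^ 2)⁻¹) := by
    refine Summable.mul_of_nonneg (sum_log (by norm_num))
      ((summable_geometric_of_lt_one hρ0.le hρ1).mul_right _)
      (fun n => mul_nonneg (Real.log_natCast_nonneg n) (by positivity)) (fun n => by positivity)
  have hinj : Function.Injective (fun n : T => ((n : ℕ).minFac, (n : ℕ).factorization (n : ℕ).minFac)) := by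
    rintro ⟨n, hn⟩ ⟨m, hm⟩ h
    rw [hT] at hn hm
    have h1 := hn.1.minFac_pow_factorization_eq
    have h2 := hm.1.minFac_pow_factorization_eq
    simp only [Prod.mk.injEq] at h
    apply Subtype.ext
    show n = m
    calc n = n.minFac ^ n.factorization n.minFac := h1.symm
      _ = m.minFac ^ m.factorization m.minFac := by rw [h.2, h.1]
      _ = m := h2
  have h3 : Summable (f ∘ ((↑) : T → ℕ)) := by
    refine Summable.of_nonneg_of_le (fun n => hf0 _) (fun n => ?_) (hF.comp_injective hinj)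
    obtain ⟨n, hn⟩ := n
    rw [hT] at hn
    obtain ⟨hpp, hnp⟩ := hn
    have h1 := hpp.minFac_pow_factorization_eq
    obtain ⟨p, hp⟩ : ∃ p, p = n.minFac := ⟨_, rfl⟩
    obtain ⟨j, hj⟩ : ∃ j, j = n.factorization n.minFac := ⟨_, rfl⟩
    simp only [Function.comp_apply]
    rw [← hj, ← hp]
    rw [← hj, ← hp] at h1
    have hpr : p.Prime := by
      rw [hp]
      exact Nat.minFac_prime hpp.ne_one
    have hj2 : 2 ≤ j := by
      rcases Nat.lt_or_ge j 2 with h | h
      · interval_cases j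
        · rw [pow_zero] at h1
          exact absurd h1.symm hpp.ne_one
        · rw [pow_one] at h1
          rw [h1] at hpr
          exact absurd hpr hnp
      · exact h
    rw [hf]
    simp only
    rw [if_neg hnp, ← h1, vonMangoldt_apply_pow (by omega), vonMangoldt_apply_prime hpr, mul_assoc]
    refine mul_le_mul_of_nonneg_left ?_ (Real.log_natCast_nonneg p)
    have hp0 : (0 : ℝ) < p := by exact_mod_cast hpr.pos
    have hp2 : (2 : ℝ) ≤ p := by exact_mod_cast hpr.two_le
    obtain ⟨i, hi⟩ : ∃ i, j = i + 2 := ⟨j - 2, by omega⟩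
    have e1 : ρ ^ j * (ρ ^ 2)⁻¹ = ρ ^ i := by
      rw [hi, pow_add]
      field_simp
    rw [e1, hi]
    push_cast
    rw [← Real.rpow_natCast, ← Real.rpow_mul hp0.le]
    have e2 : (p : ℝ) ^ (((i + 2 : ℕ) : ℝ) * (-(3 / 4))) = (p : ℝ) ^ (-(3 / 2) : ℝ) * ((p : ℝ) ^ (-(3 / 4) : ℝ)) ^ i := by
      rw [← Real.rpow_natCast ((p : ℝ) ^ (-(3 / 4) : ℝ)), ← Real.rpow_mul hp0.le, ← Real.rpow_add hp0]
      congr 1
      push_cast
      ring
    rw [e2]
    have e3 : (p : ℝ) ^ (-(3 / 4) : ℝ) ≤ ρ := by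
      rw [hρ]
      exact Real.rpow_le_rpow_of_nonpos (by norm_num) hp2 (by norm_num)
    gcongr
  rw [summable_subtype_iff_indicator, Set.indicator_eq_self.2 hsupp] at h3
  exact h3

end Pool.Agent.K1H79.TOS
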