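import Pool.Agent.K1H79.TOS.Res
import Pool.Agent.K1H79.TOS.Sums
import Pool.Agent.Y772.DK.Cc

/-! # Many primes at which a combination of the numbers of primes of degree one does not vanish -/

set_option autoImplicit false
set_option linter.unusedSectionVars false
set_option linter.unusedVariables false

namespace Pool.Agent.K1H79.TOS

open NumberField Complex MeasureTheory Set Filter Topology
open Pool.Agent.Y773 Pool.Agent.R362.Near Pool.Agent.R362.HL

/-- the number of prime ideals of norm `p` -/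
noncomputable def dg (F : Type) [Field F] [NumberField F] (p : ℕ) : ℕ :=
  {P : Ideal (𝓞 F) | Ideal.absNorm P = p}.ncard

theorem cc_dg {F : Type} [Field F] [NumberField F] {p : ℕ} (hp : p.Prime) :
    cc (triv F) p = (dg F p : ℂ) := by
  have hfin : {P : Ideal (𝓞 F) | Ideal.absNorm P = p}.Finite := Ideal.finite_setOfPred_absNorm_eq p
  rw [Pool.Agent.Y772.DK.cc_prime (triv F) hp, finsum_mem_eq_finite_toFinset_sum _ hfin]
  unfold dg
  rw [Set.ncard_eq_toFinset_card _ hfin, Finset.sum_congr rfl (g := fun _ => (1 : ℂ)), Finset.sum_const,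
    nsmul_eq_mul, mul_one]
  intro P hP
  rw [Set.Finite.mem_toFinset] at hP
  refine triv_apply ?_
  rintro rfl
  have : Ideal.absNorm (⊥ : Ideal (𝓞 F)) = p := hP
  rw [Ideal.absNorm_bot] at this
  exact hp.ne_zero this.symm

/-- `(e^w - 1) / w` -/
noncomputable def qq (w : ℂ) : ℂ := dslope cexp 0 w

theorem qq_diff : Differentiable ℂ qq := by
  have hd : Differentiable ℂ (dslope cexp 0) := by
    rw [← differentiableOn_univ]
    exact (Complex.differentiableOn_dslope univ_mem).2 (differentiableOn_univ.2 Complex.differentiable_exp)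
  exact hd

theorem qq_zero : qq 0 = 1 := by
  unfold qq
  rw [dslope_same, Complex.deriv_exp, Complex.exp_zero]

theorem qq_le {w : ℂ} (hw : w.re ≤ 1) : ‖qq w‖ ≤ Real.exp 1 := by
  by_cases h : w = 0
  · rw [h, qq_zero, norm_one]
    exact Real.one_le_exp (by norm_num)
  · unfold qq
    rw [dslope_of_ne _ h, slope_def_field, sub_zero, norm_div, div_le_iff₀ (norm_pos_iff.2 h)]
    have hs : Convex ℝ {z : ℂ | z.re ≤ 1} := convex_halfSpace_re_le 1
    have := Convex.norm_image_sub_le_of_norm_deriv_le (𝕜 := ℂ) (f := cexp) (C := Real.exp 1)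
      (s := {z : ℂ | z.re ≤ 1}) (x := 0) (y := w) (fun z _ => Complex.differentiable_exp z)
      (fun z hz => by
        rw [Complex.deriv_exp, Complex.norm_exp]
        exact Real.exp_le_exp.2 hz) hs (by simp) hw
    simpa using this

section family

variable {ι : Type} [Fintype ι] [DecidableEq ι] (Y : ι → ℂ → ℂ) (a : ι → ℤ)

/-- the product -/
noncomputable def PP (w : ℂ) : ℂ := qq w ^ Fintype.card ι * ∏ i, Y i (1 + w)

/-- the product with the logarithmic derivatives, times `w` -/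
noncomputable def GG (w : ℂ) : ℂ := qq w ^ Fintype.card ι *
  ∑ i, (a i : ℂ) * ((Y i (1 + w) - w * deriv (Y i) (1 + w)) * ∏ j ∈ Finset.univ.erase i, Y j (1 + w))

variable {Y} {K κ D : ℝ} {F : ι → Type} [∀ i, Field (F i)] [∀ i, NumberField (F i)]

theorem PP_diff (hY : ∀ i, IsY K κ (F i) (Y i)) {w : ℂ} (hw : -1 < w.re) :
    DifferentiableAt ℂ (PP Y) w := by
  have h1 : 0 < (1 + w).re := by simp; linarith
  have h2 : DifferentiableAt ℂ (fun w : ℂ => 1 + w) w := by fun_prop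
  unfold PP
  refine ((qq_diff w).pow _).mul (DifferentiableAt.fun_finsetProd fun i _ => ?_)
  exact ((hY i).diff (1 + w) h1).comp w h2

theorem deriv_diff (hY : ∀ i, IsY K κ (F i) (Y i)) (i : ι) {s : ℂ} (hs : 0 < s.re) :
    DifferentiableAt ℂ (deriv (Y i)) s := by
  have hU : IsOpen {w : ℂ | 0 < w.re} := isOpen_lt continuous_const Complex.continuous_re
  have h1 : DifferentiableOn ℂ (Y i) {w : ℂ | 0 < w.re} := fun w hw =>
    ((hY i).diff w hw).differentiableWithinAt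
  exact (h1.deriv hU).differentiableAt (hU.mem_nhds hs)

theorem GG_diff (hY : ∀ i, IsY K κ (F i) (Y i)) {w : ℂ} (hw : -1 < w.re) :
    DifferentiableAt ℂ (GG Y a) w := by
  have h1 : 0 < (1 + w).re := by simp; linarith
  have h2 : DifferentiableAt ℂ (fun w : ℂ => 1 + w) w := by fun_prop
  have hYd : ∀ i, DifferentiableAt ℂ (fun w => Y i (1 + w)) w := fun i =>
    ((hY i).diff (1 + w) h1).comp w h2
  have hYd' : ∀ i, DifferentiableAt ℂ (fun w => deriv (Y i) (1 + w)) w := fun i =>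
    (deriv_diff hY i h1).comp w h2
  unfold GG
  refine ((qq_diff w).pow _).mul (DifferentiableAt.fun_sum fun i _ => ?_)
  refine DifferentiableAt.const_mul (DifferentiableAt.mul ?_ ?_) _
  · exact (hYd i).sub (differentiableAt_id.mul (hYd' i))
  · exact DifferentiableAt.fun_finsetProd fun j _ => hYd j

/-- the constant -/
noncomputable def BB (K κ : ℝ) : ℝ := 18 * K * Real.exp (κ / 8)

theorem Y_le (hK : 1 ≤ K) (hκ : 0 ≤ κ) (hD : 1 ≤ D) (hY : ∀ i, IsY K κ (F i) (Y i))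
    (hF : ∀ i, (((discr (F i)).natAbs : ℕ) : ℝ) ≤ D) (i : ι) {s : ℂ} (h1 : 1 / 2 ≤ s.re) (h2 : s.re ≤ 2) :
    ‖Y i s‖ ≤ 2 * K * D * Real.exp (κ * |s.im|) := by
  refine ((hY i).bd (1 / 2) (by norm_num) s h1 h2).trans ?_
  have := hF i
  calc K / (1 / 2) * (((discr (F i)).natAbs : ℕ) : ℝ) * Real.exp (κ * |s.im|) ≤
        K / (1 / 2) * D * Real.exp (κ * |s.im|) := by gcongr
    _ = _ := by ring

theorem dY_le (hK : 1 ≤ K) (hκ : 0 ≤ κ) (hD : 1 ≤ D) (hY : ∀ i, IsY K κ (F i) (Y i))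
    (hF : ∀ i, (((discr (F i)).natAbs : ℕ) : ℝ) ≤ D) (i : ι) {s : ℂ} (h1 : 3 / 4 ≤ s.re)
    (h2 : s.re ≤ 3 / 2) :
    ‖deriv (Y i) s‖ ≤ 16 * K * Real.exp (κ / 8) * D * Real.exp (κ * |s.im|) := by
  have hball : ∀ z : ℂ, z ∈ Metric.closedBall s (1 / 8) → 5 / 8 ≤ z.re ∧ z.re ≤ 13 / 8 ∧
      |z.im| ≤ |s.im| + 1 / 8 := by
    intro z hz
    rw [Metric.mem_closedBall, Complex.dist_eq] at hz
    have h3 := (Complex.abs_re_le_norm (z - s)).trans hz
    have h4 := (Complex.abs_im_le_norm (z - s)).trans hz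
    rw [Complex.sub_re, abs_le] at h3
    rw [Complex.sub_im] at h4
    refine ⟨by linarith, by linarith, ?_⟩
    have := abs_sub_abs_le_abs_sub z.im s.im
    linarith
  have h3 := Complex.norm_deriv_le_of_forall_mem_sphere_norm_le (c := s) (R := 1 / 8)
    (C := 2 * K * D * Real.exp (κ * (|s.im| + 1 / 8))) (f := Y i) (by norm_num) (by
      refine DifferentiableOn.diffContOnCl ?_
      rw [closure_ball _ (by norm_num)]
      intro z hz
      have := hball z hz
      exact ((hY i).diff z (by linarith)).differentiableWithinAt) (fun z hz => by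
      obtain ⟨e1, e2, e3⟩ := hball z (Metric.sphere_subset_closedBall hz)
      refine (Y_le hK hκ hD hY hF i (by linarith) (by linarith)).trans ?_
      gcongr)
  refine h3.trans (le_of_eq ?_)
  rw [mul_add, Real.exp_add]
  have : κ * (1 / 8) = κ / 8 := by ring
  rw [this]
  ring

theorem factor_le (hK : 1 ≤ K) (hκ : 0 ≤ κ) (hD : 1 ≤ D) (hY : ∀ i, IsY K κ (F i) (Y i))
    (hF : ∀ i, (((discr (F i)).natAbs : ℕ) : ℝ) ≤ D) (i : ι) {w : ℂ} (h1 : -(1 / 4) ≤ w.re)
    (h2 : w.re ≤ 1 / 2) :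
    ‖Y i (1 + w)‖ ≤ BB K κ * D * Real.exp ((κ + 1) * |w.im|) ∧
    ‖Y i (1 + w) - w * deriv (Y i) (1 + w)‖ ≤ BB K κ * D * Real.exp ((κ + 1) * |w.im|) := by
  have hre : (1 + w).re = 1 + w.re := by simp
  have him : (1 + w).im = w.im := by simp
  have g1 := Y_le hK hκ hD hY hF i (s := 1 + w) (by rw [hre]; linarith) (by rw [hre]; linarith)
  have g2 := dY_le hK hκ hD hY hF i (s := 1 + w) (by rw [hre]; linarith) (by rw [hre]; linarith)
  rw [him] at g1 g2
  have hi := abs_nonneg w.im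
  have g3 : Real.exp (κ * |w.im|) * Real.exp |w.im| = Real.exp ((κ + 1) * |w.im|) := by
    rw [← Real.exp_add]
    congr 1
    ring
  have g4 : ‖w‖ ≤ Real.exp |w.im| := by
    have h3 := Complex.norm_le_abs_re_add_abs_im w
    have h4 := Real.add_one_le_exp |w.im|
    have h5 : |w.re| ≤ 1 / 2 := abs_le.2 ⟨by linarith, h2⟩
    linarith
  have g5 : 1 ≤ Real.exp |w.im| := Real.one_le_exp hi
  have g6 : 1 ≤ Real.exp (κ / 8) := Real.one_le_exp (by positivity)
  have g7 : Real.exp (κ * |w.im|) ≤ Real.exp ((κ + 1) * |w.im|) := Real.exp_le_exp.2 (by nlinarith)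
  have hK0 : 0 < K := by linarith
  have hD0 : 0 < D := by linarith
  have g8 : 2 * K * D * Real.exp (κ * |w.im|) ≤ 2 * (K * Real.exp (κ / 8)) * D * Real.exp ((κ + 1) * |w.im|) := by
    have : K ≤ K * Real.exp (κ / 8) := le_mul_of_one_le_right hK0.le g6
    gcongr
  have g9 : 0 ≤ K * Real.exp (κ / 8) * D * Real.exp ((κ + 1) * |w.im|) := by positivity
  constructor
  · refine g1.trans (g8.trans ?_)
    unfold BB
    nlinarith
  · refine (norm_sub_le _ _).trans ?_
    rw [norm_mul]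
    have g10 : ‖w‖ * ‖deriv (Y i) (1 + w)‖ ≤ 16 * K * Real.exp (κ / 8) * D * Real.exp ((κ + 1) * |w.im|) := by
      calc ‖w‖ * ‖deriv (Y i) (1 + w)‖ ≤ Real.exp |w.im| *
            (16 * K * Real.exp (κ / 8) * D * Real.exp (κ * |w.im|)) := by gcongr
        _ = 16 * K * Real.exp (κ / 8) * D * (Real.exp (κ * |w.im|) * Real.exp |w.im|) := by ring
        _ = _ := by rw [g3]
    unfold BB
    nlinarith

theorem BB_one (hK : 1 ≤ K) (hκ : 0 ≤ κ) : 1 ≤ BB K κ := by
  unfold BB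
  have g6 : 1 ≤ Real.exp (κ / 8) := Real.one_le_exp (by positivity)
  nlinarith

theorem PP_le (hK : 1 ≤ K) (hκ : 0 ≤ κ) (hD : 1 ≤ D) (hY : ∀ i, IsY K κ (F i) (Y i))
    (hF : ∀ i, (((discr (F i)).natAbs : ℕ) : ℝ) ≤ D) {k : ℕ} (hk : Fintype.card ι ≤ k) {w : ℂ}
    (h1 : -(1 / 4) ≤ w.re) (h2 : w.re ≤ 1 / 2) :
    ‖PP Y w‖ ≤ (Real.exp 1 * (BB K κ * D)) ^ k * Real.exp ((k * (κ + 1)) * |w.im|) := by
  have hB := BB_one hK hκ
  have hω : 1 ≤ BB K κ * D * Real.exp ((κ + 1) * |w.im|) := by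
    have : 1 ≤ Real.exp ((κ + 1) * |w.im|) := Real.one_le_exp (by positivity)
    calc (1 : ℝ) = 1 * 1 * 1 := by norm_num
      _ ≤ _ := by gcongr
  unfold PP
  rw [norm_mul, norm_pow, norm_prod]
  have e1 : Real.exp ((k * (κ + 1)) * |w.im|) = Real.exp ((κ + 1) * |w.im|) ^ k := by
    rw [← Real.exp_nat_mul]
    congr 1
    ring
  rw [e1, mul_pow, mul_assoc, ← mul_pow]
  have he : (1 : ℝ) ≤ Real.exp 1 := Real.one_le_exp (by norm_num)
  have q1 : ‖qq w‖ ^ Fintype.card ι ≤ Real.exp 1 ^ k :=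
    (pow_le_pow_left₀ (norm_nonneg _) (qq_le (by linarith)) _).trans (pow_le_pow_right₀ he hk)
  have q2 : ∏ i, ‖Y i (1 + w)‖ ≤ (BB K κ * D * Real.exp ((κ + 1) * |w.im|)) ^ k := by
    calc ∏ i, ‖Y i (1 + w)‖ ≤ ∏ _i : ι, (BB K κ * D * Real.exp ((κ + 1) * |w.im|)) :=
          Finset.prod_le_prod (fun _ _ => norm_nonneg _) fun i _ => (factor_le hK hκ hD hY hF i h1 h2).1
      _ = (BB K κ * D * Real.exp ((κ + 1) * |w.im|)) ^ Fintype.card ι := by
          rw [Finset.prod_const, Finset.card_univ]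
      _ ≤ _ := pow_le_pow_right₀ hω hk
  exact mul_le_mul q1 q2 (Finset.prod_nonneg fun _ _ => norm_nonneg _) (by positivity)

theorem GG_le (hK : 1 ≤ K) (hκ : 0 ≤ κ) (hD : 1 ≤ D) (hY : ∀ i, IsY K κ (F i) (Y i))
    (hF : ∀ i, (((discr (F i)).natAbs : ℕ) : ℝ) ≤ D) {k W : ℕ} (hk : Fintype.card ι ≤ k)
    (hW : ∀ i, |a i| ≤ W) {w : ℂ}
    (h1 : -(1 / 4) ≤ w.re) (h2 : w.re ≤ 1 / 2) :
    ‖GG Y a w‖ ≤ k * W * (Real.exp 1 * (BB K κ * D)) ^ k * Real.exp ((k * (κ + 1)) * |w.im|) := by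
  have hB := BB_one hK hκ
  obtain ⟨ω, hω'⟩ : ∃ ω : ℝ, ω = BB K κ * D * Real.exp ((κ + 1) * |w.im|) := ⟨_, rfl⟩
  have hω : 1 ≤ ω := by
    rw [hω']
    have : 1 ≤ Real.exp ((κ + 1) * |w.im|) := Real.one_le_exp (by positivity)
    calc (1 : ℝ) = 1 * 1 * 1 := by norm_num
      _ ≤ _ := by gcongr
  unfold GG
  rw [norm_mul, norm_pow]
  have e1 : Real.exp ((k * (κ + 1)) * |w.im|) = Real.exp ((κ + 1) * |w.im|) ^ k := by
    rw [← Real.exp_nat_mul]
    congr 1
    ring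
  have e2 : k * W * (Real.exp 1 * (BB K κ * D)) ^ k * Real.exp ((k * (κ + 1)) * |w.im|) =
      Real.exp 1 ^ k * (k * (W * ω ^ k)) := by
    rw [e1, hω', mul_pow, mul_pow (BB K κ * D)]
    ring
  rw [e2]
  have he : (1 : ℝ) ≤ Real.exp 1 := Real.one_le_exp (by norm_num)
  have q1 : ‖qq w‖ ^ Fintype.card ι ≤ Real.exp 1 ^ k :=
    (pow_le_pow_left₀ (norm_nonneg _) (qq_le (by linarith)) _).trans (pow_le_pow_right₀ he hk)
  have q2 : ∀ i, ‖(a i : ℂ) * ((Y i (1 + w) - w * deriv (Y i) (1 + w)) *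
      ∏ j ∈ Finset.univ.erase i, Y j (1 + w))‖ ≤ W * ω ^ k := by
    intro i
    rw [norm_mul, norm_mul, norm_prod]
    have g1 : ‖(a i : ℂ)‖ ≤ W := by
      rw [Complex.norm_intCast]
      exact_mod_cast hW i
    have g2 : ∏ j ∈ Finset.univ.erase i, ‖Y j (1 + w)‖ ≤ ω ^ (Fintype.card ι - 1) := by
      calc ∏ j ∈ Finset.univ.erase i, ‖Y j (1 + w)‖ ≤ ∏ _j ∈ Finset.univ.erase i, ω :=
            Finset.prod_le_prod (fun _ _ => norm_nonneg _) fun j _ => by
              rw [hω']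
              exact (factor_le hK hκ hD hY hF j h1 h2).1
        _ = _ := by
          rw [Finset.prod_const, Finset.card_erase_of_mem (Finset.mem_univ i), Finset.card_univ]
    have g3 : ‖Y i (1 + w) - w * deriv (Y i) (1 + w)‖ ≤ ω := by
      rw [hω']
      exact (factor_le hK hκ hD hY hF i h1 h2).2
    have hc : 0 < Fintype.card ι := Fintype.card_pos_iff.2 ⟨i⟩
    have g4 : ω * ω ^ (Fintype.card ι - 1) ≤ ω ^ k := by
      rw [← pow_succ', Nat.sub_add_cancel hc]
      exact pow_le_pow_right₀ hω hk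
    calc _ ≤ (W : ℝ) * (ω * ω ^ (Fintype.card ι - 1)) := by gcongr
      _ ≤ _ := by gcongr
  refine mul_le_mul q1 ?_ (norm_nonneg _) (by positivity)
  refine (norm_sum_le _ _).trans ((Finset.sum_le_sum fun i _ => q2 i).trans ?_)
  rw [Finset.sum_const, Finset.card_univ, nsmul_eq_mul]
  have : (Fintype.card ι : ℝ) ≤ k := by exact_mod_cast hk
  gcongr

theorem GG_zero : GG Y a 0 = (∑ i, (a i : ℂ)) * ∏ i, Y i 1 := by
  unfold GG
  rw [qq_zero, one_pow, one_mul, Finset.sum_mul]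
  refine Finset.sum_congr rfl fun i _ => ?_
  rw [add_zero, zero_mul, sub_zero, Finset.mul_prod_erase _ (fun j => Y j 1) (Finset.mem_univ i)]

end family

end Pool.Agent.K1H79.TOS
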