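import Pool.Agent.K1H79.TOR.Dec
import Pool.Agent.K1H79.TOS.Many

/-! # The number of primes of degree one and the decomposition groups -/

set_option autoImplicit false
set_option linter.unusedSectionVars false
set_option linter.unusedVariables false

namespace Pool.Agent.K1H79.TOS

open NumberField Pointwise Ideal
open Pool.Agent.K1H79.TOR (span_prime span_ne_bot mem_of_over)

variable {N : Type} [Field N] [NumberField N] [IsGalois ℚ N]

/-- the inertia groups above `p` are trivial -/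
def Unr (N : Type) [Field N] [NumberField N] [IsGalois ℚ N] (p : ℕ) : Prop :=
  ∀ P : Ideal (𝓞 N), P.IsPrime → P.LiesOver (Ideal.span {(p : ℤ)}) → P.inertia Gal(N/ℚ) = ⊥

theorem card_stab {p : ℕ} (hp : p.Prime) (hu : Unr N p) (P : Ideal (𝓞 N)) [P.IsPrime]
    [P.LiesOver (Ideal.span {(p : ℤ)})] :
    Nat.card (MulAction.stabilizer Gal(N/ℚ) P) = P.inertiaDeg ℤ := by
  have hm := span_prime hp
  have : Finite (ℤ ⧸ Ideal.span {(p : ℤ)}) := Ring.HasFiniteQuotients.finiteQuotient (span_ne_bot hp)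
  rw [card_stabilizer_eq_card_inertia_mul_finrank (Ideal.span {(p : ℤ)}) P,
    hu P inferInstance inferInstance, Subgroup.card_bot, one_mul]

theorem inertia_sub {p : ℕ} (hu : Unr N p) (U : Subgroup Gal(N/ℚ)) (P : Ideal (𝓞 N)) [P.IsPrime]
    [P.LiesOver (Ideal.span {(p : ℤ)})] : P.inertia U = ⊥ := by
  rw [eq_bot_iff]
  intro u hu'
  have h1 : (u : Gal(N/ℚ)) ∈ P.inertia Gal(N/ℚ) := Ideal.coe_mem_inertia.2 hu'
  rw [hu P inferInstance inferInstance, Subgroup.mem_bot] at h1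
  rw [Subgroup.mem_bot]
  exact Subtype.ext h1

theorem gg (U : Subgroup Gal(N/ℚ)) (F : Type) [Field F] [NumberField F] [Algebra F N]
    [IsGaloisGroup U F N] : IsGaloisGroup U (𝓞 F) (𝓞 N) where
  faithful := ⟨fun {u v} h => by
    have hf : FaithfulSMul Gal(N/ℚ) (𝓞 N) :=
      (inferInstance : IsGaloisGroup Gal(N/ℚ) ℤ (𝓞 N)).faithful
    exact Subtype.ext (hf.eq_of_smul_eq_smul (fun x => h x))⟩
  commutes := by
    refine ⟨fun g x y => ?_⟩
    have hG : SMulCommClass U F N := IsGaloisGroup.commutes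
    have h1 := hG.smul_comm g (x : F) (y : N)
    refine RingOfIntegers.ext ?_
    have e1 : ((g • x • y : 𝓞 N) : N) = g • (x : F) • (y : N) := by
      rw [Algebra.smul_def (x : F) (y : N)]
      rfl
    have e2 : ((x • g • y : 𝓞 N) : N) = (x : F) • g • (y : N) := by
      rw [Algebra.smul_def (x : F) (g • (y : N))]
      rfl
    rw [e1, e2, h1]
  isInvariant := by
    refine ⟨fun a ha => ?_⟩
    have hG : IsGaloisGroup U F N := inferInstance
    obtain ⟨b, hb⟩ := hG.isInvariant.isInvariant (a : N) fun g =>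
      congrArg (fun y : 𝓞 N => (y : N)) (ha g)
    have hb2 : IsIntegral ℤ b := by
      rw [← isIntegral_algebraMap_iff (algebraMap F N).injective, hb]
      exact RingOfIntegers.isIntegral_coe a
    exact ⟨⟨b, hb2⟩, RingOfIntegers.ext hb⟩

theorem under_ne_bot {p : ℕ} (hp : p.Prime) (F : Type) [Field F] [NumberField F] [Algebra F N]
    (P : Ideal (𝓞 N)) [P.LiesOver (Ideal.span {(p : ℤ)})] :
    (P.under (𝓞 F)).LiesOver (Ideal.span {(p : ℤ)}) ∧ P.under (𝓞 F) ≠ ⊥ := by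
  have h1 : (P.under (𝓞 F)).LiesOver (Ideal.span {(p : ℤ)}) := by
    refine ⟨?_⟩
    rw [Ideal.under_under]
    exact (inferInstance : P.LiesOver (Ideal.span {(p : ℤ)})).over
  exact ⟨h1, Ideal.ne_bot_of_liesOver_of_ne_bot (span_ne_bot hp) _⟩

theorem card_stab_sub {p : ℕ} (hp : p.Prime) (hu : Unr N p) (U : Subgroup Gal(N/ℚ))
    (F : Type) [Field F] [NumberField F] [Algebra F N] [IsGaloisGroup U F N]
    (P : Ideal (𝓞 N)) [P.IsPrime] [P.LiesOver (Ideal.span {(p : ℤ)})] :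
    Nat.card (MulAction.stabilizer U P) = P.inertiaDeg (𝓞 F) := by
  have hgg := gg U F
  obtain ⟨h1, h2⟩ := under_ne_bot hp F P
  have hm : (P.under (𝓞 F)).IsMaximal := (inferInstance : (P.under (𝓞 F)).IsPrime).isMaximal h2
  have : Finite (𝓞 F ⧸ P.under (𝓞 F)) := Ring.HasFiniteQuotients.finiteQuotient h2
  have h3 := card_stabilizer_eq_card_inertia_mul_finrank (G := U) (P.under (𝓞 F)) P
  rw [inertia_sub hu U P, Subgroup.card_bot, one_mul] at h3
  exact h3

/-- the primes of `N` above a prime of `F` -/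
theorem ncard_over {p : ℕ} (hp : p.Prime) (hu : Unr N p) (U : Subgroup Gal(N/ℚ))
    (F : Type) [Field F] [NumberField F] [Algebra F N] [IsGaloisGroup U F N]
    (P : Ideal (𝓞 N)) [P.IsPrime] [P.LiesOver (Ideal.span {(p : ℤ)})] :
    ((P.under (𝓞 F)).primesOver (𝓞 N)).ncard * P.inertiaDeg (𝓞 F) = Nat.card U := by
  have hgg := gg U F
  obtain ⟨h1, h2⟩ := under_ne_bot hp F P
  have hm : (P.under (𝓞 F)).IsMaximal := (inferInstance : (P.under (𝓞 F)).IsPrime).isMaximal h2
  have : Finite (𝓞 F ⧸ P.under (𝓞 F)) := Ring.HasFiniteQuotients.finiteQuotient h2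
  have h3 := ncard_primesOver_mul_card_inertia_mul_finrank (G := U) (P.under (𝓞 F)) P
  rw [inertia_sub hu U P, Subgroup.card_bot, mul_one] at h3
  exact h3

theorem norm_under {p : ℕ} (hp : p.Prime) (hu : Unr N p) (U : Subgroup Gal(N/ℚ))
    (F : Type) [Field F] [NumberField F] [Algebra F N] [IsGaloisGroup U F N]
    (P : Ideal (𝓞 N)) [P.IsPrime] [P.LiesOver (Ideal.span {(p : ℤ)})] :
    absNorm (P.under (𝓞 F)) = p ↔ MulAction.stabilizer Gal(N/ℚ) P ≤ U := by
  obtain ⟨h1, h2⟩ := under_ne_bot hp F P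
  have e1 := card_stab hp hu P
  have e2 := card_stab_sub hp hu U F P
  have e3 := inertiaDeg_tower (R := ℤ) (P.under (𝓞 F)) P
  have e4 := pow_inertiaDeg p (P.under (𝓞 F))
  -- the stabiliser in `U`
  have e5 : Nat.card (MulAction.stabilizer U P) = Nat.card (MulAction.stabilizer Gal(N/ℚ) P ⊓ U : Subgroup _) := by
    refine Nat.card_congr ⟨fun u => ⟨u.1.1, ⟨u.2, u.1.2⟩⟩, fun x => ⟨⟨x.1, x.2.2⟩, x.2.1⟩, fun u => rfl,
      fun x => rfl⟩
  have hpos : 0 < Nat.card (MulAction.stabilizer U P) := Nat.card_pos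
  constructor
  · intro h
    rw [h] at e4
    have e6 : (P.under (𝓞 F)).inertiaDeg ℤ = 1 := by
      exact Nat.pow_right_injective hp.two_le (by simpa using e4)
    rw [e6, one_mul, ← e1, ← e2, e5] at e3
    have e7 : MulAction.stabilizer Gal(N/ℚ) P ⊓ U = MulAction.stabilizer Gal(N/ℚ) P :=
      Subgroup.eq_of_le_of_card_ge inf_le_left e3.le
    exact inf_eq_left.1 e7
  · intro h
    rw [inf_eq_left.2 h] at e5
    rw [← e1, ← e2, e5] at e3
    rw [e5] at hpos
    have e6 : (P.under (𝓞 F)).inertiaDeg ℤ = 1 := by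
      have : (P.under (𝓞 F)).inertiaDeg ℤ * Nat.card (MulAction.stabilizer Gal(N/ℚ) P) =
        1 * Nat.card (MulAction.stabilizer Gal(N/ℚ) P) := by rw [one_mul]; exact e3.symm
      exact Nat.eq_of_mul_eq_mul_right hpos this
    rw [← e4, e6, pow_one]

open Classical in
/-- the number of the primes of degree one -/
theorem dg_mul {p : ℕ} (hp : p.Prime) (hu : Unr N p) (U : Subgroup Gal(N/ℚ))
    (F : Type) [Field F] [NumberField F] [Algebra F N] [IsGaloisGroup U F N]
    (S : Finset (Ideal (𝓞 N))) (hS : ∀ P, P ∈ S ↔ P ∈ primesOver (Ideal.span {(p : ℤ)}) (𝓞 N)) :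
    dg F p * Nat.card U = ∑ P ∈ S, if MulAction.stabilizer Gal(N/ℚ) P ≤ U then
      Nat.card (MulAction.stabilizer Gal(N/ℚ) P) else 0 := by
  have hm := span_prime hp
  have hfin : {Q : Ideal (𝓞 F) | absNorm Q = p}.Finite := Ideal.finite_setOfPred_absNorm_eq p
  have hdg : dg F p = hfin.toFinset.card := by
    unfold dg
    rw [Set.ncard_eq_toFinset_card _ hfin]
  rw [← Finset.sum_filter, hdg, ← smul_eq_mul, ← Finset.sum_const]
  have hmaps : ∀ P ∈ S.filter (fun P => MulAction.stabilizer Gal(N/ℚ) P ≤ U),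
      P.under (𝓞 F) ∈ hfin.toFinset := by
    intro P hP
    rw [Finset.mem_filter, hS] at hP
    obtain ⟨⟨h1, h2⟩, h3⟩ := hP
    rw [Set.Finite.mem_toFinset]
    exact (norm_under hp hu U F P).2 h3
  rw [← Finset.sum_fiberwise_of_maps_to hmaps]
  refine Finset.sum_congr rfl fun Q hQ => ?_
  rw [Set.Finite.mem_toFinset] at hQ
  have hQn : absNorm Q = p := hQ
  have hQp : Q.IsPrime := isPrime_of_irreducible_absNorm (by rw [hQn]; exact hp)
  have hQ0 : Q ≠ ⊥ := by
    rintro rfl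
    rw [absNorm_bot] at hQn
    exact hp.ne_zero hQn.symm
  have hQm : Q.IsMaximal := hQp.isMaximal hQ0
  obtain ⟨P0⟩ : Nonempty (Q.primesOver (𝓞 N)) := inferInstance
  have hP0 : P0.1.IsPrime := inferInstance
  have hP0Q : P0.1.LiesOver Q := inferInstance
  have hQu : Q = P0.1.under (𝓞 F) := hP0Q.over
  have hpQ : ((p : ℕ) : 𝓞 F) ∈ Q := by
    rw [← hQn]; exact absNorm_mem Q
  have hQZ : Q.LiesOver (Ideal.span {(p : ℤ)}) := by
    refine ⟨?_⟩
    have h1 : Ideal.span {(p : ℤ)} ≤ Q.under ℤ := by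
      rw [Ideal.span_le, Set.singleton_subset_iff, SetLike.mem_coe, Ideal.under_def, Ideal.mem_comap]
      simpa using hpQ
    exact hm.eq_of_le (inferInstance : (Q.under ℤ).IsPrime).ne_top h1
  have hlie : ∀ P : Ideal (𝓞 N), P.LiesOver Q → P.LiesOver (Ideal.span {(p : ℤ)}) := fun P h =>
    Ideal.LiesOver.trans P Q _
  have hP0Z := hlie P0.1 hP0Q
  have hset : (S.filter (fun P => MulAction.stabilizer Gal(N/ℚ) P ≤ U)).filter
      (fun P => P.under (𝓞 F) = Q) = (IsDedekindDomain.primesOver_finite Q (𝓞 N)).toFinset := by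
    ext P
    rw [Finset.mem_filter, Finset.mem_filter, hS, Set.Finite.mem_toFinset]
    constructor
    · rintro ⟨⟨⟨h1, h2⟩, h3⟩, h4⟩
      exact ⟨h1, ⟨h4.symm⟩⟩
    · rintro ⟨h1, h2⟩
      have h3 := hlie P h2
      have h4 : Q = P.under (𝓞 F) := h2.over
      refine ⟨⟨⟨h1, h3⟩, ?_⟩, h4.symm⟩
      rw [← norm_under hp hu U F P, ← h4]
      exact hQn
  rw [hset]
  have hterm : ∀ P ∈ (IsDedekindDomain.primesOver_finite Q (𝓞 N)).toFinset,
      Nat.card (MulAction.stabilizer Gal(N/ℚ) P) = P0.1.inertiaDeg (𝓞 F) := by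
    intro P hP
    rw [Set.Finite.mem_toFinset] at hP
    obtain ⟨h1, h2⟩ := hP
    have h3 := hlie P h2
    have h4 : Q = P.under (𝓞 F) := h2.over
    have h5 : MulAction.stabilizer Gal(N/ℚ) P ≤ U := by
      rw [← norm_under hp hu U F P, ← h4]
      exact hQn
    have h6 : Nat.card (MulAction.stabilizer U P) = Nat.card (MulAction.stabilizer Gal(N/ℚ) P) :=
      Nat.card_congr ⟨fun u => ⟨u.1.1, u.2⟩, fun x => ⟨⟨x.1, h5 x.2⟩, x.2⟩, fun u => rfl, fun x => rfl⟩
    have h7 := ncard_over hp hu U F P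
    have h8 := ncard_over hp hu U F P0.1
    rw [← h4] at h7
    rw [← hQu] at h8
    have h9 : 0 < (Q.primesOver (𝓞 N)).ncard := by
      rcases Nat.eq_zero_or_pos (Q.primesOver (𝓞 N)).ncard with h | h
      · rw [h, zero_mul] at h8
        have := Nat.card_pos (α := U)
        omega
      · exact h
    rw [← h6, card_stab_sub hp hu U F P]
    exact Nat.eq_of_mul_eq_mul_left h9 (h7.trans h8.symm)
  rw [Finset.sum_congr rfl hterm, Finset.sum_const, smul_eq_mul,
    ← Set.ncard_eq_toFinset_card _ (IsDedekindDomain.primesOver_finite Q (𝓞 N))]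
  have h8 := ncard_over hp hu U F P0.1
  rw [← hQu] at h8
  exact h8.symm

/-- the decomposition groups are cyclic -/
theorem stab_cyc {p : ℕ} (hp : p.Prime) (hu : Unr N p) (P : Ideal (𝓞 N)) [P.IsPrime]
    [P.LiesOver (Ideal.span {(p : ℤ)})] :
    ∃ σ : Gal(N/ℚ), MulAction.stabilizer Gal(N/ℚ) P = Subgroup.zpowers σ := by
  have hm := span_prime hp
  have : Finite (ℤ ⧸ Ideal.span {(p : ℤ)}) := Ring.HasFiniteQuotients.finiteQuotient (span_ne_bot hp)
  have hP0 : P ≠ ⊥ := Ideal.ne_bot_of_liesOver_of_ne_bot (span_ne_bot hp) P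
  have hPm : P.IsMaximal := (inferInstance : P.IsPrime).isMaximal hP0
  have hin2 : P.inertia Gal(N/ℚ) = ⊥ := hu P inferInstance inferInstance
  have hinj : Function.Injective (Ideal.Quotient.stabilizerHom P (Ideal.span {(p : ℤ)}) Gal(N/ℚ)) := by
    rw [← MonoidHom.ker_eq_bot_iff]
    have h1 := Ideal.Quotient.map_ker_stabilizer_subtype P (Ideal.span {(p : ℤ)}) Gal(N/ℚ)
    rw [hin2, Subgroup.map_eq_bot_iff_of_injective _ (Subgroup.subtype_injective _)] at h1
    exact h1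
  have hfin : Finite (𝓞 N ⧸ P) := Ring.HasFiniteQuotients.finiteQuotient hP0
  let _ : Field (𝓞 N ⧸ P) := Ideal.Quotient.field P
  let _ : Field (ℤ ⧸ Ideal.span {(p : ℤ)}) := Ideal.Quotient.field _
  have hc : IsCyclic ((𝓞 N ⧸ P) ≃ₐ[ℤ ⧸ Ideal.span {(p : ℤ)}] (𝓞 N ⧸ P)) := inferInstance
  have hcy : IsCyclic (MulAction.stabilizer Gal(N/ℚ) P) := isCyclic_of_injective _ hinj
  obtain ⟨⟨σ, hσ⟩, hgen⟩ := hcy.exists_generator
  refine ⟨σ, le_antisymm ?_ (Subgroup.zpowers_le.2 hσ)⟩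
  intro x hx
  obtain ⟨k, hk⟩ := Subgroup.mem_zpowers_iff.1 (hgen ⟨x, hx⟩)
  exact Subgroup.mem_zpowers_iff.2 ⟨k, congrArg Subtype.val hk⟩

end Pool.Agent.K1H79.TOS
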