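import Pool.Agent.H986R2.DBN.Stir2

/-! # Bounds for the gamma factors -/

set_option autoImplicit false

namespace Pool.Agent.K1H79.TOS

open Complex

theorem norm_sin_le (z : ℂ) : ‖Complex.sin z‖ ≤ Real.exp |z.im| * ‖z‖ := by
  have hs : Convex ℝ {w : ℂ | |w.im| ≤ |z.im|} := by
    have h1 : {w : ℂ | |w.im| ≤ |z.im|} = Complex.imLm ⁻¹' (Set.Icc (-|z.im|) |z.im|) := by
      ext w
      simp [abs_le]
    rw [h1]
    exact (convex_Icc _ _).linear_preimage _
  have h := Convex.norm_image_sub_le_of_norm_deriv_le (𝕜 := ℂ) (f := Complex.sin)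
    (C := Real.exp |z.im|) (s := {w : ℂ | |w.im| ≤ |z.im|}) (x := 0) (y := z)
    (fun w _ => Complex.differentiable_sin w) (fun w hw => ?_) hs (by simp) (by simp)
  · simpa using h
  · rw [Complex.deriv_sin]
    have h1 : ‖Complex.cos w‖ ≤ Real.exp |w.im| := by
      rw [Complex.cos]
      rw [norm_div]
      have h2 : ‖(2 : ℂ)‖ = 2 := by simp
      rw [h2, div_le_iff₀ (by norm_num)]
      refine (norm_add_le _ _).trans ?_
      rw [Complex.norm_exp, Complex.norm_exp]
      have e1 : (w * I).re = -w.im := by simp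
      have e2 : (-w * I).re = w.im := by simp
      rw [e1, e2]
      have h3 := Real.exp_le_exp.2 (neg_le_abs w.im)
      have h4 := Real.exp_le_exp.2 (le_abs_self w.im)
      linarith
    exact h1.trans (Real.exp_le_exp.2 hw)

/-- the inverse of the gamma function -/
theorem inv_gamma {w : ℂ} (h0 : 0 < w.re) (h1 : w.re ≤ 3 / 2) :
    ‖(Complex.Gamma w)⁻¹‖ ≤ 2 * Real.exp (Real.pi * |w.im|) := by
  by_cases hw : w = 1
  · rw [hw, Complex.Gamma_one]
    simp
  have hpi := Real.pi_pos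
  have hpic : (Real.pi : ℂ) ≠ 0 := by exact_mod_cast hpi.ne'
  have hw1 : 1 - w ≠ 0 := sub_ne_zero.2 (Ne.symm hw)
  have hG : Complex.Gamma w ≠ 0 := Complex.Gamma_ne_zero_of_re_pos h0
  have e1 := Complex.Gamma_mul_Gamma_one_sub w
  have e2 := Complex.Gamma_add_one (1 - w) hw1
  have e3 : 1 - w + 1 = 2 - w := by ring
  rw [e3] at e2
  have hG2 : Complex.Gamma (2 - w) ≠ 0 := Complex.Gamma_ne_zero_of_re_pos (by
    have : (2 - w).re = 2 - w.re := by simp
    rw [this]; linarith)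
  have hG1 : Complex.Gamma (1 - w) ≠ 0 := by
    intro h
    rw [h, mul_zero] at e2
    exact hG2 e2
  have hsin : Complex.sin (Real.pi * w) ≠ 0 := by
    intro h
    rw [h, div_zero] at e1
    rcases mul_eq_zero.1 e1 with h2 | h2
    · exact hG h2
    · exact hG1 h2
  have e4 : (Complex.Gamma w)⁻¹ = Complex.Gamma (2 - w) * (Complex.sin (Real.pi * (1 - w)) / (Real.pi * (1 - w))) := by
    have e5 : Complex.sin (Real.pi * (1 - w)) = Complex.sin (Real.pi * w) := by
      rw [mul_sub, mul_one, Complex.sin_pi_sub]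
    rw [e5, e2]
    have e6 : Complex.Gamma w * Complex.Gamma (1 - w) * Complex.sin (Real.pi * w) = Real.pi := by
      rw [e1, div_mul_cancel₀ _ hsin]
    have hR : (1 - w) * Complex.Gamma (1 - w) * (Complex.sin (Real.pi * w) / (Real.pi * (1 - w))) =
        Complex.Gamma (1 - w) * Complex.sin (Real.pi * w) / Real.pi := by
      field_simp
    rw [hR, inv_eq_iff_eq_inv, inv_div, eq_div_iff (mul_ne_zero hG1 hsin), ← mul_assoc]
    exact e6
  have h3 : ‖Complex.Gamma (2 - w)‖ ≤ 2 := by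
    have e7 : (2 - w).re = 2 - w.re := by simp
    have h4 := Pool.Agent.H986R2.DBN.Stir2Aux.norm_Gamma_le (s := 2 - w) (by rw [e7]; linarith)
    refine h4.trans ?_
    rw [e7]
    have h5 := Real.convexOn_Gamma.le_max_of_mem_Icc (x := 1 / 2) (y := 2) (z := 2 - w.re)
      (by norm_num [Set.mem_Ioi]) (by norm_num [Set.mem_Ioi]) ⟨by linarith, by linarith⟩
    refine h5.trans ?_
    rw [Real.Gamma_one_half_eq, Real.Gamma_two]
    refine max_le ?_ (by norm_num)
    rw [Real.sqrt_le_left (by norm_num)]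
    linarith [Real.pi_lt_four]
  have h6 : ‖Complex.sin (Real.pi * (1 - w)) / (Real.pi * (1 - w))‖ ≤ Real.exp (Real.pi * |w.im|) := by
    have hne : (Real.pi : ℂ) * (1 - w) ≠ 0 := mul_ne_zero hpic hw1
    rw [norm_div, div_le_iff₀ (norm_pos_iff.2 hne)]
    refine (norm_sin_le _).trans (le_of_eq ?_)
    have e8 : ((Real.pi : ℂ) * (1 - w)).im = -(Real.pi * w.im) := by simp
    rw [e8, abs_neg, abs_mul, abs_of_pos hpi]
  rw [e4, norm_mul]
  exact mul_le_mul h3 h6 (norm_nonneg _) (by norm_num)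

/-- the inverse of the archimedean factor -/
theorem inv_gammaR {s : ℂ} (h0 : 0 < s.re) (h1 : s.re ≤ 3) :
    ‖(Complex.Gammaℝ s)⁻¹‖ ≤ 20 * Real.exp (2 * |s.im|) := by
  have hpi := Real.pi_pos
  rw [Complex.Gammaℝ_def, mul_inv, norm_mul]
  have e1 : (s / 2 : ℂ).re = s.re / 2 := by
    have : (s / 2 : ℂ) = ((1 / 2 : ℝ) : ℂ) * s := by push_cast; ring
    rw [this, Complex.re_ofReal_mul]; ring
  have e2 : (s / 2 : ℂ).im = s.im / 2 := by
    have : (s / 2 : ℂ) = ((1 / 2 : ℝ) : ℂ) * s := by push_cast; ring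
    rw [this, Complex.im_ofReal_mul]; ring
  have h2 := inv_gamma (w := s / 2) (by rw [e1]; linarith) (by rw [e1]; linarith)
  rw [e2] at h2
  have h3 : ‖((Real.pi : ℂ) ^ (-s / 2))⁻¹‖ ≤ 10 := by
    rw [norm_inv, Complex.norm_cpow_eq_rpow_re_of_pos hpi, ← Real.rpow_neg hpi.le]
    have e3 : -(-s / 2 : ℂ).re = s.re / 2 := by
      have : (-s / 2 : ℂ) = ((-(1 / 2) : ℝ) : ℂ) * s := by push_cast; ring
      rw [this, Complex.re_ofReal_mul]; ring
    rw [e3]
    calc Real.pi ^ (s.re / 2) ≤ Real.pi ^ (2 : ℝ) :=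
          Real.rpow_le_rpow_of_exponent_le (by linarith [Real.pi_gt_three]) (by linarith)
      _ = Real.pi ^ 2 := Real.rpow_two _
      _ ≤ 10 := by nlinarith [Real.pi_lt_d2, Real.pi_gt_three]
  have h4 : Real.exp (Real.pi * |s.im / 2|) ≤ Real.exp (2 * |s.im|) := by
    refine Real.exp_le_exp.2 ?_
    rw [abs_div, abs_of_pos (show (0 : ℝ) < 2 by norm_num)]
    have := abs_nonneg s.im
    nlinarith [Real.pi_lt_four]
  calc _ ≤ 10 * (2 * Real.exp (Real.pi * |s.im / 2|)) :=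
        mul_le_mul h3 h2 (norm_nonneg _) (by norm_num)
    _ ≤ 10 * (2 * Real.exp (2 * |s.im|)) := by gcongr
    _ = _ := by ring

/-- the archimedean factor on the line `Re s = 2` -/
theorem gammaR_le {s : ℂ} (h : s.re = 2 ∨ s.re = 3) : ‖Complex.Gammaℝ s‖ ≤ 1 := by
  have hpi := Real.pi_pos
  rw [Complex.Gammaℝ_def, norm_mul]
  have e1 : (s / 2 : ℂ).re = s.re / 2 := by
    have : (s / 2 : ℂ) = ((1 / 2 : ℝ) : ℂ) * s := by push_cast; ring
    rw [this, Complex.re_ofReal_mul]; ring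
  have h0 : 2 ≤ s.re := by rcases h with h | h <;> rw [h]; norm_num
  have h2 := Pool.Agent.H986R2.DBN.Stir2Aux.norm_Gamma_le (s := s / 2) (by rw [e1]; linarith)
  rw [e1] at h2
  have h3 : ‖(Real.pi : ℂ) ^ (-s / 2)‖ ≤ 1 := by
    rw [Complex.norm_cpow_eq_rpow_re_of_pos hpi]
    have e3 : (-s / 2 : ℂ).re = -(s.re / 2) := by
      have : (-s / 2 : ℂ) = ((-(1 / 2) : ℝ) : ℂ) * s := by push_cast; ring
      rw [this, Complex.re_ofReal_mul]; ring
    rw [e3]
    exact Real.rpow_le_one_of_one_le_of_nonpos (by linarith [Real.pi_gt_three]) (by linarith)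
  have h4 : Real.Gamma (s.re / 2) ≤ 1 := by
    rcases h with h | h
    · rw [h, div_self (by norm_num), Real.Gamma_one]
    · rw [h]
      exact Real.Gamma_three_div_two_lt_one.le
  calc _ ≤ 1 * 1 := mul_le_mul h3 (h2.trans h4) (norm_nonneg _) (by norm_num)
    _ = 1 := one_mul 1

end Pool.Agent.K1H79.TOS
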