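import Pool.Agent.K1H79.TOS.Deg

/-! # The primes which are ramified in a normal closure -/

set_option autoImplicit false
set_option linter.unusedSectionVars false
set_option linter.unusedVariables false

namespace Pool.Agent.K1H79.TOS

open NumberField Pointwise Ideal
open Pool.Agent.K1H79.TOR (span_prime span_ne_bot mem_of_over)

variable {N : Type} [Field N] [NumberField N] [IsGalois ℚ N]

theorem inertia_card {p : ℕ} (hp : p.Prime) (P : Ideal (𝓞 N)) [P.IsPrime]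
    [P.LiesOver (Ideal.span {(p : ℤ)})] :
    Nat.card (P.inertia Gal(N/ℚ)) = P.ramificationIdx ℤ := by
  have hm := span_prime hp
  have : Finite (ℤ ⧸ Ideal.span {(p : ℤ)}) := Ring.HasFiniteQuotients.finiteQuotient (span_ne_bot hp)
  rw [card_inertia_eq_ramificationIdxIn (Ideal.span {(p : ℤ)}) P,
    ramificationIdxIn_eq_ramificationIdx (Ideal.span {(p : ℤ)}) P Gal(N/ℚ)]

theorem inertia_card_sub {p : ℕ} (hp : p.Prime) (U : Subgroup Gal(N/ℚ))
    (F : Type) [Field F] [NumberField F] [Algebra F N] [IsGaloisGroup U F N]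
    (P : Ideal (𝓞 N)) [P.IsPrime] [P.LiesOver (Ideal.span {(p : ℤ)})] :
    Nat.card (P.inertia U) = P.ramificationIdx (𝓞 F) := by
  have hgg := gg U F
  obtain ⟨h1, h2⟩ := under_ne_bot hp F P
  have hm : (P.under (𝓞 F)).IsMaximal := (inferInstance : (P.under (𝓞 F)).IsPrime).isMaximal h2
  have : Finite (𝓞 F ⧸ P.under (𝓞 F)) := Ring.HasFiniteQuotients.finiteQuotient h2
  rw [card_inertia_eq_ramificationIdxIn (P.under (𝓞 F)) P,
    ramificationIdxIn_eq_ramificationIdx (P.under (𝓞 F)) P U]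

theorem inertia_le {H : Subgroup Gal(N/ℚ)} (L : Type) [Field L] [NumberField L] [Algebra L N]
    [IsGaloisGroup H L N] {p : ℕ} (hp : p.Prime) (hd : ¬ (p : ℤ) ∣ discr L) (P : Ideal (𝓞 N)) [P.IsPrime]
    [P.LiesOver (Ideal.span {(p : ℤ)})] : P.inertia Gal(N/ℚ) ≤ H := by
  have hpZ : Prime (p : ℤ) := Nat.prime_iff_prime_int.1 hp
  obtain ⟨h1, h2⟩ := under_ne_bot hp L P
  have e1 := inertia_card hp P
  have e2 := inertia_card_sub hp H L P
  have h3 := (not_dvd_discr_iff_forall_mem L (𝓞 L) hpZ).1 hd (P.under (𝓞 L)) inferInstance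
    (by simpa using mem_of_over (p := p) (P.under (𝓞 L)))
  have e3 : (P.under (𝓞 L)).ramificationIdx ℤ = 1 := Ideal.ramificationIdx_eq_one (P.under (𝓞 L)) ℤ
  have e4 := ramificationIdx_tower (R := ℤ) (P.under (𝓞 L)) P
  rw [e3, one_mul, ← e1, ← e2] at e4
  have e5 : Nat.card (P.inertia H) = Nat.card (P.inertia Gal(N/ℚ) ⊓ H : Subgroup _) := by
    refine Nat.card_congr ⟨fun u => ⟨u.1.1, ⟨Ideal.coe_mem_inertia.2 u.2, u.1.2⟩⟩,
      fun x => ⟨⟨x.1, x.2.2⟩, Ideal.coe_mem_inertia.1 x.2.1⟩, fun u => rfl, fun x => rfl⟩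
  rw [e5] at e4
  have e6 : P.inertia Gal(N/ℚ) ⊓ H = P.inertia Gal(N/ℚ) :=
    Subgroup.eq_of_le_of_card_ge inf_le_left e4.le
  exact inf_eq_left.1 e6

theorem unr_of {H : Subgroup Gal(N/ℚ)} (hH : H.normalCore = ⊥) (L : Type) [Field L] [NumberField L]
    [Algebra L N] [IsGaloisGroup H L N] {p : ℕ} (hp : p.Prime) (hd : ¬ (p : ℤ) ∣ discr L) : Unr N p := by
  intro P hP1 hP2
  rw [eq_bot_iff, ← hH]
  intro σ hσ
  rw [Subgroup.normalCore]
  intro g
  have h1 : (g • P).LiesOver (Ideal.span {(p : ℤ)}) := inferInstance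
  have h2 : (g • P).IsPrime := inferInstance
  refine inertia_le L hp hd (g • P) ?_
  intro x
  have h3 : g • (σ • (g⁻¹ • x) - g⁻¹ • x) ∈ g • P := Ideal.smul_mem_pointwise_smul g _ _ (hσ (g⁻¹ • x))
  rw [smul_sub, smul_inv_smul, ← mul_smul, ← mul_smul] at h3
  exact h3

end Pool.Agent.K1H79.TOS
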