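import Pool.Agent.K1H79.TOS.Comb
import Pool.Agent.K1H79.TOS.Unr
import Pool.Agent.K1H79.TOR.Gap

/-! # Many primes with a moving prime ideal -/

set_option autoImplicit false
set_option linter.unusedSectionVars false
set_option linter.unusedVariables false

namespace Pool.Agent.K1H79.TOS

open NumberField Pointwise Ideal
open ArithmeticFunction (moebius)
open Pool.Agent.K1H79.TOR (span_prime span_ne_bot mem_of_over Sm)

/-- the statement of `many_rel` -/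
def ManyR (m : ℕ) (A : ℝ) : Prop :=
  ∀ (ι : Type) [Fintype ι] (F : ι → Type) [∀ i, Field (F i)] [∀ i, NumberField (F i)]
    (a : ι → ℤ), Fintype.card ι ≤ m → (∀ i, Module.finrank ℚ (F i) ≤ m) → (∀ i, |a i| ≤ m) →
    ∑ i, a i ≠ 0 → ∀ D X : ℝ, 1 ≤ D → (∀ i, (((discr (F i)).natAbs : ℕ) : ℝ) ≤ D) →
    1 < X → A * (1 + Real.log D) ≤ Real.log X →
    ∀ B : Finset ℕ, (∀ p : ℕ, p.Prime → (p : ℝ) ≤ X → p ∉ B → ∑ i, a i * (dg (F i) p : ℤ) = 0) →
    X ^ (1 / 64 : ℝ) ≤ B.card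

variable {N : Type} [Field N] [NumberField N] [IsGalois ℚ N]

/-- the prime ideal `P` and its image under an element of `M` lie above different primes of the fixed
field of `H` -/
def Mv (M H : Subgroup Gal(N/ℚ)) (P : Ideal (𝓞 N)) : Prop :=
  ∃ y ∈ M, ∀ h ∈ H, ∀ s ∈ MulAction.stabilizer Gal(N/ℚ) P, y ≠ s * h

open Classical in
theorem good_primes {m : ℕ} {A : ℝ} (hA1 : 1 ≤ A) (hA : ManyR m A) (hmG : Nat.card Gal(N/ℚ) ≤ m)
    {H : Subgroup Gal(N/ℚ)} (hH : H.normalCore = ⊥) (L : Type) [Field L] [NumberField L] [Algebra L N]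
    [IsGaloisGroup H L N] {M : Subgroup Gal(N/ℚ)} [M.Normal] {g : Gal(N/ℚ)}
    (hg : ∀ x ∈ M, ∃ a : Gal(N/ℚ) ⧸ H, ∃ y ∈ M, ∀ k : ℤ, y • a ≠ (g * x) ^ k • a)
    {t t' X : ℝ} (ht : 1 ≤ t)
    (hup : ((Nat.card Gal(N/ℚ) : ℝ) ^ 2 + t) ^ Nat.card Gal(N/ℚ) ≤ t')
    (hgap : ∀ U : Subgroup Gal(N/ℚ), Sm t' U → Sm t U) (hMt : Sm t M) (hX1 : 1 < X)
    (hX : A * (1 + (m : ℝ) ^ 2 * Real.log (2 * t)) ≤ Real.log X) :
    ∃ (f : ℕ → Ideal (𝓞 N)) (B : Finset ℕ),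
      X ^ (1 / 64 : ℝ) ≤ (B.card : ℝ) + (discr L).natAbs.primeFactors.card ∧
      ∀ p ∈ B, p.Prime ∧ (p : ℝ) ≤ X ∧ ¬ (p : ℤ) ∣ discr L ∧ (f p).IsPrime ∧
        (f p).LiesOver (Ideal.span {(p : ℤ)}) ∧ Mv M H (f p) := by
  have hl2 : 0 ≤ Real.log (2 * t) := Real.log_nonneg (by linarith)
  have hX0 : 0 < X := by linarith
  obtain ⟨Q, hQ⟩ : ∃ Q : ℕ → Prop, ∀ p, Q p ↔ ∃ P : Ideal (𝓞 N), P.IsPrime ∧
      P.LiesOver (Ideal.span {(p : ℤ)}) ∧ Mv M H P := ⟨_, fun _ => Iff.rfl⟩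
  have hex : ∀ p : ℕ, ∃ P : Ideal (𝓞 N), Q p → P.IsPrime ∧ P.LiesOver (Ideal.span {(p : ℤ)}) ∧
      Mv M H P := by
    intro p
    by_cases hp : Q p
    · obtain ⟨P, hP⟩ := (hQ p).1 hp
      exact ⟨P, fun _ => hP⟩
    · exact ⟨⊥, fun h => absurd h hp⟩
  choose f hf using hex
  obtain ⟨U, hU⟩ : ∃ U : Finset ℕ, U = (Finset.range (⌊X⌋₊ + 1)).filter Nat.Prime := ⟨_, rfl⟩
  have hUm : ∀ p, p ∈ U ↔ p.Prime ∧ (p : ℝ) ≤ X := by
    intro p
    rw [hU, Finset.mem_filter, Finset.mem_range, Nat.lt_succ_iff, Nat.le_floor_iff hX0.le, and_comm]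
  obtain ⟨B, hB⟩ : ∃ B : Finset ℕ, B = U.filter (fun p : ℕ => ¬ (p : ℤ) ∣ discr L ∧ Q p) := ⟨_, rfl⟩
  refine ⟨f, B, ?_, ?_⟩
  swap
  · intro p hp
    rw [hB, Finset.mem_filter, hUm] at hp
    obtain ⟨⟨h1, h2⟩, h3, h4⟩ := hp
    exact ⟨h1, h2, h3, hf p h4⟩
  have hD0 : (discr L).natAbs ≠ 0 := Int.natAbs_ne_zero.2 (discr_ne_zero L)
  -- the primes outside of the two sets
  have hout : ∀ p : ℕ, p.Prime → (p : ℝ) ≤ X → p ∉ B ∪ (discr L).natAbs.primeFactors →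
      ¬ (p : ℤ) ∣ discr L ∧ ¬ Q p := by
    intro p hp hpX hpB
    rw [Finset.mem_union, not_or] at hpB
    have h1 : ¬ (p : ℤ) ∣ discr L := fun h => hpB.2 (Nat.mem_primeFactors.2
      ⟨hp, Int.natCast_dvd.1 h, hD0⟩)
    refine ⟨h1, fun h2 => ?_⟩
    apply hpB.1
    rw [hB, Finset.mem_filter, hUm]
    exact ⟨⟨hp, hpX⟩, h1, h2⟩
  have hcard : ((B ∪ (discr L).natAbs.primeFactors).card : ℝ) ≤
      (B.card : ℝ) + (discr L).natAbs.primeFactors.card := by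
    exact_mod_cast Finset.card_union_le _ _
  refine le_trans ?_ hcard
  -- the order of `g` modulo `M`
  obtain ⟨o, ho⟩ : ∃ o : ℕ, o = orderOf (QuotientGroup.mk' M g) := ⟨_, rfl⟩
  have ho0 : 0 < o := by rw [ho]; exact orderOf_pos _
  have hom : o ≤ m := by
    refine le_trans ?_ hmG
    rw [ho]
    calc orderOf (QuotientGroup.mk' M g) ≤ Nat.card (Gal(N/ℚ) ⧸ M) := orderOf_le_card
      _ ≤ Nat.card Gal(N/ℚ) := Nat.card_le_card_of_surjective _ (QuotientGroup.mk'_surjective M)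
  have hD1 : 1 ≤ (2 * t) ^ (m ^ 2) := one_le_pow₀ (by linarith)
  have hlog : Real.log ((2 * t) ^ (m ^ 2)) = (m : ℝ) ^ 2 * Real.log (2 * t) := by
    rw [Real.log_pow]
    push_cast
    ring
  refine hA {e // e ∈ (orderOf (QuotientGroup.mk' M g)).divisors} (fun e => Fe M g e.1)
    (fun e => moebius e.1 * ((orderOf (QuotientGroup.mk' M g) / e.1 : ℕ) : ℤ)) ?_ ?_ ?_ ?_
    ((2 * t) ^ (m ^ 2)) X hD1 ?_ hX1 ?_ _ ?_
  · rw [Fintype.card_coe, ← ho]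
    refine (Nat.card_divisors_le_self o).trans hom
  · intro e
    have e1 := Module.finrank_mul_finrank ℚ (Fe M g e.1) N
    have e3 : Module.finrank ℚ N = Nat.card Gal(N/ℚ) := (IsGaloisGroup.card_eq_finrank _ ℚ N).symm
    have hpos : 0 < Module.finrank (Fe M g e.1) N := Module.finrank_pos
    calc Module.finrank ℚ (Fe M g e.1) ≤ Module.finrank ℚ (Fe M g e.1) * Module.finrank (Fe M g e.1) N :=
          Nat.le_mul_of_pos_right _ hpos
      _ = Nat.card Gal(N/ℚ) := by rw [e1, e3]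
      _ ≤ m := hmG
  · rintro ⟨e, he⟩
    simp only
    rw [abs_mul, Nat.abs_cast, ← ho]
    have h1 : |moebius e| ≤ 1 := ArithmeticFunction.abs_moebius_le_one
    have h2 : ((o / e : ℕ) : ℤ) ≤ m := by
      exact_mod_cast (Nat.div_le_self _ _).trans hom
    calc |moebius e| * ((o / e : ℕ) : ℤ) ≤ 1 * m := by gcongr
      _ = m := one_mul _
  · rw [Finset.sum_coe_sort (orderOf (QuotientGroup.mk' M g)).divisors (fun e => moebius e *
      ((orderOf (QuotientGroup.mk' M g) / e : ℕ) : ℤ)), ← ho]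
    exact tot ho0
  · intro e
    have hSm : Sm t (Ue M g e.1) := hgap _ ((hMt.up ht (le_Ue M g e.1)).mono hup)
    have hdis := hSm.disc_sub (Fe M g e.1)
    have e1 := Module.finrank_mul_finrank ℚ (Fe M g e.1) N
    have e3 : Module.finrank ℚ N = Nat.card Gal(N/ℚ) := (IsGaloisGroup.card_eq_finrank _ ℚ N).symm
    have hpos : 0 < Module.finrank (Fe M g e.1) N := Module.finrank_pos
    have hfr : Module.finrank ℚ (Fe M g e.1) ≤ m := by
      calc Module.finrank ℚ (Fe M g e.1) ≤ Module.finrank ℚ (Fe M g e.1) * Module.finrank (Fe M g e.1) N :=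
            Nat.le_mul_of_pos_right _ hpos
        _ = Nat.card Gal(N/ℚ) := by rw [e1, e3]
        _ ≤ m := hmG
    rw [Nat.cast_natAbs]
    push_cast
    refine hdis.trans (pow_le_pow_right₀ (by linarith) ?_)
    rw [sq]
    exact Nat.mul_le_mul hfr ((Nat.sub_le _ _).trans hfr)
  · rw [hlog]
    exact hX
  · intro p hp hpX hpB
    obtain ⟨h1, h2⟩ := hout p hp hpX hpB
    have hu := unr_of hH L hp h1
    refine comb hp hu M g ?_
    intro P hP1 hP2 σ hσ heq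
    apply h2
    obtain ⟨τ, hτ1, hτ2⟩ := lift_gen (QuotientGroup.mk' M) σ (QuotientGroup.mk' M g) heq
    have hx : g⁻¹ * τ ∈ M := by
      rw [← QuotientGroup.ker_mk' M, MonoidHom.mem_ker, map_mul, map_inv, hτ2, inv_mul_cancel]
    obtain ⟨a, y, hy, hya⟩ := hg _ hx
    rw [mul_inv_cancel_left] at hya
    obtain ⟨r, hr⟩ : ∃ r : Gal(N/ℚ), (r : Gal(N/ℚ) ⧸ H) = a := ⟨Quotient.out a, Quotient.out_eq a⟩
    refine (hQ p).2 ⟨r⁻¹ • P, inferInstance, inferInstance, r⁻¹ * y * r, ?_, ?_⟩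
    · have := ‹M.Normal›.conj_mem y hy r⁻¹
      rwa [inv_inv] at this
    · intro h hh s hs heq2
      have h3 : r * s * r⁻¹ ∈ MulAction.stabilizer Gal(N/ℚ) P := by
        rw [MulAction.mem_stabilizer_iff] at hs ⊢
        rw [mul_smul, mul_smul, hs, smul_inv_smul]
      rw [hσ, ← hτ1] at h3
      obtain ⟨k, hk⟩ := Subgroup.mem_zpowers_iff.1 h3
      apply hya k
      rw [hk, ← hr]
      have h4 : y * r = r * s * h := by
        have h5 : r * (r⁻¹ * y * r) = r * (s * h) := by rw [heq2]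
        rw [← mul_assoc, ← mul_assoc, mul_inv_cancel, one_mul, ← mul_assoc] at h5
        exact h5
      have e1 : y • (r : Gal(N/ℚ) ⧸ H) = ((y * r : Gal(N/ℚ)) : Gal(N/ℚ) ⧸ H) := rfl
      have e2 : (r * s * r⁻¹) • (r : Gal(N/ℚ) ⧸ H) = ((r * s * r⁻¹ * r : Gal(N/ℚ)) : Gal(N/ℚ) ⧸ H) := rfl
      rw [e1, e2, h4, inv_mul_cancel_right]
      refine QuotientGroup.eq.2 ?_
      rw [mul_inv_rev, mul_assoc, inv_mul_cancel, mul_one]
      exact H.inv_mem hh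

end Pool.Agent.K1H79.TOS
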