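import Pool.Agent.K1H79.TOS.Many
import Pool.Agent.K1H79.TOS.Cross
import Pool.Agent.TH942.SL.Line
import Pool.Agent.Y772.DK.Main
import Pool.Agent.Y773.HK.Stm

/-! # The explicit formula and its consequence -/

set_option autoImplicit false
set_option linter.unusedSectionVars false
set_option linter.unusedVariables false

namespace Pool.Agent.K1H79.TOS

open NumberField Complex MeasureTheory Set Filter Topology
open Pool.Agent.Y773 Pool.Agent.R362.Near Pool.Agent.R362.HL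

section family

variable {ι : Type} [Fintype ι] [DecidableEq ι] (Y : ι → ℂ → ℂ) (a : ι → ℤ)
variable (F : ι → Type) [∀ i, Field (F i)] [∀ i, NumberField (F i)]

/-- the coefficients -/
noncomputable def co (n : ℕ) : ℂ := ∑ i, (a i : ℂ) * (cc (triv (F i)) n * (ArithmeticFunction.vonMangoldt n : ℂ))

theorem co_le {k W d : ℕ} (hk : Fintype.card ι ≤ k) (hW : ∀ i, |a i| ≤ W)
    (hd : ∀ i, Module.finrank ℚ (F i) ≤ d) (n : ℕ) :
    ‖co a F n‖ ≤ k * W * d * ArithmeticFunction.vonMangoldt n := by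
  have hΛ : 0 ≤ ArithmeticFunction.vonMangoldt n := ArithmeticFunction.vonMangoldt_nonneg
  unfold co
  have q : ∀ i, ‖(a i : ℂ) * (cc (triv (F i)) n * (ArithmeticFunction.vonMangoldt n : ℂ))‖ ≤
      W * (d * ArithmeticFunction.vonMangoldt n) := by
    intro i
    have g1 : ‖(a i : ℂ)‖ ≤ W := by
      rw [Complex.norm_intCast]
      exact_mod_cast hW i
    have g2 := Pool.Agent.Y772.DK.norm_cc_le (triv (F i)) triv_norm n
    have g3 : (Module.finrank ℚ (F i) : ℝ) ≤ d := by exact_mod_cast hd i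
    rw [norm_mul, norm_mul, Complex.norm_real, Real.norm_of_nonneg hΛ]
    have g4 := g2.trans g3
    gcongr
  refine (norm_sum_le _ _).trans ((Finset.sum_le_sum fun i _ => q i).trans ?_)
  rw [Finset.sum_const, Finset.card_univ, nsmul_eq_mul]
  have : (Fintype.card ι : ℝ) ≤ k := by exact_mod_cast hk
  calc (Fintype.card ι : ℝ) * (W * (d * ArithmeticFunction.vonMangoldt n)) ≤
        k * (W * (d * ArithmeticFunction.vonMangoldt n)) := by gcongr
    _ = _ := by ring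

theorem co_prime {p : ℕ} (hp : p.Prime) :
    co a F p = ((∑ i, a i * (dg (F i) p : ℤ) : ℤ) : ℂ) * (ArithmeticFunction.vonMangoldt p : ℂ) := by
  unfold co
  push_cast
  rw [Finset.sum_mul]
  refine Finset.sum_congr rfl fun i _ => ?_
  rw [cc_dg hp]
  ring

variable {Y F} {K κ : ℝ}

/-- the integrand on the right line -/
theorem right_eq (hY : ∀ i, IsY K κ (F i) (Y i)) {w : ℂ} (hw : w.re = 1 / 2) :
    (∑' n : ℕ, co a F n * (n : ℂ) ^ (-(1 + w))) * PP Y w = GG Y a w / w := by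
  have hw0 : w ≠ 0 := by
    rintro rfl
    norm_num at hw
  have hre : (1 + w).re = 3 / 2 := by simp [hw]; norm_num
  have hre1 : 1 < (1 + w).re := by rw [hre]; norm_num
  -- the series of one field
  have hser : ∀ i, Summable (fun n : ℕ => cc (triv (F i)) n * (ArithmeticFunction.vonMangoldt n : ℂ) *
      (n : ℂ) ^ (-(1 + w))) ∧
      (∑' n : ℕ, cc (triv (F i)) n * (ArithmeticFunction.vonMangoldt n : ℂ) * (n : ℂ) ^ (-(1 + w))) *
        Y i (1 + w) = (Y i (1 + w) - w * deriv (Y i) (1 + w)) / w := by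
    intro i
    obtain ⟨A, hA, hd⟩ := Pool.Agent.Y772.DK.t_dirK (F i)
    obtain ⟨-, d2, d3, d4, -, -, -, -, d9, -, -⟩ := hd (triv (F i)) triv_norm
    refine ⟨?_, ?_⟩
    · refine Summable.of_norm (d9.congr fun n => ?_)
      have hΛ : 0 ≤ ArithmeticFunction.vonMangoldt n := ArithmeticFunction.vonMangoldt_nonneg
      rcases Nat.eq_zero_or_pos n with h0 | h0
      · rw [h0]
        simp
      · rw [norm_mul, norm_mul, Complex.norm_real, Real.norm_of_nonneg hΛ,
          Complex.norm_natCast_cpow_of_pos h0, Complex.neg_re, hre]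
        ring
    · have h4 := d4 _ hre1
      have h5 : ∑' n : ℕ, cc (triv (F i)) n * (ArithmeticFunction.vonMangoldt n : ℂ) * (n : ℂ) ^ (-(1 + w)) =
          -(deriv (LI (triv (F i))) (1 + w) / LI (triv (F i)) (1 + w)) := by
        rw [h4, neg_neg]
      have h6 : deriv (Y i) (1 + w) = LI (triv (F i)) (1 + w) + w * deriv (LI (triv (F i))) (1 + w) := by
        have hU : IsOpen {s : ℂ | 1 < s.re} := isOpen_lt continuous_const Complex.continuous_re
        have h7 : Y i =ᶠ[𝓝 (1 + w)] fun s => (s - 1) * LI (triv (F i)) s :=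
          Filter.eventuallyEq_of_mem (hU.mem_nhds hre1) fun s hs => (hY i).eq s hs
        rw [h7.deriv_eq]
        have h8 : HasDerivAt (fun s : ℂ => (s - 1) * LI (triv (F i)) s)
            (1 * LI (triv (F i)) (1 + w) + (1 + w - 1) * deriv (LI (triv (F i))) (1 + w)) (1 + w) :=
          ((hasDerivAt_id (1 + w)).sub_const 1).mul (d2 _ hre1).hasDerivAt
        rw [h8.deriv]
        ring
      have h9 := d3 _ hre1
      rw [h5, h6, (hY i).eq _ hre1]
      field_simp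
      ring
  have hsum : ∑' n : ℕ, co a F n * (n : ℂ) ^ (-(1 + w)) = ∑ i, (a i : ℂ) *
      ∑' n : ℕ, cc (triv (F i)) n * (ArithmeticFunction.vonMangoldt n : ℂ) * (n : ℂ) ^ (-(1 + w)) := by
    simp_rw [← tsum_mul_left]
    rw [← Summable.tsum_finsetSum (fun i _ => (hser i).1.mul_left _)]
    refine tsum_congr fun n => ?_
    unfold co
    rw [Finset.sum_mul]
    refine Finset.sum_congr rfl fun i _ => ?_
    ring
  rw [hsum]
  unfold PP GG
  rw [Finset.sum_mul, mul_div_assoc, Finset.sum_div, Finset.mul_sum]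
  refine Finset.sum_congr rfl fun i _ => ?_
  rw [← Finset.mul_prod_erase _ (fun j => Y j (1 + w)) (Finset.mem_univ i)]
  have h := (hser i).2
  calc _ = qq w ^ Fintype.card ι * ((a i : ℂ) * (((∑' n : ℕ, cc (triv (F i)) n *
        (ArithmeticFunction.vonMangoldt n : ℂ) * (n : ℂ) ^ (-(1 + w))) * Y i (1 + w)) *
          ∏ j ∈ Finset.univ.erase i, Y j (1 + w))) := by ring
    _ = _ := by rw [h]; ring

/-- the smoothed sum -/
noncomputable def ZZ (Y : ι → ℂ → ℂ) (l : ℝ) : ℂ :=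
  ∫ v : ℝ, PP Y (((1 / 2 : ℝ) : ℂ) + v * I) * cexp ((((1 / 2 : ℝ) : ℂ) + v * I) * l) *
    cexp ((((1 / 2 : ℝ) : ℂ) + v * I) ^ 2)

theorem ZZ_le (hK : 1 ≤ K) (hκ : 0 ≤ κ) {D : ℝ} (hD : 1 ≤ D) (hY : ∀ i, IsY K κ (F i) (Y i))
    (hF : ∀ i, (((discr (F i)).natAbs : ℕ) : ℝ) ≤ D) {k : ℕ} (hk : Fintype.card ι ≤ k) (l : ℝ) :
    ‖ZZ Y l‖ ≤ (Real.exp 1 * (BB K κ * D)) ^ k * (Real.exp 1 * J (k * (κ + 1))) * Real.exp (l / 2) ∧
    ‖ZZ Y l‖ ≤ (Real.exp 1 * (BB K κ * D)) ^ k * (Real.exp 1 * J (k * (κ + 1))) * Real.exp (-(l / 4)) := by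
  have hB := BB_one hK hκ
  have hJ := J_nonneg (k * (κ + 1))
  obtain ⟨Q, hQ⟩ : ∃ Q : ℝ, Q = (Real.exp 1 * (BB K κ * D)) ^ k := ⟨_, rfl⟩
  have hQ0 : 0 ≤ Q := by rw [hQ]; positivity
  have hb : ∀ w : ℂ, -(1 / 4) ≤ w.re → w.re ≤ 1 / 2 → ‖PP Y w * cexp (w * l)‖ ≤
      Q * Real.exp (w.re * l) * Real.exp ((k * (κ + 1)) * |w.im|) := by
    intro w h1 h2
    have h3 := PP_le hK hκ hD hY hF hk h1 h2
    rw [← hQ] at h3
    rw [norm_mul, Complex.norm_exp]
    have e : (w * (l : ℂ)).re = w.re * l := by simp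
    rw [e]
    calc _ ≤ Q * Real.exp ((k * (κ + 1)) * |w.im|) * Real.exp (w.re * l) := by gcongr
      _ = _ := by ring
  rw [← hQ]
  constructor
  · have h1 := line_le (c := 1 / 2) (κ := k * (κ + 1)) (C := Q * Real.exp (l / 2))
      (H := fun w => PP Y w * cexp (w * l)) (fun w hw => by
        refine (hb w (by rw [hw]; norm_num) hw.le).trans (le_of_eq ?_)
        rw [hw]
        congr 3
        ring)
    unfold ZZ
    refine h1.trans ?_
    have : Real.exp ((1 / 2 : ℝ) ^ 2) ≤ Real.exp 1 := Real.exp_le_exp.2 (by norm_num)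
    calc Q * Real.exp (l / 2) * (Real.exp ((1 / 2 : ℝ) ^ 2) * J (k * (κ + 1))) ≤
          Q * Real.exp (l / 2) * (Real.exp 1 * J (k * (κ + 1))) := by gcongr
      _ = _ := by ring
  · have hsh := shift_exp (a' := -1) (a := -(1 / 4)) (b := 1 / 2) (κ := k * (κ + 1))
      (H := fun w => PP Y w * cexp (w * l)) (C := Q * Real.exp |l|) (by norm_num) (by norm_num)
      (fun w hw => (PP_diff hY hw).mul (by fun_prop)) (by positivity) (fun w h1 h2 => by
        refine (hb w h1 h2).trans ?_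
        have : w.re * l ≤ |l| := by
          have h3 : |w.re| ≤ 1 := abs_le.2 ⟨by linarith, by linarith⟩
          calc w.re * l ≤ |w.re * l| := le_abs_self _
            _ = |w.re| * |l| := abs_mul _ _
            _ ≤ 1 * |l| := by gcongr
            _ = |l| := one_mul _
        gcongr)
    have h1 := line_le (c := -(1 / 4)) (κ := k * (κ + 1)) (C := Q * Real.exp (-(l / 4)))
      (H := fun w => PP Y w * cexp (w * l)) (fun w hw => by
        refine (hb w hw.ge (by rw [hw]; norm_num)).trans (le_of_eq ?_)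
        rw [hw]
        congr 3
        ring)
    unfold ZZ
    rw [hsh]
    refine h1.trans ?_
    have : Real.exp ((-(1 / 4) : ℝ) ^ 2) ≤ Real.exp 1 := Real.exp_le_exp.2 (by norm_num)
    calc Q * Real.exp (-(l / 4)) * (Real.exp ((-(1 / 4) : ℝ) ^ 2) * J (k * (κ + 1))) ≤
          Q * Real.exp (-(l / 4)) * (Real.exp 1 * J (k * (κ + 1))) := by gcongr
      _ = _ := by ring

theorem PP_int (hK : 1 ≤ K) (hκ : 0 ≤ κ) {D : ℝ} (hD : 1 ≤ D) (hY : ∀ i, IsY K κ (F i) (Y i))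
    (hF : ∀ i, (((discr (F i)).natAbs : ℕ) : ℝ) ≤ D) (l : ℝ) :
    Integrable fun v : ℝ => PP Y (((1 / 2 : ℝ) : ℂ) + v * I) * cexp ((((1 / 2 : ℝ) : ℂ) + v * I) * l) *
      cexp ((((1 / 2 : ℝ) : ℂ) + v * I) ^ 2) := by
  set k := Fintype.card ι with hk
  set Q : ℝ := (Real.exp 1 * (BB K κ * D)) ^ k with hQ
  have hB := BB_one hK hκ
  have hQ0 : 0 ≤ Q := by rw [hQ]; positivity
  refine ((J_int (k * (κ + 1))).const_mul (Q * Real.exp (l / 2) * Real.exp (1 / 4))).mono' ?_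
    (Eventually.of_forall fun v => ?_)
  · refine Continuous.aestronglyMeasurable ?_
    refine Continuous.mul (Continuous.mul ?_ (by fun_prop)) (by fun_prop)
    exact Pool.Agent.TH942.SL.line_cont (H := PP Y) (a := 1 / 2) fun s hs =>
      (PP_diff hY (by rw [hs]; norm_num)).continuousAt
  · have hre : (((1 / 2 : ℝ) : ℂ) + v * I).re = 1 / 2 := by simp
    have him : (((1 / 2 : ℝ) : ℂ) + v * I).im = v := by simp
    have h3 := PP_le hK hκ hD hY hF (k := k) le_rfl (w := ((1 / 2 : ℝ) : ℂ) + v * I)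
      (by rw [hre]; norm_num) hre.le
    rw [him] at h3
    rw [norm_mul, norm_mul, Complex.norm_exp, Pool.Agent.TH949.LT.norm_exp_sq, hre, him]
    have e : ((((1 / 2 : ℝ) : ℂ) + v * I) * (l : ℂ)).re = l / 2 := by simp; ring
    rw [e]
    calc _ ≤ Q * Real.exp ((k * (κ + 1)) * |v|) * Real.exp (l / 2) * Real.exp ((1 / 2) ^ 2 - v ^ 2) := by
          gcongr
      _ = Q * Real.exp (l / 2) * (Real.exp ((k * (κ + 1)) * |v|) * Real.exp ((1 / 2) ^ 2 - v ^ 2)) := by ring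
      _ = Q * Real.exp (l / 2) * (Real.exp (1 / 4) * Real.exp ((k * (κ + 1)) * |v| - v ^ 2)) := by
          rw [← Real.exp_add, ← Real.exp_add]
          congr 2
          ring
      _ = _ := by ring

/-- the explicit formula -/
theorem explicit (hK : 1 ≤ K) (hκ : 0 ≤ κ) {D : ℝ} (hD : 1 ≤ D) (hY : ∀ i, IsY K κ (F i) (Y i))
    (hF : ∀ i, (((discr (F i)).natAbs : ℕ) : ℝ) ≤ D) {k W : ℕ} (hk : Fintype.card ι ≤ k)
    (hW : ∀ i, |a i| ≤ W) {l : ℝ} (hl : 0 ≤ l) :
    ∃ T : ℂ, HasSum (fun n : ℕ => co a F n * ((n : ℂ)⁻¹ * ZZ Y (l - Real.log n))) T ∧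
      2 * Real.pi * (‖(∑ i, (a i : ℂ))‖ * ∏ i, ‖Y i 1‖) ≤ ‖T‖ +
        4 * k * W * ((Real.exp 1 * (BB K κ * D)) ^ k * (Real.exp 1 * J (k * (κ + 1)))) * Real.exp (-(l / 4)) := by
  have hB := BB_one hK hκ
  have hJ := J_nonneg (k * (κ + 1))
  have hpi := Real.pi_pos
  obtain ⟨Q, hQ⟩ : ∃ Q : ℝ, Q = (Real.exp 1 * (BB K κ * D)) ^ k := ⟨_, rfl⟩
  have hQ0 : 0 ≤ Q := by rw [hQ]; positivity
  have hsw := swap (c := co a F) (N := fun n : ℕ => n) (b := 1 / 2) (PP_int hK hκ hD hY hF l)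
    (fun n hn => by
      rw [show n = 0 from hn]
      unfold co
      simp) (by
      have h1 : Summable fun n : ℕ => (k * W * (∑ i, Module.finrank ℚ (F i) : ℕ) : ℝ) *
          (ArithmeticFunction.vonMangoldt n * (n : ℝ) ^ (-(5 / 4) : ℝ)) := sum_one.mul_left _
      refine Summable.of_nonneg_of_le (fun n => by positivity) (fun n => ?_) h1
      have hΛ : 0 ≤ ArithmeticFunction.vonMangoldt n := ArithmeticFunction.vonMangoldt_nonneg
      have h2 := co_le a F hk hW (d := ∑ i, Module.finrank ℚ (F i))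
        (fun i => Finset.single_le_sum (f := fun i => Module.finrank ℚ (F i)) (fun _ _ => Nat.zero_le _)
          (Finset.mem_univ i)) n
      rcases Nat.eq_zero_or_pos n with h0 | h0
      · rw [h0]
        rw [h0] at h2
        simp only [ArithmeticFunction.map_zero, mul_zero] at h2
        have h3 : ‖co a F 0‖ = 0 := le_antisymm h2 (norm_nonneg _)
        rw [h3]
        simp
      · have h3 : (n : ℝ) ^ (-(1 + 1 / 2) : ℝ) ≤ (n : ℝ) ^ (-(5 / 4) : ℝ) :=
          Real.rpow_le_rpow_of_exponent_le (by exact_mod_cast h0) (by norm_num)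
        calc ‖co a F n‖ * (n : ℝ) ^ (-(1 + 1 / 2) : ℝ) ≤
              (k * W * (∑ i, Module.finrank ℚ (F i) : ℕ) * ArithmeticFunction.vonMangoldt n) *
                (n : ℝ) ^ (-(5 / 4) : ℝ) := by gcongr
          _ = _ := by ring)
  refine ⟨_, hsw.congr_fun fun n => ?_, ?_⟩
  · -- the terms
    rcases Nat.eq_zero_or_pos n with h0 | h0
    · rw [h0]
      unfold co
      simp
    congr 1
    have hnr : (0 : ℝ) < n := by exact_mod_cast h0
    have hnc : (n : ℂ) ≠ 0 := by exact_mod_cast h0.ne'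
    unfold ZZ
    rw [← integral_const_mul]
    congr 1
    ext v
    have e2 : (n : ℂ) ^ (-(1 + (((1 / 2 : ℝ) : ℂ) + v * I))) = (n : ℂ)⁻¹ *
        cexp (-((((1 / 2 : ℝ) : ℂ) + v * I) * Real.log n)) := by
      rw [neg_add, Complex.cpow_add _ _ hnc, Complex.cpow_neg_one, Complex.cpow_def_of_ne_zero hnc,
        Complex.natCast_log]
      congr 2
      ring
    have e3 : cexp ((((1 / 2 : ℝ) : ℂ) + v * I) * ((l - Real.log n : ℝ) : ℂ)) =
        cexp ((((1 / 2 : ℝ) : ℂ) + v * I) * l) * cexp (-((((1 / 2 : ℝ) : ℂ) + v * I) * Real.log n)) := by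
      rw [← Complex.exp_add]
      congr 1
      push_cast
      ring
    rw [e2, e3]
    ring
  · -- the contour
    have hexp : ∀ w : ℂ, ‖cexp (w * l)‖ = Real.exp (w.re * l) := fun w => by
      rw [Complex.norm_exp]; simp
    have hGb : ∀ w : ℂ, -(1 / 4) ≤ w.re → w.re ≤ 1 / 2 → ‖GG Y a w * cexp (w * l)‖ ≤
        k * W * Q * Real.exp (w.re * l) * Real.exp ((k * (κ + 1)) * |w.im|) := by
      intro w h1 h2
      have h3 := GG_le a hK hκ hD hY hF hk hW h1 h2
      rw [← hQ] at h3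
      rw [norm_mul, hexp]
      calc _ ≤ k * W * Q * Real.exp ((k * (κ + 1)) * |w.im|) * Real.exp (w.re * l) := by gcongr
        _ = _ := by ring
    have hcr := cross (a' := -1) (a := -(1 / 4)) (b := 1 / 2) (κ := k * (κ + 1))
      (H := fun w => GG Y a w * cexp (w * l)) (C := k * W * Q * Real.exp l) (by norm_num) (by norm_num)
      (by norm_num) (fun w hw => (GG_diff a hY hw).mul (by fun_prop)) (by positivity) (fun w h1 h2 => by
        refine (hGb w h1 h2).trans ?_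
        have : w.re * l ≤ l := by nlinarith
        gcongr)
    simp only [zero_mul, Complex.exp_zero, mul_one] at hcr
    have e1 : ∀ v : ℝ, (∑' n : ℕ, co a F n * (n : ℂ) ^ (-(1 + (((1 / 2 : ℝ) : ℂ) + v * I)))) *
        (PP Y (((1 / 2 : ℝ) : ℂ) + v * I) * cexp ((((1 / 2 : ℝ) : ℂ) + v * I) * l) *
          cexp ((((1 / 2 : ℝ) : ℂ) + v * I) ^ 2)) =
        GG Y a (((1 / 2 : ℝ) : ℂ) + v * I) * cexp ((((1 / 2 : ℝ) : ℂ) + v * I) * l) *
          (cexp ((((1 / 2 : ℝ) : ℂ) + v * I) ^ 2) / (((1 / 2 : ℝ) : ℂ) + v * I)) := by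
      intro v
      have h1 := right_eq a hY (w := ((1 / 2 : ℝ) : ℂ) + v * I) (by simp)
      calc _ = ((∑' n : ℕ, co a F n * (n : ℂ) ^ (-(1 + (((1 / 2 : ℝ) : ℂ) + v * I)))) *
            PP Y (((1 / 2 : ℝ) : ℂ) + v * I)) * (cexp ((((1 / 2 : ℝ) : ℂ) + v * I) * l) *
          cexp ((((1 / 2 : ℝ) : ℂ) + v * I) ^ 2)) := by ring
        _ = _ := by rw [h1]; ring
    simp_rw [e1]
    set T : ℂ := ∫ v : ℝ, GG Y a (((1 / 2 : ℝ) : ℂ) + v * I) * cexp ((((1 / 2 : ℝ) : ℂ) + v * I) * l) *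
          (cexp ((((1 / 2 : ℝ) : ℂ) + v * I) ^ 2) / (((1 / 2 : ℝ) : ℂ) + v * I)) with hT
    -- the left line
    have hleft : ‖∫ v : ℝ, GG Y a (((-(1 / 4) : ℝ) : ℂ) + v * I) * cexp ((((-(1 / 4) : ℝ) : ℂ) + v * I) * l) *
      (cexp ((((-(1 / 4) : ℝ) : ℂ) + v * I) ^ 2) / (((-(1 / 4) : ℝ) : ℂ) + v * I))‖ ≤
        4 * k * W * (Q * (Real.exp 1 * J (k * (κ + 1)))) * Real.exp (-(l / 4)) := by
      have h1 := line_le (c := -(1 / 4)) (κ := k * (κ + 1)) (C := 4 * (k * W * Q) * Real.exp (-(l / 4)))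
        (H := fun w => GG Y a w * cexp (w * l) / w) (fun w hw => by
          have h3 := hGb w hw.ge (by rw [hw]; norm_num)
          rw [hw] at h3
          rw [norm_div]
          have h4 : 1 / 4 ≤ ‖w‖ := by
            have := Complex.abs_re_le_norm w
            rw [hw, abs_neg, abs_of_pos (by norm_num)] at this
            exact this
          rw [div_le_iff₀ (by linarith)]
          have e : (-(1 / 4) : ℝ) * l = -(l / 4) := by ring
          rw [e] at h3
          calc _ ≤ k * W * Q * Real.exp (-(l / 4)) * Real.exp ((k * (κ + 1)) * |w.im|) := h3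
            _ = 4 * (k * W * Q) * Real.exp (-(l / 4)) * Real.exp ((k * (κ + 1)) * |w.im|) * (1 / 4) := by ring
            _ ≤ _ := by gcongr)
      have e : ∀ v : ℝ, GG Y a (((-(1 / 4) : ℝ) : ℂ) + v * I) * cexp ((((-(1 / 4) : ℝ) : ℂ) + v * I) * l) *
        (cexp ((((-(1 / 4) : ℝ) : ℂ) + v * I) ^ 2) / (((-(1 / 4) : ℝ) : ℂ) + v * I)) =
        GG Y a (((-(1 / 4) : ℝ) : ℂ) + v * I) * cexp ((((-(1 / 4) : ℝ) : ℂ) + v * I) * l) /
          (((-(1 / 4) : ℝ) : ℂ) + v * I) * cexp ((((-(1 / 4) : ℝ) : ℂ) + v * I) ^ 2) := fun v => by ring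
      simp_rw [e]
      refine h1.trans ?_
      have : Real.exp ((-(1 / 4) : ℝ) ^ 2) ≤ Real.exp 1 := Real.exp_le_exp.2 (by norm_num)
      calc 4 * (k * W * Q) * Real.exp (-(l / 4)) * (Real.exp ((-(1 / 4) : ℝ) ^ 2) * J (k * (κ + 1))) ≤
            4 * (k * W * Q) * Real.exp (-(l / 4)) * (Real.exp 1 * J (k * (κ + 1))) := by gcongr
        _ = _ := by ring
    rw [← hQ]
    have h5 : 2 * Real.pi * (‖(∑ i, (a i : ℂ))‖ * ∏ i, ‖Y i 1‖) = ‖2 * (Real.pi : ℂ) * GG Y a 0‖ := by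
      rw [GG_zero, norm_mul, norm_mul, norm_mul, norm_prod]
      simp only [Complex.norm_ofNat, Complex.norm_real, Real.norm_eq_abs, abs_of_pos hpi]
    rw [h5, ← hcr]
    exact (norm_sub_le _ _).trans (add_le_add le_rfl hleft)

end family

end Pool.Agent.K1H79.TOS
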