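import Pool.Agent.K1H79.TOS.Clos
import Pool.Agent.K1H79.TOS.Cor

/-! # Fields without intermediate fields -/

set_option autoImplicit false
set_option linter.unusedSectionVars false
set_option linter.unusedVariables false

namespace Pool.Agent.K1H79.TOS

open NumberField IntermediateField

section

variable {L N : Type} [Field L] [NumberField L] [Field N] [NumberField N] [Algebra L N] [IsGalois ℚ N]

theorem sup_top [IsNormalClosure ℚ L N] (hprim : ∀ E : IntermediateField ℚ L, E = ⊥ ∨ E = ⊤)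
    (M : Subgroup Gal(N/ℚ)) (hMn : M.Normal) (hM : M ≠ ⊥) : M ⊔ HH L N = ⊤ := by
  obtain ⟨E, hE⟩ : ∃ E : IntermediateField ℚ L, ∀ x, x ∈ E ↔ algebraMap L N x ∈ IntermediateField.fixedField M :=
    ⟨(IntermediateField.fixedField M).comap (IsScalarTower.toAlgHom ℚ L N), fun x => Iff.rfl⟩
  rcases hprim E with h | h
  · have h1 : IntermediateField.fixedField (M ⊔ HH L N) = ⊥ := by
      rw [eq_bot_iff]
      intro x hx
      rw [IntermediateField.mem_fixedField_iff] at hx
      have h2 : x ∈ IntermediateField.fixedField (HH L N) := by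
        rw [IntermediateField.mem_fixedField_iff]
        intro f hf
        exact hx f (le_sup_right (a := M) hf)
      unfold HH at h2
      rw [IsGalois.fixedField_fixingSubgroup] at h2
      obtain ⟨b, hb⟩ := h2
      have hb' : algebraMap L N b = x := hb
      have h3 : b ∈ E := by
        rw [hE, hb', IntermediateField.mem_fixedField_iff]
        intro f hf
        exact hx f (le_sup_left (b := HH L N) hf)
      rw [h, IntermediateField.mem_bot] at h3
      obtain ⟨q, hq⟩ := h3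
      rw [IntermediateField.mem_bot]
      refine ⟨q, ?_⟩
      rw [← hb', ← hq, ← IsScalarTower.algebraMap_apply]
    have h2 := IntermediateField.fixingSubgroup_fixedField (M ⊔ HH L N)
    rw [h1, IntermediateField.fixingSubgroup_bot] at h2
    exact h2.symm
  · exfalso
    apply hM
    rw [eq_bot_iff, ← core_bot (L := L) (N := N)]
    refine Subgroup.normal_le_normalCore.2 ?_
    intro m hm
    rw [mem_HH]
    intro x
    have h1 : x ∈ E := by rw [h]; exact IntermediateField.mem_top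
    rw [hE, IntermediateField.mem_fixedField_iff] at h1
    exact h1 m hm

theorem star_prim [IsNormalClosure ℚ L N] (hprim : ∀ E : IntermediateField ℚ L, E = ⊥ ∨ E = ⊤)
    (hcyc : ∀ σ : Gal(N/ℚ), ∃ a b : Gal(N/ℚ) ⧸ HH L N, ∀ k : ℤ, b ≠ σ ^ k • a) : Star (HH L N) :=
  star_max (sup_top hprim) hcyc

/-- the condition in terms of the embeddings -/
theorem cyc_of_emb (h : ∀ σ : Gal(N/ℚ), ∃ φ ψ : L →ₐ[ℚ] N, ∀ k : ℤ, ∃ v : L, ψ v ≠ (σ ^ k) (φ v))
    (σ : Gal(N/ℚ)) : ∃ a b : Gal(N/ℚ) ⧸ HH L N, ∀ k : ℤ, b ≠ σ ^ k • a := by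
  obtain ⟨φ, ψ, hφ⟩ := h σ
  obtain ⟨r, hr⟩ := ext_emb φ
  obtain ⟨s, hs⟩ := ext_emb ψ
  refine ⟨(r : Gal(N/ℚ) ⧸ HH L N), (s : Gal(N/ℚ) ⧸ HH L N), fun k hk => ?_⟩
  obtain ⟨v, hv⟩ := hφ k
  apply hv
  have h1 : ((s : Gal(N/ℚ)) : Gal(N/ℚ) ⧸ HH L N) = ((σ ^ k * r : Gal(N/ℚ)) : Gal(N/ℚ) ⧸ HH L N) := hk
  rw [QuotientGroup.eq, mem_HH] at h1
  have h2 := h1 v
  have h3 : s ((s⁻¹ * (σ ^ k * r)) (algebraMap L N v)) = s (algebraMap L N v) := by
    rw [h2]
  rw [← AlgEquiv.mul_apply, mul_inv_cancel_left, AlgEquiv.mul_apply, ← hr, ← hs] at h3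
  exact h3.symm

end

/-- a normal closure exists -/
theorem exists_nc (L : Type) [Field L] [NumberField L] : ∃ (N : Type) (_ : Field N) (_ : NumberField N)
    (_ : Algebra L N), IsGalois ℚ N ∧ IsNormalClosure ℚ L N := by
  have h0 : Algebra.IsAlgebraic ℚ (AlgebraicClosure L) := Algebra.IsAlgebraic.trans ℚ L (AlgebraicClosure L)
  have h1 : Normal ℚ (AlgebraicClosure L) := by
    rw [normal_iff]
    intro x
    exact ⟨(Algebra.IsAlgebraic.isAlgebraic x).isIntegral, IsAlgClosed.splits _⟩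
  have h5 : Nonempty (L →ₐ[ℚ] AlgebraicClosure L) := ⟨IsScalarTower.toAlgHom ℚ L (AlgebraicClosure L)⟩
  have h2 : FiniteDimensional ℚ (normalClosure ℚ L (AlgebraicClosure L)) :=
    normalClosure.is_finiteDimensional ℚ L (AlgebraicClosure L)
  have h3 : NumberField (normalClosure ℚ L (AlgebraicClosure L)) := ⟨⟩
  have h4 : Normal ℚ (normalClosure ℚ L (AlgebraicClosure L)) := normalClosure.normal ℚ L (AlgebraicClosure L)
  exact ⟨normalClosure ℚ L (AlgebraicClosure L), inferInstance, h3, inferInstance, ⟨⟩,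
    isNormalClosure_normalClosure ℚ L (AlgebraicClosure L)⟩

end Pool.Agent.K1H79.TOS
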