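import Pool.Agent.K1H79.TOS.Cross
import Pool.Agent.R362.NearDed
import Pool.Agent.TH949.LT.Kernel
import Pool.Agent.Y772.DK.Dir
import Pool.Agent.Y772.DK.Vm

/-! # A lower bound for the residues of the Dedekind zeta functions -/

set_option autoImplicit false

namespace Pool.Agent.K1H79.TOS

open NumberField Complex MeasureTheory Set Filter Topology
open Pool.Agent.Y773 Pool.Agent.R362.Near Pool.Agent.R362.HL

/-- `Y = (s - 1) ζ_F(s)` with its bounds in the strip -/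
structure IsY (K κ : ℝ) (F : Type) [Field F] [NumberField F] (Y : ℂ → ℂ) : Prop where
  diff : ∀ s : ℂ, 0 < s.re → DifferentiableAt ℂ Y s
  eq : ∀ s : ℂ, 1 < s.re → Y s = (s - 1) * LI (triv F) s
  bd : ∀ δ : ℝ, 0 < δ → ∀ s : ℂ, δ ≤ s.re → s.re ≤ 2 →
        ‖Y s‖ ≤ K / δ * (((discr F).natAbs : ℕ) : ℝ) * Real.exp (κ * |s.im|)

/-- termwise integration -/
theorem swap {ι : Type*} [Countable ι] {c : ι → ℂ} {N : ι → ℕ} {b : ℝ} {h : ℝ → ℂ}
    (hh : Integrable h) (hc0 : ∀ i, N i = 0 → c i = 0)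
    (hs : Summable fun i => ‖c i‖ * (N i : ℝ) ^ (-(1 + b))) :
    HasSum (fun i => c i * ∫ v : ℝ, (N i : ℂ) ^ (-(1 + ((b : ℂ) + v * I))) * h v)
      (∫ v : ℝ, (∑' i, c i * (N i : ℂ) ^ (-(1 + ((b : ℂ) + v * I)))) * h v) := by
  set F : ι → ℝ → ℂ := fun i v => c i * ((N i : ℂ) ^ (-(1 + ((b : ℂ) + v * I))) * h v) with hF
  have hre : ∀ v : ℝ, (-(1 + ((b : ℂ) + v * I))).re = -(1 + b) := by intro v; simp
  have hn : ∀ i v, ‖F i v‖ = ‖c i‖ * (N i : ℝ) ^ (-(1 + b)) * ‖h v‖ := by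
    intro i v
    by_cases h0 : N i = 0
    · rw [hF]
      simp only
      rw [hc0 i h0]
      simp
    · rw [hF]
      simp only
      rw [norm_mul, norm_mul, Complex.norm_natCast_cpow_of_pos (Nat.pos_of_ne_zero h0), hre, mul_assoc]
  have hFi : ∀ i, Integrable (F i) := by
    intro i
    by_cases h0 : N i = 0
    · have : F i = fun _ => 0 := by
        ext v
        rw [hF]
        simp only
        rw [hc0 i h0, zero_mul]
      rw [this]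
      exact integrable_zero _ _ _
    · refine (hh.norm.const_mul (‖c i‖ * (N i : ℝ) ^ (-(1 + b)))).mono' ?_
        (Eventually.of_forall fun v => (hn i v).le)
      refine AEStronglyMeasurable.const_mul (AEStronglyMeasurable.mul ?_ hh.aestronglyMeasurable) _
      refine Continuous.aestronglyMeasurable ?_
      have hN : (N i : ℂ) ≠ 0 := by exact_mod_cast h0
      exact Continuous.const_cpow (by fun_prop) (Or.inl hN)
  have h2 : Summable fun i => ∫ v : ℝ, ‖F i v‖ := by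
    have : ∀ i, ∫ v : ℝ, ‖F i v‖ = ‖c i‖ * (N i : ℝ) ^ (-(1 + b)) * ∫ v : ℝ, ‖h v‖ := by
      intro i
      rw [← integral_const_mul]
      congr 1
      ext v
      exact hn i v
    simp_rw [this]
    exact hs.mul_right _
  have h3 := hasSum_integral_of_summable_integral_norm hFi h2
  have h4 : ∀ v : ℝ, ∑' i, F i v = (∑' i, c i * (N i : ℂ) ^ (-(1 + ((b : ℂ) + v * I)))) * h v := by
    intro v
    rw [← tsum_mul_right]
    refine tsum_congr fun i => ?_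
    rw [hF]
    ring
  simp_rw [h4] at h3
  refine h3.congr_fun fun i => ?_
  rw [hF]
  simp only
  rw [integral_const_mul]

theorem ideal_countable (F : Type) [Field F] [NumberField F] : Countable (Ideal (𝓞 F)) := by
  have h : (⋃ n : ℕ, {𝔞 : Ideal (𝓞 F) | Ideal.absNorm 𝔞 = n}) = Set.univ := by
    ext 𝔞
    simp
  rw [← Set.countable_univ_iff, ← h]
  exact Set.countable_iUnion fun n => (Ideal.finite_setOfPred_absNorm_eq n).countable

/-- the Gaussian on a line -/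
theorem gauss_int (c l : ℝ) : Integrable fun v : ℝ => cexp ((c + v * I) ^ 2) * cexp ((c + v * I) * l) := by
  refine (((integrable_exp_neg_mul_sq one_pos).const_mul (Real.exp (c ^ 2 + c * l)))).mono' (by fun_prop)
    (Eventually.of_forall fun v => ?_)
  rw [norm_mul, Complex.norm_exp, Complex.norm_exp, ← Real.exp_add, ← Real.exp_add]
  refine Real.exp_le_exp.2 (le_of_eq ?_)
  simp [pow_two]
  ring

/-- the smoothed sum over the ideals -/
theorem smooth_sum {F : Type} [Field F] [NumberField F] (l : ℝ) :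
    HasSum (fun 𝔞 : Ideal (𝓞 F) => triv F 𝔞 * ((((Ideal.absNorm 𝔞 : ℕ) : ℝ)⁻¹ *
      (√Real.pi * Real.exp (-(l - Real.log (Ideal.absNorm 𝔞)) ^ 2 / 4)) : ℝ) : ℂ))
      (∫ v : ℝ, LI (triv F) (1 + (((1 : ℝ) : ℂ) + v * I)) *
        (cexp ((((1 : ℝ) : ℂ) + v * I) ^ 2) * cexp ((((1 : ℝ) : ℂ) + v * I) * l))) := by
  have := ideal_countable F
  have h1 := swap (c := fun 𝔞 : Ideal (𝓞 F) => triv F 𝔞) (N := fun 𝔞 => Ideal.absNorm 𝔞) (b := 1)
    (gauss_int 1 l) (fun 𝔞 h𝔞 => by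
      have : 𝔞 = ⊥ := Ideal.absNorm_eq_zero_iff.1 h𝔞
      rw [this, triv_bot]) (by
      refine Summable.of_nonneg_of_le (fun 𝔞 => by positivity) (fun 𝔞 => ?_)
        (Pool.Agent.Y772.DK.nr_summable F (σ := 2) (by norm_num))
      unfold Pool.Agent.Y772.DK.nr
      rw [show (1 : ℝ) + 1 = 2 by norm_num]
      exact mul_le_of_le_one_left (by positivity) (triv_norm 𝔞))
  refine h1.congr_fun fun 𝔞 => ?_
  by_cases h𝔞 : 𝔞 = ⊥
  · rw [h𝔞, triv_bot, zero_mul, zero_mul]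
  congr 1
  have hN : 0 < Ideal.absNorm 𝔞 := Pool.Agent.Y772.DK.absNorm_pos' h𝔞
  have hNr : (0 : ℝ) < (Ideal.absNorm 𝔞 : ℕ) := by exact_mod_cast hN
  have hNc : ((Ideal.absNorm 𝔞 : ℕ) : ℂ) ≠ 0 := by exact_mod_cast hN.ne'
  have e1 : ∀ v : ℝ, ((Ideal.absNorm 𝔞 : ℕ) : ℂ) ^ (-(1 + (((1 : ℝ) : ℂ) + v * I))) *
      (cexp ((((1 : ℝ) : ℂ) + v * I) ^ 2) * cexp ((((1 : ℝ) : ℂ) + v * I) * l)) =
      (((Ideal.absNorm 𝔞 : ℕ) : ℝ)⁻¹ : ℝ) * cexp ((((1 : ℝ) : ℂ) + v * I) ^ 2 +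
        (((1 : ℝ) : ℂ) + v * I) * ((l - Real.log (Ideal.absNorm 𝔞) : ℝ) : ℂ)) := by
    intro v
    have e2 : (((Ideal.absNorm 𝔞 : ℕ) : ℝ)⁻¹ : ℝ) = Real.exp (-Real.log (Ideal.absNorm 𝔞)) := by
      rw [Real.exp_neg, Real.exp_log hNr]
    rw [e2, Complex.cpow_def_of_ne_zero hNc, ← Complex.natCast_log, Complex.ofReal_exp, ← Complex.exp_add,
      ← Complex.exp_add, ← Complex.exp_add]
    congr 1
    push_cast
    ring
  simp_rw [e1]
  rw [integral_const_mul, Pool.Agent.TH949.LT.gauss_line]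
  push_cast
  rfl

theorem res_lower {K κ : ℝ} (hK : 1 ≤ K) (hκ : 0 ≤ κ) (d : ℕ) : ∃ c : ℝ, 0 < c ∧ c ≤ 1 ∧
    ∀ (F : Type) [Field F] [NumberField F], Module.finrank ℚ F ≤ d → ∀ Y : ℂ → ℂ, IsY K κ F Y →
      c * ((((discr F).natAbs : ℕ) : ℝ) ^ (2 * d))⁻¹ ≤ ‖Y 1‖ := by
  have hJ := J_nonneg κ
  have hpi := Real.pi_pos
  obtain ⟨E, hE⟩ : ∃ E : ℝ, E = 2 ^ (d + 1) * Real.exp (d ^ 2) * (4 * (d + 1) * K * Real.exp 1 * J κ) + 1 :=
    ⟨_, rfl⟩
  have hE1 : 1 ≤ E := by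
    rw [hE]
    have : 0 ≤ 2 ^ (d + 1) * Real.exp (d ^ 2) * (4 * (d + 1) * K * Real.exp 1 * J κ) := by positivity
    linarith
  have hE0 : 0 < E := by linarith
  refine ⟨(2 ^ (d + 1) * Real.exp (d ^ 2) * (2 * Real.pi) * (2 * E ^ 2) ^ d)⁻¹, by positivity, ?_, ?_⟩
  · apply inv_le_one_of_one_le₀
    have h1 : (1 : ℝ) ≤ 2 ^ (d + 1) := one_le_pow₀ (by norm_num)
    have h2 : 1 ≤ Real.exp (d ^ 2) := Real.one_le_exp (by positivity)
    have h3 : 1 ≤ 2 * Real.pi := by linarith [Real.pi_gt_three]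
    have h4 : 1 ≤ (2 * E ^ 2) ^ d := one_le_pow₀ (by nlinarith)
    calc (1 : ℝ) = 1 * 1 * 1 * 1 := by norm_num
      _ ≤ _ := by gcongr
  intro F _ _ hd Y hY
  set R : ℝ := (((discr F).natAbs : ℕ) : ℝ) with hR
  have hR1 : 1 ≤ R := by
    rw [hR]
    exact_mod_cast Nat.one_le_iff_ne_zero.2 (Int.natAbs_ne_zero.2 (discr_ne_zero F))
  have hR0 : 0 < R := by linarith
  set n := Module.finrank ℚ F with hn
  have hn0 : 0 < n := Module.finrank_pos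
  have hnr : (0 : ℝ) < n := by exact_mod_cast hn0
  have hn1 : (1 : ℝ) ≤ n := by exact_mod_cast hn0
  have hnd : (n : ℝ) ≤ d := by exact_mod_cast hd
  -- the parameter
  obtain ⟨M, hM⟩ : ∃ M : ℕ, M = ⌈(E * R) ^ 2⌉₊ := ⟨_, rfl⟩
  have hM1 : (E * R) ^ 2 ≤ M := by rw [hM]; exact Nat.le_ceil _
  have hER : 1 ≤ E * R := by nlinarith
  have hM2 : (M : ℝ) ≤ 2 * (E * R) ^ 2 := by
    have h1 : (M : ℝ) < (E * R) ^ 2 + 1 := by rw [hM]; exact Nat.ceil_lt_add_one (by positivity)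
    have h2 : 1 ≤ (E * R) ^ 2 := one_le_pow₀ hER
    linarith
  have hM0 : (0 : ℝ) < M := lt_of_lt_of_le (by positivity) hM1
  have hMn : 0 < M := by exact_mod_cast hM0
  have hM11 : (1 : ℝ) ≤ M := by exact_mod_cast hMn
  obtain ⟨l, hl⟩ : ∃ l : ℝ, l = n * Real.log M := ⟨_, rfl⟩
  have hlM : 0 ≤ Real.log M := Real.log_nonneg hM11
  have hl0 : 0 ≤ l := by rw [hl]; positivity
  -- the contour
  obtain ⟨δ, hδ⟩ : ∃ δ : ℝ, δ = 1 / (2 * n) := ⟨_, rfl⟩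
  have hδ0 : 0 < δ := by rw [hδ]; positivity
  have hδ1 : δ ≤ 1 / 2 := by
    rw [hδ, div_le_div_iff₀ (by positivity) (by norm_num)]
    linarith
  have hδn : δ * n = 1 / 2 := by rw [hδ]; field_simp
  have hre1 : ∀ w : ℂ, (1 + w).re = 1 + w.re := fun w => by simp
  have him1 : ∀ w : ℂ, (1 + w).im = w.im := fun w => by simp
  have hexp : ∀ w : ℂ, ‖cexp (w * l)‖ = Real.exp (w.re * l) := fun w => by
    rw [Complex.norm_exp]; simp
  have hcr := cross (a' := -1) (a := δ - 1) (b := 1) (κ := κ) (H := fun w => Y (1 + w) * cexp (w * l))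
    (C := K / δ * R * Real.exp l) (by linarith) (by linarith) one_pos (fun w hw => by
      have h1 := hY.diff (1 + w) (by rw [hre1]; linarith)
      exact (h1.comp w (by fun_prop : DifferentiableAt ℂ (fun w : ℂ => 1 + w) w)).mul (by fun_prop)) hκ
    (fun w h1 h2 => by
      have h3 := hY.bd δ hδ0 (1 + w) (by rw [hre1]; linarith) (by rw [hre1]; linarith)
      rw [him1] at h3
      rw [norm_mul, hexp]
      have h4 : Real.exp (w.re * l) ≤ Real.exp l := Real.exp_le_exp.2 (by nlinarith)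
      calc ‖Y (1 + w)‖ * Real.exp (w.re * l) ≤ K / δ * R * Real.exp (κ * |w.im|) * Real.exp l := by
            gcongr
        _ = _ := by ring)
  simp only [add_zero, zero_mul, Complex.exp_zero, mul_one] at hcr
  -- the left line
  have hleft : ‖∫ v : ℝ, Y (1 + (((δ - 1 : ℝ) : ℂ) + v * I)) * cexp ((((δ - 1 : ℝ) : ℂ) + v * I) * l) *
      (cexp ((((δ - 1 : ℝ) : ℂ) + v * I) ^ 2) / (((δ - 1 : ℝ) : ℂ) + v * I))‖ ≤
      4 * (d + 1) * K * Real.exp 1 * J κ * R * Real.exp ((δ - 1) * l) := by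
    have h1 := line_le (c := δ - 1) (κ := κ) (C := 2 * (K / δ * R) * Real.exp ((δ - 1) * l))
      (H := fun w => Y (1 + w) * cexp (w * l) / w) (fun w hw => by
        have h3 := hY.bd δ hδ0 (1 + w) (by rw [hre1, hw]; linarith) (by rw [hre1, hw]; linarith)
        rw [him1] at h3
        rw [norm_div, norm_mul, hexp, hw]
        have h4 : 1 / 2 ≤ ‖w‖ := by
          have := Complex.abs_re_le_norm w
          rw [hw, abs_of_neg (by linarith)] at this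
          linarith
        rw [div_le_iff₀ (by linarith)]
        calc ‖Y (1 + w)‖ * Real.exp ((δ - 1) * l) ≤ K / δ * R * Real.exp (κ * |w.im|) *
              Real.exp ((δ - 1) * l) := by gcongr
          _ = 2 * (K / δ * R) * Real.exp ((δ - 1) * l) * Real.exp (κ * |w.im|) * (1 / 2) := by ring
          _ ≤ _ := by gcongr)
    have e : ∀ v : ℝ, Y (1 + (((δ - 1 : ℝ) : ℂ) + v * I)) * cexp ((((δ - 1 : ℝ) : ℂ) + v * I) * l) *
      (cexp ((((δ - 1 : ℝ) : ℂ) + v * I) ^ 2) / (((δ - 1 : ℝ) : ℂ) + v * I)) =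
      Y (1 + (((δ - 1 : ℝ) : ℂ) + v * I)) * cexp ((((δ - 1 : ℝ) : ℂ) + v * I) * l) /
        (((δ - 1 : ℝ) : ℂ) + v * I) * cexp ((((δ - 1 : ℝ) : ℂ) + v * I) ^ 2) := fun v => by ring
    simp_rw [e]
    refine h1.trans ?_
    have h5 : Real.exp ((δ - 1) ^ 2) ≤ Real.exp 1 := Real.exp_le_exp.2 (by nlinarith)
    have h6 : 1 / δ ≤ 2 * (d + 1) := by
      rw [hδ, one_div_one_div]; linarith
    calc 2 * (K / δ * R) * Real.exp ((δ - 1) * l) * (Real.exp ((δ - 1) ^ 2) * J κ) =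
          2 * K * (1 / δ) * R * Real.exp ((δ - 1) * l) * (Real.exp ((δ - 1) ^ 2) * J κ) := by ring
      _ ≤ 2 * K * (2 * (d + 1)) * R * Real.exp ((δ - 1) * l) * (Real.exp 1 * J κ) := by gcongr
      _ = _ := by ring
  -- the right line
  have hss := smooth_sum (F := F) l
  have e1 : ∀ v : ℝ, Y (1 + (((1 : ℝ) : ℂ) + v * I)) * cexp ((((1 : ℝ) : ℂ) + v * I) * l) *
      (cexp ((((1 : ℝ) : ℂ) + v * I) ^ 2) / (((1 : ℝ) : ℂ) + v * I)) =
      LI (triv F) (1 + (((1 : ℝ) : ℂ) + v * I)) *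
        (cexp ((((1 : ℝ) : ℂ) + v * I) ^ 2) * cexp ((((1 : ℝ) : ℂ) + v * I) * l)) := by
    intro v
    have hne : (((1 : ℝ) : ℂ) + v * I) ≠ 0 := by
      intro h
      have := congrArg Complex.re h
      simp at this
    rw [hY.eq _ (by rw [hre1]; simp), add_sub_cancel_left]
    field_simp
  simp_rw [e1] at hcr
  set T : ℂ := ∫ v : ℝ, LI (triv F) (1 + (((1 : ℝ) : ℂ) + v * I)) *
        (cexp ((((1 : ℝ) : ℂ) + v * I) ^ 2) * cexp ((((1 : ℝ) : ℂ) + v * I) * l)) with hT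
  -- the lower bound for the sum
  have hlow : M * (((2 * M : ℝ) ^ n)⁻¹ * Real.exp (-(d ^ 2 : ℝ))) ≤ T.re := by
    have hre := Complex.hasSum_re hss
    obtain ⟨S, hS⟩ : ∃ S : Finset (Ideal (𝓞 F)), S = (Finset.Ico M (2 * M)).image
      (fun m : ℕ => Ideal.span {((m : ℕ) : 𝓞 F)}) := ⟨_, rfl⟩
    have hnorm : ∀ m : ℕ, Ideal.absNorm (Ideal.span {((m : ℕ) : 𝓞 F)}) = m ^ n := fun m => by
      rw [Ideal.absNorm_span_natCast, RingOfIntegers.rank]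
    have hcard : S.card = M := by
      rw [hS, Finset.card_image_of_injOn, Nat.card_Ico]
      · omega
      · intro m _ m' _ h
        have h1 := congrArg Ideal.absNorm h
        simp only at h1
        rw [hnorm, hnorm] at h1
        exact Nat.pow_left_injective hn0.ne' h1
    have hterm : ∀ 𝔞 : Ideal (𝓞 F), 𝔞 ≠ ⊥ → (triv F 𝔞 * ((((Ideal.absNorm 𝔞 : ℕ) : ℝ)⁻¹ *
      (√Real.pi * Real.exp (-(l - Real.log (Ideal.absNorm 𝔞)) ^ 2 / 4)) : ℝ) : ℂ)).re =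
      ((Ideal.absNorm 𝔞 : ℕ) : ℝ)⁻¹ *
      (√Real.pi * Real.exp (-(l - Real.log (Ideal.absNorm 𝔞)) ^ 2 / 4)) := by
      intro 𝔞 h𝔞
      rw [triv_apply h𝔞, one_mul, Complex.ofReal_re]
    refine le_trans ?_ (sum_le_hasSum S (fun 𝔞 _ => ?_) hre)
    · have h1 : ∀ 𝔞 ∈ S, ((2 * M : ℝ) ^ n)⁻¹ * Real.exp (-(d ^ 2 : ℝ)) ≤
          (triv F 𝔞 * ((((Ideal.absNorm 𝔞 : ℕ) : ℝ)⁻¹ *
      (√Real.pi * Real.exp (-(l - Real.log (Ideal.absNorm 𝔞)) ^ 2 / 4)) : ℝ) : ℂ)).re := by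
        intro 𝔞 h𝔞
        rw [hS, Finset.mem_image] at h𝔞
        obtain ⟨m, hm, rfl⟩ := h𝔞
        rw [Finset.mem_Ico] at hm
        have hm0 : 0 < m := by omega
        have hmr : (0 : ℝ) < m := by exact_mod_cast hm0
        have hne : Ideal.span {((m : ℕ) : 𝓞 F)} ≠ ⊥ := by
          rw [Ne, Ideal.span_singleton_eq_bot]
          exact_mod_cast hm0.ne'
        rw [hterm _ hne, hnorm]
        push_cast
        have g1 : ((2 * M : ℝ) ^ n)⁻¹ ≤ ((m : ℝ) ^ n)⁻¹ := by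
          apply inv_anti₀ (by positivity)
          have : (m : ℝ) ≤ 2 * M := by exact_mod_cast hm.2.le
          gcongr
        have g2 : Real.exp (-(d ^ 2 : ℝ)) ≤ Real.exp (-(l - Real.log ((m : ℝ) ^ n)) ^ 2 / 4) := by
          refine Real.exp_le_exp.2 ?_
          rw [Real.log_pow, hl, ← mul_sub, mul_pow]
          have h3 : |Real.log M - Real.log m| ≤ 1 := by
            have h4 : Real.log M ≤ Real.log m := Real.log_le_log hM0 (by exact_mod_cast hm.1)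
            have h5 : Real.log m ≤ Real.log (2 * M) := Real.log_le_log hmr (by exact_mod_cast hm.2.le)
            rw [Real.log_mul (by norm_num) hM0.ne'] at h5
            have := Real.log_two_lt_d9
            rw [abs_le]
            constructor <;> linarith
          have h6 : (Real.log M - Real.log m) ^ 2 ≤ 1 := by
            rw [← sq_abs]
            exact pow_le_one₀ (abs_nonneg _) h3
          have h7 : (n : ℝ) ^ 2 * (Real.log M - Real.log m) ^ 2 ≤ d ^ 2 * 1 := by gcongr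
          linarith [sq_nonneg (d : ℝ)]
        have g3 : 1 ≤ √Real.pi := by
          rw [Real.one_le_sqrt]
          linarith [Real.pi_gt_three]
        calc ((2 * M : ℝ) ^ n)⁻¹ * Real.exp (-(d ^ 2 : ℝ)) = ((2 * M : ℝ) ^ n)⁻¹ * (1 * Real.exp (-(d ^ 2 : ℝ))) := by
              rw [one_mul]
          _ ≤ _ := by gcongr
      have h2 := Finset.card_nsmul_le_sum S _ _ h1
      rw [hcard, nsmul_eq_mul] at h2
      exact h2
    · by_cases h𝔞 : 𝔞 = ⊥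
      · rw [h𝔞, triv_bot, zero_mul, Complex.zero_re]
      · rw [hterm _ h𝔞]
        positivity
  -- conclusion
  have hTn : M * (((2 * M : ℝ) ^ n)⁻¹ * Real.exp (-(d ^ 2 : ℝ))) ≤ ‖T‖ := hlow.trans (Complex.re_le_norm T)
  have hmain : ‖T‖ ≤ 2 * Real.pi * ‖Y 1‖ + 4 * (d + 1) * K * Real.exp 1 * J κ * R * Real.exp ((δ - 1) * l) := by
    have h1 : T = 2 * Real.pi * Y 1 + ∫ v : ℝ, Y (1 + (((δ - 1 : ℝ) : ℂ) + v * I)) *
      cexp ((((δ - 1 : ℝ) : ℂ) + v * I) * l) *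
      (cexp ((((δ - 1 : ℝ) : ℂ) + v * I) ^ 2) / (((δ - 1 : ℝ) : ℂ) + v * I)) := by
      rw [← hcr]; ring
    rw [h1]
    refine (norm_add_le _ _).trans (add_le_add ?_ hleft)
    rw [norm_mul, norm_mul]
    simp only [Complex.norm_ofNat, Complex.norm_real, Real.norm_eq_abs, abs_of_pos hpi]
    exact le_rfl
  have hexpl : Real.exp ((δ - 1) * l) = √M * ((M : ℝ) ^ n)⁻¹ := by
    have h1 : (δ - 1) * l = 1 / 2 * Real.log M - n * Real.log M := by
      rw [hl]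
      linear_combination Real.log M * hδn
    rw [h1, Real.exp_sub, Real.exp_nat_mul, Real.exp_log hM0, Real.sqrt_eq_rpow,
      Real.rpow_def_of_pos hM0, div_eq_mul_inv]
    congr 2
    ring
  have hsq : √(M : ℝ) * √(M : ℝ) = M := Real.mul_self_sqrt hM0.le
  have hsqE : E * R ≤ √(M : ℝ) := Real.le_sqrt_of_sq_le hM1
  have hMnpos : 0 < (M : ℝ) ^ n := by positivity
  -- the error term is at most half of the main term
  have herr : 4 * (d + 1) * K * Real.exp 1 * J κ * R * Real.exp ((δ - 1) * l) ≤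
      1 / 2 * (M * (((2 * M : ℝ) ^ n)⁻¹ * Real.exp (-(d ^ 2 : ℝ)))) := by
    rw [hexpl, mul_pow, mul_inv, Real.exp_neg]
    have h1 : 2 ^ (d + 1) * Real.exp (d ^ 2) * (4 * (d + 1) * K * Real.exp 1 * J κ) ≤ E := by
      rw [hE]; linarith
    have h2 : 2 ^ (d + 1) * Real.exp (d ^ 2) * (4 * (d + 1) * K * Real.exp 1 * J κ) * R ≤ √(M : ℝ) :=
      (mul_le_mul_of_nonneg_right h1 hR0.le).trans hsqE
    have h3 : 4 * (d + 1) * K * Real.exp 1 * J κ * R ≤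
        √(M : ℝ) * ((2 ^ (d + 1))⁻¹ * (Real.exp (d ^ 2))⁻¹) := by
      rw [← mul_inv, ← div_eq_mul_inv, le_div_iff₀ (by positivity)]
      linarith
    have h4 : ((2 : ℝ) ^ (d + 1))⁻¹ ≤ 1 / 2 * ((2 : ℝ) ^ n)⁻¹ := by
      have : (2 : ℝ) ^ n ≤ 2 ^ d := pow_le_pow_right₀ (by norm_num) hd
      rw [pow_succ, mul_inv, mul_comm]
      have h5 : ((2 : ℝ) ^ d)⁻¹ ≤ ((2 : ℝ) ^ n)⁻¹ := inv_anti₀ (by positivity) this
      linarith
    calc 4 * (d + 1) * K * Real.exp 1 * J κ * R * (√(M : ℝ) * ((M : ℝ) ^ n)⁻¹) ≤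
          √(M : ℝ) * ((2 ^ (d + 1))⁻¹ * (Real.exp (d ^ 2))⁻¹) * (√(M : ℝ) * ((M : ℝ) ^ n)⁻¹) := by gcongr
      _ = (√(M : ℝ) * √(M : ℝ)) * ((2 ^ (d + 1))⁻¹ * (Real.exp (d ^ 2))⁻¹ * ((M : ℝ) ^ n)⁻¹) := by ring
      _ ≤ M * (1 / 2 * ((2 : ℝ) ^ n)⁻¹ * (Real.exp (d ^ 2))⁻¹ * ((M : ℝ) ^ n)⁻¹) := by
          rw [hsq]; gcongr
      _ = _ := by ring
  have hY1 : 1 / 2 * (M * (((2 * M : ℝ) ^ n)⁻¹ * Real.exp (-(d ^ 2 : ℝ)))) ≤ 2 * Real.pi * ‖Y 1‖ := by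
    linarith
  have h9 : (M : ℝ) ^ n ≤ M * (2 * (E * R) ^ 2) ^ d := by
    obtain ⟨k, hk⟩ : ∃ k, n = k + 1 := ⟨n - 1, by omega⟩
    rw [hk, pow_succ, mul_comm]
    have h10 : (M : ℝ) ^ k ≤ (2 * (E * R) ^ 2) ^ d := by
      calc (M : ℝ) ^ k ≤ (2 * (E * R) ^ 2) ^ k := by gcongr
        _ ≤ _ := by
          refine pow_le_pow_right₀ ?_ (by omega)
          have : 1 ≤ (E * R) ^ 2 := one_le_pow₀ hER
          linarith
    gcongr
  have h10 : (2 ^ (d + 1) * Real.exp (d ^ 2) * (2 * (E * R) ^ 2) ^ d)⁻¹ ≤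
      1 / 2 * (M * (((2 * M : ℝ) ^ n)⁻¹ * Real.exp (-(d ^ 2 : ℝ)))) := by
    rw [mul_pow 2 (M : ℝ) n, mul_inv ((2 : ℝ) ^ n), Real.exp_neg, mul_inv ((2 : ℝ) ^ (d + 1) * _),
      mul_inv ((2 : ℝ) ^ (d + 1))]
    have h11 : ((2 : ℝ) ^ (d + 1))⁻¹ ≤ 1 / 2 * ((2 : ℝ) ^ n)⁻¹ := by
      have : (2 : ℝ) ^ n ≤ 2 ^ d := pow_le_pow_right₀ (by norm_num) hd
      rw [pow_succ, mul_inv, mul_comm]
      have h5 : ((2 : ℝ) ^ d)⁻¹ ≤ ((2 : ℝ) ^ n)⁻¹ := inv_anti₀ (by positivity) this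
      linarith
    have h12 : ((2 * (E * R) ^ 2) ^ d)⁻¹ ≤ M * ((M : ℝ) ^ n)⁻¹ := by
      rw [← div_eq_mul_inv, inv_eq_one_div, div_le_div_iff₀ (by positivity) hMnpos, one_mul]
      exact h9
    calc ((2 : ℝ) ^ (d + 1))⁻¹ * (Real.exp (d ^ 2))⁻¹ * ((2 * (E * R) ^ 2) ^ d)⁻¹ ≤
          (1 / 2 * ((2 : ℝ) ^ n)⁻¹) * (Real.exp (d ^ 2))⁻¹ * (M * ((M : ℝ) ^ n)⁻¹) := by gcongr
      _ = _ := by ring
  have h13 : (2 ^ (d + 1) * Real.exp (d ^ 2) * (2 * Real.pi) * (2 * E ^ 2) ^ d)⁻¹ * (R ^ (2 * d))⁻¹ =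
      (2 ^ (d + 1) * Real.exp (d ^ 2) * (2 * (E * R) ^ 2) ^ d)⁻¹ / (2 * Real.pi) := by
    rw [mul_pow E R, ← mul_assoc 2, mul_pow (2 * E ^ 2), ← pow_mul R]
    field_simp
  rw [h13, div_le_iff₀ (by positivity)]
  linarith

end Pool.Agent.K1H79.TOS
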