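import Pool.Agent.K1H79.TOS.Scale2

/-! # The bound at one scale, with a small subfield -/

set_option autoImplicit false
set_option linter.unusedSectionVars false
set_option linter.unusedVariables false

namespace Pool.Agent.K1H79.TOS

open NumberField Pointwise Ideal Pool.Agent.TH847.LS Pool.Agent.TH847.LG
open Pool.Agent.K1H79.TOR (span_prime span_ne_bot mem_of_over Sm smul_span smul_nat core ev_m)
open scoped nonZeroDivisors

/-- the group theoretic condition for the normal subgroups contained in `V` -/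
def StarV {G : Type} [Group G] (V H : Subgroup G) : Prop :=
  ∀ M : Subgroup G, M.Normal → M ≠ ⊥ → M ≤ V → ∃ g : G, ∀ x ∈ M, ∃ a : G ⧸ H, ∃ y ∈ M,
    ∀ k : ℤ, y • a ≠ (g * x) ^ k • a

theorem Star.starV {G : Type} [Group G] {H : Subgroup G} (h : Star H) (V : Subgroup G) : StarV V H :=
  fun M h1 h2 _ => h M h1 h2

variable {N : Type} [Field N] [NumberField N] [IsGalois ℚ N]

theorem scale3 {m n l : ℕ} {A : ℝ} (hA1 : 1 ≤ A) (hA : ManyR m A) (hmG : Nat.card Gal(N/ℚ) ≤ m)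
    {H : Subgroup Gal(N/ℚ)} (hH : H.normalCore = ⊥) {V : Subgroup Gal(N/ℚ)} (hS : StarV V H) (L : Type) [Field L] [NumberField L]
    [Algebra L N] [IsGaloisGroup H L N] (hn : Module.finrank ℚ L = n) (hl : 1 ≤ l)
    {t t' X : ℝ} (ht : 1 ≤ t) (hV : Sm t' V)
    (h1 : ((Nat.card Gal(N/ℚ) : ℕ) + 1) * t ≤ t')
    (hup : ((Nat.card Gal(N/ℚ) : ℝ) ^ 2 + t) ^ Nat.card Gal(N/ℚ) ≤ t')
    (hgap : ∀ U : Subgroup Gal(N/ℚ), Sm t' U → Sm t U)
    (hD : (2 * t') ^ (n * (n - 1)) < |(discr L : ℝ)|) (hX1 : 1 < X)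
    (hX : A * (1 + (m : ℝ) ^ 2 * Real.log (2 * t)) ≤ Real.log X)
    (hXt : (150 * X) ^ l ≤ t') (K : ℕ) (hK : 2 ^ n * √|(discr L : ℝ)| < K) :
    (X ^ (1 / 64 : ℝ) - (discr L).natAbs.primeFactors.card) *
      (Nat.card {c : ClassGroup (𝓞 L) // c ^ l = 1} : ℝ) ≤
      (n + 1) * ∑ J ∈ FI L K, (1 + Real.log ((K : ℝ) / Ideal.absNorm J)) ^ n := by
  classical
  obtain ⟨M, hMn, hMt, hMU⟩ := core (L := N) ht h1 hgap
  have hM : M ≠ ⊥ := by
    rintro rfl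
    have h2 := ((hMt.up ht (bot_le : ⊥ ≤ H)).mono hup).disc_sub L
    rw [hn] at h2
    linarith
  obtain ⟨g, hg⟩ := hS M hMn hM (hMU V hV)
  obtain ⟨f, B, hB1, hB2⟩ := good_primes hA1 hA hmG hH L hg ht hup hgap hMt hX1 hX
  set W := ∑ J ∈ FI L K, (1 + Real.log ((K : ℝ) / Ideal.absNorm J)) ^ n with hW
  set T : ℝ := (Nat.card {c : ClassGroup (𝓞 L) // c ^ l = 1} : ℝ) with hT
  have hT0 : 0 ≤ T := Nat.cast_nonneg _
  -- the primes of `L` and the cofactors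
  have hc : ∀ p : ℕ, ∃ k : ℕ, ∃ J : Ideal (𝓞 L), p ∈ B → k ≤ n ∧ (f p).under (𝓞 L) ≠ ⊥ ∧ J ≠ ⊥ ∧
      (f p).under (𝓞 L) * J = Ideal.span {((p : ℕ) : 𝓞 L)} ∧
      Ideal.absNorm ((f p).under (𝓞 L)) = p ^ k ∧ Ideal.absNorm J = p ^ (n - k) := by
    intro p
    by_cases hp : p ∈ B
    · obtain ⟨h5, -, -, h7, h8, -⟩ := hB2 p hp
      obtain ⟨k, h9, h10, J, h11, h12, h13, h14⟩ := cof hn h5 ((f p).under (𝓞 L)) (under_ne_bot h5 L (f p)).1
      exact ⟨k, J, fun _ => ⟨h9, h10, h11, h12, h13, h14⟩⟩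
    · exact ⟨0, ⊥, fun h => absurd h hp⟩
  choose r J hr using hc
  -- one degree
  have key : ∀ k : ℕ, k ≤ n → ((B.filter fun p => r p = k).card : ℝ) * T ≤ W := by
    intro k hkn
    obtain ⟨BU, hBU⟩ : ∃ BU : Finset ℕ, BU = B.filter fun p => r p = k := ⟨_, rfl⟩
    rw [← hBU]
    have hm : ∀ p : {p // p ∈ BU}, p.1 ∈ B ∧ r p.1 = k := by
      rintro ⟨p, hp⟩
      rw [hBU, Finset.mem_filter] at hp
      exact hp
    have hc : ∀ p : {p // p ∈ BU}, (f p.1).under (𝓞 L) ≠ ⊥ ∧ J p.1 ≠ ⊥ ∧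
      (f p.1).under (𝓞 L) * J p.1 = Ideal.span {((p.1 : ℕ) : 𝓞 L)} ∧
      Ideal.absNorm ((f p.1).under (𝓞 L)) = p.1 ^ k ∧ Ideal.absNorm (J p.1) = p.1 ^ (n - k) := by
      intro p
      have h9 := (hr p.1 (hm p).1).2
      rw [(hm p).2] at h9
      exact h9
    refine ev_m hkn hn hl K hK BU
      (fun p => ⟨(f p.1).under (𝓞 L), mem_nonZeroDivisors_of_ne_zero (hc p).1⟩)
      (fun p => ⟨J p.1, mem_nonZeroDivisors_of_ne_zero (hc p).2.1⟩)
      (fun p => ⟨(hB2 p.1 (hm p).1).1, (hc p).2.2.1, (hc p).2.2.2.1, (hc p).2.2.2.2⟩) ?_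
    intro p q hpq z hz0 hz hw
    have hpB := hB2 p.1 (hm p).1
    have hqB := hB2 q.1 (hm q).1
    have hqP := hqB.2.2.2.1
    have hqL := hqB.2.2.2.2.1
    have hmax : ((max p.1 q.1 : ℕ) : ℝ) ≤ X := by
      push_cast
      exact max_le hpB.2.1 hqB.2.1
    refine sep2 hl (M := M) (H := H) L hpB.1 hqB.1 (fun h => hpq (Subtype.ext h)) (Q := f q.1)
      hqB.2.2.2.2.2 (hc p).2.2.1 hz (B := (150 * X) ^ l) ?_ ?_
    · intro w
      refine (hw w).trans ?_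
      gcongr
    · intro U hU
      exact hMU U (hU.mono hXt)
  have hsum : (B.card : ℝ) = ∑ k ∈ Finset.range (n + 1), ((B.filter fun p => r p = k).card : ℝ) := by
    have h3 := Finset.card_eq_sum_card_fiberwise (s := B) (t := Finset.range (n + 1))
      (f := r) (fun p hp => Finset.mem_coe.2 (Finset.mem_range.2 (Nat.lt_succ_of_le (hr p hp).1)))
    exact_mod_cast h3
  have hfin : (B.card : ℝ) * T ≤ (n + 1) * W := by
    rw [hsum, Finset.sum_mul]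
    refine (Finset.sum_le_sum fun k hk => key k (Nat.lt_succ_iff.1 (Finset.mem_range.1 hk))).trans ?_
    rw [Finset.sum_const, Finset.card_range, nsmul_eq_mul]
    push_cast
    exact le_rfl
  refine le_trans ?_ hfin
  refine mul_le_mul_of_nonneg_right ?_ hT0
  linarith

end Pool.Agent.K1H79.TOS
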