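import Pool.Agent.K1H79.TOS.Good
import Pool.Agent.K1H79.TOR.Sep

/-! # Balanced integers of `L` have a large stabiliser -/

set_option autoImplicit false
set_option linter.unusedSectionVars false
set_option linter.unusedVariables false

namespace Pool.Agent.K1H79.TOS

open NumberField Pointwise Ideal
open Pool.Agent.K1H79.TOR (span_prime span_ne_bot mem_of_over Sm smul_span smul_nat)

variable {N : Type} [Field N] [NumberField N] [IsGalois ℚ N]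

/-- the stabiliser of a small integer of a subfield is small -/
theorem sm_stab (L : Type) [Field L] [NumberField L] [Algebra L N] (z : 𝓞 L) {B : ℝ}
    (hw : ∀ w : InfinitePlace L, w (z : L) ≤ B) :
    Sm B (MulAction.stabilizer Gal(N/ℚ) (algebraMap (𝓞 L) (𝓞 N) z)) := by
  refine ⟨algebraMap (𝓞 L) (𝓞 N) z, fun g => Iff.rfl, fun φ => ?_⟩
  have h1 := hw (InfinitePlace.mk (φ.comp (algebraMap L N)))
  rw [InfinitePlace.apply] at h1
  exact h1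

theorem sep2 {l : ℕ} (hl : 1 ≤ l) {M H : Subgroup Gal(N/ℚ)} (L : Type) [Field L] [NumberField L]
    [Algebra L N] [IsGaloisGroup H L N] {p q : ℕ} (hp : p.Prime) (hq : q.Prime) (hpq : p ≠ q)
    {Q : Ideal (𝓞 N)} [Q.IsPrime] [Q.LiesOver (Ideal.span {(q : ℤ)})] (hQ : Mv M H Q)
    {P J : Ideal (𝓞 L)} (hPJ : P * J = Ideal.span {((p : ℕ) : 𝓞 L)}) {z : 𝓞 L}
    (hz : Ideal.span {z} = (Q.under (𝓞 L)) ^ l * J ^ l) {B : ℝ}
    (hw : ∀ w : InfinitePlace L, w (z : L) ≤ B)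
    (hU : ∀ U : Subgroup Gal(N/ℚ), Sm B U → M ≤ U) : False := by
  have hgg := gg H L
  obtain ⟨y, hy, hyQ⟩ := hQ
  have hfix : y⁻¹ • algebraMap (𝓞 L) (𝓞 N) z = algebraMap (𝓞 L) (𝓞 N) z :=
    hU _ (sm_stab L z hw) (M.inv_mem hy)
  have hzQ : z ∈ Q.under (𝓞 L) := by
    have h1 : z ∈ Ideal.span {z} := Ideal.mem_span_singleton_self z
    rw [hz] at h1
    have h2 : (Q.under (𝓞 L)) ^ l * J ^ l ≤ (Q.under (𝓞 L)) ^ l := Ideal.mul_le_left
    have h3 : (Q.under (𝓞 L)) ^ l ≤ Q.under (𝓞 L) := Ideal.pow_le_self (by omega)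
    exact h3 (h2 h1)
  have hzQ' : algebraMap (𝓞 L) (𝓞 N) z ∈ Q := by
    rw [Ideal.under_def, Ideal.mem_comap] at hzQ
    exact hzQ
  have hzy : z ∈ (y⁻¹ • Q).under (𝓞 L) := by
    rw [Ideal.under_def, Ideal.mem_comap, ← hfix]
    exact Ideal.smul_mem_pointwise_smul _ _ _ hzQ'
  have hQy : (y⁻¹ • Q).LiesOver (Ideal.span {(q : ℤ)}) := inferInstance
  have hQp : (y⁻¹ • Q).IsPrime := inferInstance
  obtain ⟨h1, h2⟩ := under_ne_bot hq L Q
  obtain ⟨h3, h4⟩ := under_ne_bot hq L (y⁻¹ • Q)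
  have hprime : Prime ((y⁻¹ • Q).under (𝓞 L)) := Ideal.prime_of_isPrime h4 inferInstance
  have hne : (y⁻¹ • Q).under (𝓞 L) ≠ ⊤ := (inferInstance : ((y⁻¹ • Q).under (𝓞 L)).IsPrime).ne_top
  have hdvd : (y⁻¹ • Q).under (𝓞 L) ∣ (Q.under (𝓞 L)) ^ l * J ^ l := by
    rw [← hz, Ideal.dvd_iff_le, Ideal.span_le, Set.singleton_subset_iff]
    exact hzy
  rcases hprime.dvd_or_dvd hdvd with h5 | h5
  · have h6 : (y⁻¹ • Q).under (𝓞 L) ∣ Q.under (𝓞 L) := hprime.dvd_of_dvd_pow h5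
    have hmax : (Q.under (𝓞 L)).IsMaximal := (inferInstance : (Q.under (𝓞 L)).IsPrime).isMaximal h2
    have h7 : Q.under (𝓞 L) = (y⁻¹ • Q).under (𝓞 L) :=
      hmax.eq_of_le hne (Ideal.dvd_iff_le.1 h6)
    obtain ⟨v, hv⟩ := Algebra.IsInvariant.exists_smul_of_under_eq (𝓞 L) (𝓞 N) H _ _ h7
    -- `y⁻¹ • Q = v • Q`
    have h8 : y * v.1 ∈ MulAction.stabilizer Gal(N/ℚ) Q := by
      rw [MulAction.mem_stabilizer_iff, mul_smul]
      have h9 : v.1 • Q = y⁻¹ • Q := hv.symm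
      rw [h9, smul_inv_smul]
    refine hyQ v.1⁻¹ (H.inv_mem v.2) _ h8 ?_
    rw [mul_inv_cancel_right]
  · have h6 : (y⁻¹ • Q).under (𝓞 L) ∣ J := hprime.dvd_of_dvd_pow h5
    have h7 : (y⁻¹ • Q).under (𝓞 L) ∣ Ideal.span {((p : ℕ) : 𝓞 L)} := by
      rw [← hPJ]
      exact h6.mul_left _
    have h8 : ((p : ℕ) : 𝓞 L) ∈ (y⁻¹ • Q).under (𝓞 L) :=
      Ideal.dvd_iff_le.1 h7 (Ideal.mem_span_singleton_self _)
    have h9 : ((q : ℕ) : 𝓞 L) ∈ (y⁻¹ • Q).under (𝓞 L) := mem_of_over (p := q) ((y⁻¹ • Q).under (𝓞 L))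
    have hcop : IsCoprime (p : ℤ) (q : ℤ) :=
      Nat.isCoprime_iff_coprime.2 ((Nat.coprime_primes hp hq).2 hpq)
    obtain ⟨a, b, hab⟩ := hcop
    have h10 : ((a * p + b * q : ℤ) : 𝓞 L) ∈ (y⁻¹ • Q).under (𝓞 L) := by
      push_cast
      exact Ideal.add_mem _ (Ideal.mul_mem_left _ _ h8) (Ideal.mul_mem_left _ _ h9)
    rw [hab, Int.cast_one] at h10
    exact hne ((Ideal.eq_top_iff_one _).2 h10)

end Pool.Agent.K1H79.TOS
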