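import Pool.Agent.K1H79.TOS.Clos
import Pool.Agent.K1H79.TOS.Prim
import Pool.Agent.K1H79.TOS.Scale3
import Pool.Agent.K1H79.TOR.Ht

/-! # Fields whose discriminant has a small squarefree part -/

set_option autoImplicit false
set_option linter.unusedSectionVars false
set_option linter.unusedVariables false

namespace Pool.Agent.K1H79.TOS

open NumberField
open Pool.Agent.K1H79.TOR (Sm)

section

theorem sign_cycle2 {S : Type} [Fintype S] [DecidableEq S] (h2 : 1 < Fintype.card S)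
    (π : Equiv.Perm S) (hπ : ∀ a b : S, ∃ k : ℤ, b = (π ^ k) a) :
    Equiv.Perm.sign π = -(-1) ^ Fintype.card S := by
  have hnt : Nontrivial S := Fintype.one_lt_card_iff_nontrivial.1 h2
  have hmove : ∀ a, π a ≠ a := by
    intro a ha
    obtain ⟨b, hb⟩ := exists_ne a
    obtain ⟨k, hk⟩ := hπ a b
    apply hb
    rw [hk]
    exact Equiv.Perm.zpow_apply_eq_self_of_apply_eq_self ha k
  have hc : π.IsCycle := by
    obtain ⟨a, -⟩ := exists_pair_ne S
    refine ⟨a, hmove a, fun b _ => ?_⟩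
    obtain ⟨k, hk⟩ := hπ a b
    exact ⟨k, hk.symm⟩
  have hsupp : π.support = Finset.univ := by
    ext a
    simp [hmove a]
  rw [hc.sign, hsupp, Finset.card_univ]

variable {L N : Type} [Field L] [NumberField L] [Field N] [NumberField N] [Algebra L N] [IsGalois ℚ N]

open Classical in
/-- the sign of the permutation of the embeddings of `L` given by `σ` -/
noncomputable def sgn (L : Type) [Field L] [NumberField L] [Algebra L N] (σ : Gal(N/ℚ)) : ℤˣ :=
  haveI : Fintype (Gal(N/ℚ) ⧸ HH L N) := Fintype.ofFinite _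
  Equiv.Perm.sign (MulAction.toPerm σ : Equiv.Perm (Gal(N/ℚ) ⧸ HH L N))

theorem sgn_mul (σ τ : Gal(N/ℚ)) : sgn L (σ * τ) = sgn L σ * sgn L τ := by
  unfold sgn
  rw [← map_mul]
  congr 1
  ext a
  exact mul_smul σ τ a

theorem toPerm_zpow (σ : Gal(N/ℚ)) (k : ℤ) (a : Gal(N/ℚ) ⧸ HH L N) :
    ((MulAction.toPerm σ : Equiv.Perm (Gal(N/ℚ) ⧸ HH L N)) ^ k) a = σ ^ k • a := by
  have hπe : (MulAction.toPerm σ : Equiv.Perm (Gal(N/ℚ) ⧸ HH L N)) =
    MulAction.toPermHom Gal(N/ℚ) (Gal(N/ℚ) ⧸ HH L N) σ := rfl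
  rw [hπe, ← map_zpow]
  rfl

theorem sgn_cycle (h2 : 1 < Module.finrank ℚ L) (σ : Gal(N/ℚ))
    (h : ∀ a b : Gal(N/ℚ) ⧸ HH L N, ∃ k : ℤ, b = σ ^ k • a) :
    sgn L σ = -(-1) ^ Module.finrank ℚ L := by
  classical
  have : Fintype (Gal(N/ℚ) ⧸ HH L N) := Fintype.ofFinite _
  have hcard : Fintype.card (Gal(N/ℚ) ⧸ HH L N) = Module.finrank ℚ L := by
    rw [← Nat.card_eq_fintype_card]
    exact card_quot
  have h1 := sign_cycle2 (by rw [hcard]; exact h2)
    (MulAction.toPerm σ : Equiv.Perm (Gal(N/ℚ) ⧸ HH L N)) (fun a b => by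
      obtain ⟨k, hk⟩ := h a b
      exact ⟨k, by rw [toPerm_zpow]; exact hk⟩)
  rw [hcard] at h1
  rw [← h1]
  unfold sgn
  congr
  exact Subsingleton.elim _ _

/-- the square root of the discriminant -/
theorem sq_data (L N : Type) [Field L] [NumberField L] [Field N] [NumberField N] [Algebra L N]
    [IsGalois ℚ N] : ∃ s : N, s ^ 2 = (discr L : N) ∧ ∀ σ : Gal(N/ℚ), σ s = ((sgn L σ : ℤ) : N) * s := by
  classical
  let S := Gal(N/ℚ) ⧸ HH L N
  have : Fintype S := Fintype.ofFinite _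
  have hcard : Fintype.card S = Module.finrank ℚ L := by
    rw [← Nat.card_eq_fintype_card]
    exact card_quot
  obtain ⟨e0⟩ : Nonempty (Module.Free.ChooseBasisIndex ℤ (𝓞 L) ≃ S) := by
    refine ⟨Fintype.equivOfCardEq ?_⟩
    rw [hcard, ← Module.finrank_eq_card_chooseBasisIndex, RingOfIntegers.rank]
  obtain ⟨b, hb⟩ : ∃ b : Module.Basis S ℚ L, b = (integralBasis L).reindex e0 := ⟨_, rfl⟩
  obtain ⟨A, hA⟩ : ∃ A : Matrix S S N, ∀ i a, A i a = (Quotient.out a : Gal(N/ℚ)) (algebraMap L N (b i)) :=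
    ⟨Matrix.of fun i a => (Quotient.out a : Gal(N/ℚ)) (algebraMap L N (b i)), fun _ _ => rfl⟩
  obtain ⟨j0⟩ : Nonempty (N →+* ℂ) := inferInstance
  obtain ⟨j, hj⟩ : ∃ j : N →ₐ[ℚ] ℂ, ∀ x, j x = j0 x := ⟨j0.toRatAlgHom, fun _ => rfl⟩
  -- the embeddings
  have hmk : ∀ a : S, ((Quotient.out a : Gal(N/ℚ)) : S) = a := fun a => Quotient.out_eq a
  have hbij : Function.Bijective (fun a : S => j.comp (emb L (Quotient.out a : Gal(N/ℚ)))) := by
    rw [Fintype.bijective_iff_injective_and_card]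
    refine ⟨fun a a' haa' => ?_, ?_⟩
    · rw [← hmk a, ← hmk a', QuotientGroup.eq, mem_HH]
      intro x
      have h1 : j ((Quotient.out a : Gal(N/ℚ)) (algebraMap L N x)) =
          j ((Quotient.out a' : Gal(N/ℚ)) (algebraMap L N x)) := congrArg (fun f : L →ₐ[ℚ] ℂ => f x) haa'
      have h2 := j.injective h1
      rw [AlgEquiv.mul_apply, ← h2, ← AlgEquiv.mul_apply, inv_mul_cancel]
      rfl
    · rw [hcard, AlgHom.card]
  let e : S ≃ (L →ₐ[ℚ] ℂ) := Equiv.ofBijective _ hbij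
  have h3 := Algebra.discr_eq_det_embeddingsMatrixReindex_pow_two ℚ ℂ (⇑b) e
  have h4 : Algebra.embeddingsMatrixReindex ℚ ℂ b e = j.toRingHom.mapMatrix A := by
    ext i a
    rw [RingHom.mapMatrix_apply, Matrix.map_apply, hA]
    rfl
  have h5 : Algebra.discr ℚ b = (discr L : ℚ) := by
    rw [hb, Module.Basis.coe_reindex, Algebra.discr_reindex, coe_discr]
  rw [h4, h5, ← RingHom.map_det] at h3
  have h6 : A.det ^ 2 = (discr L : N) := by
    apply j.injective
    rw [map_pow, map_intCast]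
    have : (algebraMap ℚ ℂ) ((discr L : ℤ) : ℚ) = ((discr L : ℤ) : ℂ) := by simp
    rw [this] at h3
    exact h3.symm
  refine ⟨A.det, h6, fun σ => ?_⟩
  have h10 : σ.toRingEquiv.toRingHom.mapMatrix A =
      A.submatrix id (MulAction.toPerm σ : Equiv.Perm S) := by
    ext i a
    rw [RingHom.mapMatrix_apply, Matrix.map_apply, Matrix.submatrix_apply, hA, hA, id]
    show σ ((Quotient.out a : Gal(N/ℚ)) (algebraMap L N (b i))) =
      (Quotient.out (σ • a) : Gal(N/ℚ)) (algebraMap L N (b i))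
    have h11 : ((σ * (Quotient.out a : Gal(N/ℚ)) : Gal(N/ℚ)) : S) = ((Quotient.out (σ • a) : Gal(N/ℚ)) : S) := by
      rw [hmk (σ • a)]
      conv_rhs => rw [← hmk a]
      rfl
    rw [QuotientGroup.eq, mem_HH] at h11
    have h12 := h11 (b i)
    have h13 := congrArg (fun z => (σ * (Quotient.out a : Gal(N/ℚ))) z) h12
    rw [← AlgEquiv.mul_apply, mul_inv_cancel_left] at h13
    rw [h13]
    rfl
  have h15 := RingHom.map_det σ.toRingEquiv.toRingHom A
  rw [h10, Matrix.det_permute'] at h15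
  have h16 : σ.toRingEquiv.toRingHom A.det = σ A.det := rfl
  rw [h16] at h15
  rw [h15]
  congr 3
  unfold sgn
  congr
  exact Subsingleton.elim _ _

end

section

variable {G : Type} [Group G]

theorem star_local {M H : Subgroup G} (hMn : M.Normal) (hsup : M ⊔ H = ⊤) {σ : G}
    (hab : ∃ a b : G ⧸ H, ∀ k : ℤ, b ≠ σ ^ k • a) : ∃ a : G ⧸ H, ∃ y ∈ M, ∀ k : ℤ, y • a ≠ σ ^ k • a := by
  obtain ⟨a, b, hab⟩ := hab
  refine ⟨a, ?_⟩
  obtain ⟨r, hr⟩ : ∃ r : G, (r : G ⧸ H) = a := ⟨Quotient.out a, Quotient.out_eq a⟩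
  obtain ⟨s, hs⟩ : ∃ s : G, (s : G ⧸ H) = b := ⟨Quotient.out b, Quotient.out_eq b⟩
  have h1 : r⁻¹ * s ∈ M ⊔ H := by rw [hsup]; trivial
  obtain ⟨y, hy, h, hh, hyh⟩ := Subgroup.mem_sup_of_normal_left.1 h1
  have h2 : (r * y * r⁻¹) • a = b := by
    rw [← hr, ← hs]
    have h3 : (r * y * r⁻¹) • (r : G ⧸ H) = ((r * y * r⁻¹ * r : G) : G ⧸ H) := rfl
    rw [h3, inv_mul_cancel_right, QuotientGroup.eq]
    have h4 : (r * y)⁻¹ * s = h := by
      have : s = r * (y * h) := by rw [hyh, mul_inv_cancel_left]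
      rw [this]
      group
    rw [h4]
    exact hh
  refine ⟨r * y * r⁻¹, hMn.conj_mem y hy r, fun k => ?_⟩
  rw [h2]
  exact hab k

end

section

variable {L N : Type} [Field L] [NumberField L] [Field N] [NumberField N] [Algebra L N] [IsGalois ℚ N]

theorem starV_sgn [IsNormalClosure ℚ L N] (h2 : 1 < Module.finrank ℚ L)
    (hprim : ∀ E : IntermediateField ℚ L, E = ⊥ ∨ E = ⊤)
    (hodd : Even (Module.finrank ℚ L) ∨ ∃ g : Gal(N/ℚ), sgn L g = -1) {V : Subgroup Gal(N/ℚ)}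
    (hV : ∀ σ, σ ∈ V → sgn L σ = 1) : StarV V (HH L N) := by
  intro M hMn hM hMV
  have hsup := sup_top hprim M hMn hM
  obtain ⟨g, hg⟩ : ∃ g : Gal(N/ℚ), sgn L g ≠ -(-1) ^ Module.finrank ℚ L := by
    rcases Nat.even_or_odd (Module.finrank ℚ L) with h | h
    · refine ⟨1, ?_⟩
      rw [h.neg_one_pow, hV 1 V.one_mem]
      decide
    · rcases hodd with h' | ⟨g, hg⟩
      · exact absurd h' (Nat.not_even_iff_odd.2 h)
      · refine ⟨g, ?_⟩
        rw [h.neg_one_pow, hg]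
        decide
  refine ⟨g, fun x hx => star_local hMn hsup ?_⟩
  by_contra hcon
  push Not at hcon
  have h3 := sgn_cycle (L := L) h2 (g * x) hcon
  rw [sgn_mul, hV x (hMV hx), mul_one] at h3
  exact hg h3

/-- the subgroup of the elements of sign one, when the discriminant is `d f ^ 2` -/
theorem exists_V (L N : Type) [Field L] [NumberField L] [Field N] [NumberField N] [Algebra L N] [IsGalois ℚ N]
    {d f : ℤ} (hdf : discr L = d * f ^ 2) :
    ∃ V : Subgroup Gal(N/ℚ), Sm (√|(d : ℝ)|) V ∧ ∀ σ, σ ∈ V → sgn L σ = 1 := by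
  obtain ⟨s, hs, hσ⟩ := sq_data L N
  have hD := discr_ne_zero L
  have hf : (f : N) ≠ 0 := by
    intro h
    have h1 : f = 0 := by exact_mod_cast h
    rw [hdf, h1] at hD
    exact hD (by ring)
  have hs0 : s ≠ 0 := by
    rintro rfl
    have h1 : ((discr L : ℤ) : N) = 0 := by rw [← hs]; ring
    exact hD (by exact_mod_cast h1)
  have hu : (s / f) ^ 2 = (d : N) := by
    rw [div_pow, hs, hdf]
    push_cast
    field_simp
  have hint : IsIntegral ℤ (s / (f : N)) := by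
    refine IsIntegral.of_pow (n := 2) (by norm_num) ?_
    rw [hu]
    exact isIntegral_algebraMap (R := ℤ) (A := N) (x := d)
  obtain ⟨u, hu2⟩ : ∃ u : 𝓞 N, (u : N) = s / f := ⟨⟨s / f, hint⟩, rfl⟩
  refine ⟨MulAction.stabilizer Gal(N/ℚ) u, ⟨u, fun g => Iff.rfl, fun φ => ?_⟩, fun σ hσu => ?_⟩
  · have h1 : ‖φ (u : N)‖ ^ 2 = |(d : ℝ)| := by
      rw [← norm_pow, ← map_pow, hu2, hu, map_intCast, Complex.norm_intCast]
    exact Real.le_sqrt_of_sq_le h1.le
  · have h1 : σ (s / (f : N)) = s / f := by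
      rw [← hu2]
      exact congrArg (fun y : 𝓞 N => (y : N)) hσu
    rw [map_div₀, map_intCast, hσ σ] at h1
    have h2 : ((sgn L σ : ℤ) : N) = 1 := by
      field_simp at h1
      exact h1
    rcases Int.units_eq_one_or (sgn L σ) with h | h
    · exact h
    · exfalso
      rw [h] at h2
      push_cast at h2
      have h3 : (2 : N) = 0 := by linear_combination -h2
      exact two_ne_zero h3

/-- a discriminant which is not a square -/
theorem exists_neg (L N : Type) [Field L] [NumberField L] [Field N] [NumberField N] [Algebra L N] [IsGalois ℚ N]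
    (hsq : ¬ IsSquare (discr L)) : ∃ g : Gal(N/ℚ), sgn L g = -1 := by
  by_contra hcon
  push Not at hcon
  obtain ⟨s, hs, hσ⟩ := sq_data L N
  have h1 : ∀ g : Gal(N/ℚ), g s = s := by
    intro g
    rcases Int.units_eq_one_or (sgn L g) with h | h
    · rw [hσ, h]
      push_cast
      ring
    · exact absurd h (hcon g)
  have h2 : s ∈ (⊥ : IntermediateField ℚ N) := (IsGalois.mem_bot_iff_fixed s).2 h1
  rw [IntermediateField.mem_bot] at h2
  obtain ⟨q, hq⟩ := h2
  apply hsq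
  rw [← Rat.isSquare_intCast_iff]
  refine ⟨q, ?_⟩
  apply (algebraMap ℚ N).injective
  rw [map_mul, hq, ← sq, hs]
  simp

end

end Pool.Agent.K1H79.TOS
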